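import Mathlib

set_option autoImplicit false

namespace H13W

theorem cover_subgroup {X Y : Type} [TopologicalSpace X] [TopologicalSpace Y]
    [PathConnectedSpace Y] (p : Y → X) (hp : IsCoveringMap p) (y : Y)
    (hfin : (p ⁻¹' {p y}).Finite) :
    ∃ H : Subgroup (FundamentalGroup X (p y)), H.FiniteIndex ∧
      Nonempty (FundamentalGroup Y y ≃* H) := by
  classical
  let _ := hp.fundamentalGroupMulAction (p y)
  let e : p ⁻¹' {p y} := ⟨y, rfl⟩
  have hf : Finite (p ⁻¹' {p y}) := hfin.to_subtype
  let φ : FundamentalGroup Y y →* FundamentalGroup X (p y) :=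
    FundamentalGroup.map ⟨p, hp.continuous⟩ y
  have hinj : Function.Injective φ := hp.injective_path_homotopic_map y y
  have hrange : φ.range = MulAction.stabilizer (FundamentalGroup X (p y)) e := by
    ext g
    rw [MonoidHom.mem_range, MulAction.mem_stabilizer_iff]
    constructor
    · rintro ⟨γ, rfl⟩
      exact hp.monodromy_map (x := y) (y := y) γ
    · intro h
      have h1 : hp.monodromy g e = e := h
      have h2 := hp.map_liftPathQuotient g e
      have key : ∀ (e' : p ⁻¹' {p y}) (_ : e' = e) (Γ : Path.Homotopic.Quotient (e : Y) (e' : Y)),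
          Γ.map ⟨p, hp.continuous⟩ = Path.Homotopic.Quotient.cast g e.2 e'.2 →
          ∃ γ : FundamentalGroup Y y, φ γ = g := by
        rintro _ rfl Γ hΓ
        refine ⟨Γ, hΓ.trans ?_⟩
        exact Path.Homotopic.Quotient.cast_rfl_rfl g
      exact key _ h1 _ h2
  have hindex : (MulAction.stabilizer (FundamentalGroup X (p y)) e).FiniteIndex := by
    constructor
    rw [MulAction.index_stabilizer]
    exact Set.ncard_ne_zero_of_mem (MulAction.mem_orbit_self e) (Set.toFinite _)
  refine ⟨φ.range, ?_, ⟨MonoidHom.ofInjective hinj⟩⟩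
  rw [hrange]
  exact hindex

end H13W
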