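import Pool.Agent.Lib.H13W.Main
import Pool.Agent.Lib.H13W.Cov
import Pool.Agent.Lib.H13M.C21
import Pool.Agent.Lib.H13M.C22

set_option autoImplicit false

open scoped unitInterval Polynomial

namespace H13W

open H13K H13M

variable {n : ℕ} {ι : Type}

/-- A homeomorphism induces an isomorphism of fundamental groups. -/
private theorem fin_pi {X Y : Type} [TopologicalSpace X] [TopologicalSpace Y] (e : X ≃ₜ Y) {x : X}
    {y : Y} (h : e x = y) : Nonempty (FundamentalGroup X x ≃* FundamentalGroup Y y) := by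
  have h' : e.symm y = x := by rw [← h, e.symm_apply_apply]
  refine ⟨MonoidHom.toMulEquiv
    (FundamentalGroup.mapOfEq (⟨e, e.continuous⟩ : C(X, Y)) (x := x) (y := y) h)
    (FundamentalGroup.mapOfEq (⟨e.symm, e.symm.continuous⟩ : C(Y, X)) (x := y) (y := x) h') ?_ ?_⟩
  · ext p
    rw [MonoidHom.comp_apply, FundamentalGroup.mapOfEq_apply, FundamentalGroup.mapOfEq_apply]
    induction p using Path.Homotopic.Quotient.ind with | mk γ =>
    change Path.Homotopic.Quotient.mk _ = Path.Homotopic.Quotient.mk γ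
    congr 1
    exact Path.ext (funext fun t => e.symm_apply_apply (γ t))
  · ext p
    rw [MonoidHom.comp_apply, FundamentalGroup.mapOfEq_apply, FundamentalGroup.mapOfEq_apply]
    induction p using Path.Homotopic.Quotient.ind with | mk γ =>
    change Path.Homotopic.Quotient.mk _ = Path.Homotopic.Quotient.mk γ
    congr 1
    exact Path.ext (funext fun t => e.apply_symm_apply (γ t))

/-- Without hypersurfaces the group is trivial. -/
theorem trivial_of_isEmpty [Fintype ι] [IsEmpty ι] (P : ι → (MvPolynomial (Fin n) ℂ)[X])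
    (x₀ : NX P) (g : FundamentalGroup (NX P) x₀) : g = 1 := by
  have hm : ∀ i, (P i).Monic := fun i => isEmptyElim i
  have hpc : PathConnectedSpace (NX P) := by
    have h1 := NX_convex_pc P hm Set.univ convex_univ isOpen_univ ⟨0, trivial⟩
    rw [Set.univ_inter] at h1
    exact isPathConnected_iff_pathConnectedSpace.1 h1
  obtain ⟨r, hr⟩ := H13M.exists_disc P hm (fun i => isEmptyElim i)
    (fun i => isEmptyElim i)
  obtain ⟨Φ, hΦ⟩ := exists_univ x₀
  obtain ⟨p, hp⟩ := Quotient.exists_rep (FundamentalGroup.toPath g)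
  have h1 : Φ.val p = g := by
    rw [hΦ]
    have h1 : Path.Homotopic.Quotient.mk p = FundamentalGroup.toPath g := hp
    rw [h1]
  rw [← h1]
  exact kills_all P hm r hr Φ (fun i => isEmptyElim i) x₀ p

/-- The complement of a hypersurface, subgroups of finite index. -/
theorem final_sub (f : MvPolynomial (Fin (n + 1)) ℂ)
    (x₀ : {z : Fin (n + 1) → ℂ // MvPolynomial.eval z f ≠ 0})
    (H : Subgroup (FundamentalGroup {z : Fin (n + 1) → ℂ // MvPolynomial.eval z f ≠ 0} x₀))
    (hH : H.FiniteIndex) (A B : Type) [Group A] [Group B] [Nontrivial A] [Nontrivial B]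
    (e : H ≃* Monoid.Coprod A B) :
    (∃ (h : MvPolynomial (Fin (n + 1)) ℂ) (S : Finset ℂ), Irreducible h ∧
      ∀ x, MvPolynomial.eval x f = 0 ↔ MvPolynomial.eval x h ∈ S) ∧
    (∃ a : ℕ, Nonempty (A ≃* FreeGroup (Fin a))) ∧
      ∃ b : ℕ, Nonempty (B ≃* FreeGroup (Fin b)) := by
  have hf0 : f ≠ 0 := by
    obtain ⟨v, hv⟩ : ∃ v : Fin (n + 1) → ℂ, MvPolynomial.eval v f ≠ 0 := ⟨x₀.1, x₀.2⟩
    intro h
    exact hv (by rw [h, map_zero])
  obtain ⟨L, φ, hφ, hu⟩ := exists_shear f hf0
  obtain ⟨ι, hι, P, hm, hirr, hinj, hdvd, hz, hass⟩ := exists_family (φ f) hu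
  have key : ∀ v : Fin (n + 1) → ℂ, (∃ i, ev (P i) (L v) = 0) ↔ MvPolynomial.eval v f = 0 := by
    intro v
    rw [← hz, hφ]
  have hiff : ∀ v : Fin (n + 1) → ℂ, MvPolynomial.eval v f ≠ 0 ↔ L v ∈ NX P := by
    intro v
    rw [← not_iff_not, not_not, ← key v]
    change _ ↔ ¬ ∀ i, ev (P i) (L v) ≠ 0
    push Not
    rfl
  obtain ⟨g⟩ := fin_pi (L.subtype hiff) (x := x₀) rfl
  have hH' : (H.map g.toMonoidHom).FiniteIndex := by
    constructor
    have h1 : (H.map g.toMonoidHom).index = H.index := Subgroup.index_map_equiv H g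
    rw [h1]
    exact hH.index_ne_zero
  have e' : H.map g.toMonoidHom ≃* Monoid.Coprod A B := (g.subgroupMap H).symm.trans e
  rcases isEmpty_or_nonempty ι with hι' | hι'
  · exfalso
    obtain ⟨a, ha⟩ := exists_ne (1 : A)
    apply ha
    have h1 : (e'.symm (Monoid.Coprod.inl a)).1 = 1 := trivial_of_isEmpty P _ _
    have h2 : e'.symm (Monoid.Coprod.inl a) = 1 := Subtype.ext h1
    have h3 : (Monoid.Coprod.inl a : Monoid.Coprod A B) = 1 := by
      rw [← map_one e'.symm] at h2
      exact e'.symm.injective h2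
    have h4 := congrArg Monoid.Coprod.fst h3
    simpa using h4
  · obtain ⟨s⟩ := hι'
    obtain ⟨h1, h2, c, hc⟩ := structure_n P hm hirr hinj _ _ hH' A B e' s
    refine ⟨⟨φ.symm (P s), SC c, (MulEquiv.irreducible_iff φ.symm).2 (hirr s), ?_⟩,
      factors_free _ h2 hH' h1 e'⟩
    intro x
    rw [← key x, mem_SC]
    have h3 : MvPolynomial.eval x (φ.symm (P s)) = ev (P s) (L x) := by
      rw [← hφ, AlgEquiv.apply_symm_apply]
    rw [h3]
    constructor
    · rintro ⟨i, hi⟩
      exact ⟨i, by rw [← hc]; exact hi⟩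
    · rintro ⟨i, hi⟩
      exact ⟨i, by rw [hc]; exact hi⟩

/-- Finite coverings of the complement of a hypersurface. -/
theorem final_cover (f : MvPolynomial (Fin (n + 1)) ℂ) {Y : Type} [TopologicalSpace Y]
    [PathConnectedSpace Y] (p : Y → {z : Fin (n + 1) → ℂ // MvPolynomial.eval z f ≠ 0})
    (hp : IsCoveringMap p) (y : Y) (hfin : (p ⁻¹' {p y}).Finite) (A B : Type) [Group A] [Group B]
    [Nontrivial A] [Nontrivial B] (e : FundamentalGroup Y y ≃* Monoid.Coprod A B) :
    (∃ (h : MvPolynomial (Fin (n + 1)) ℂ) (S : Finset ℂ), Irreducible h ∧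
      ∀ x, MvPolynomial.eval x f = 0 ↔ MvPolynomial.eval x h ∈ S) ∧
    (∃ a : ℕ, Nonempty (A ≃* FreeGroup (Fin a))) ∧
      ∃ b : ℕ, Nonempty (B ≃* FreeGroup (Fin b)) := by
  obtain ⟨H, hH, ⟨g⟩⟩ := cover_subgroup p hp y hfin
  exact final_sub f (p y) H hH A B (g.symm.trans e)

end H13W
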