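import Pool.Agent.Lib.H13W.D

set_option autoImplicit false

open scoped unitInterval Polynomial

namespace H13W

open H13K H13M

variable {n : ℕ}

theorem coeff_swap (p : ℂ[X][X]) (i j : ℕ) :
    ((Polynomial.Bivariate.swap p).coeff j).coeff i = (p.coeff i).coeff j := by
  induction p using Polynomial.induction_on' with
  | add p q hp hq => simp only [map_add, Polynomial.coeff_add, hp, hq]
  | monomial m f =>
    induction f using Polynomial.induction_on' with
    | add p q hp hq =>
      simp only [map_add, Polynomial.coeff_add, hp, hq]
    | monomial k a =>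
      rw [Polynomial.Bivariate.swap_monomial_monomial]
      simp only [Polynomial.coeff_monomial]
      split_ifs with h1 h2 h3 <;> simp_all [Polynomial.coeff_monomial]

theorem natDegree_line_le (z v : Fin n → ℂ) (q : MvPolynomial (Fin n) ℂ) :
    (line z v q).natDegree ≤ q.totalDegree := by
  rw [line, MvPolynomial.coe_eval₂Hom, MvPolynomial.eval₂_eq]
  refine (Polynomial.natDegree_sum_le_of_forall_le _ _ ?_)
  intro d hd
  refine (Polynomial.natDegree_C_mul_le _ _).trans ?_
  refine (Polynomial.natDegree_prod_le _ _).trans ?_
  refine (Finset.sum_le_sum (g := fun i => d i) ?_).trans ?_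
  · intro i _
    refine Polynomial.natDegree_pow_le.trans ?_
    have h1 : (Polynomial.C (z i) + Polynomial.X * Polynomial.C (v i)).natDegree ≤ 1 := by
      refine (Polynomial.natDegree_add_le _ _).trans ?_
      refine max_le (by simp) ?_
      refine (Polynomial.natDegree_mul_C_le _ _).trans ?_
      exact Polynomial.natDegree_X_le
    calc d i * (Polynomial.C (z i) + Polynomial.X * Polynomial.C (v i)).natDegree ≤ d i * 1 :=
          Nat.mul_le_mul_left _ h1
      _ = d i := mul_one _
  · exact MvPolynomial.le_totalDegree hd

/-- The degree in `t` of the coefficients of a factor of the restriction is bounded. -/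
theorem deg_bound (p : (MvPolynomial (Fin n) ℂ)[X]) : ∃ D : ℕ, ∀ (z v : Fin n → ℂ)
    (g h : ℂ[X][X]), res p z v = g * h → res p z v ≠ 0 → ∀ i, (g.coeff i).natDegree ≤ D := by
  refine ⟨p.support.sup (fun i => (p.coeff i).totalDegree), ?_⟩
  intro z v g h hgh hne i
  set D := p.support.sup (fun i => (p.coeff i).totalDegree) with hD
  have hres : ∀ i, ((res p z v).coeff i).natDegree ≤ D := by
    intro i
    rw [res, Polynomial.coeff_map]
    by_cases hi : i ∈ p.support
    · exact (natDegree_line_le z v _).trans
        (Finset.le_sup (f := fun i => (p.coeff i).totalDegree) hi)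
    · rw [Polynomial.notMem_support_iff.1 hi, map_zero]
      simp
  have h1 : (Polynomial.Bivariate.swap (res p z v)).natDegree ≤ D := by
    rw [Polynomial.natDegree_le_iff_coeff_eq_zero]
    intro N hN
    ext i
    rw [coeff_swap, Polynomial.coeff_zero]
    exact Polynomial.coeff_eq_zero_of_natDegree_lt ((hres i).trans_lt hN)
  have hg : Polynomial.Bivariate.swap g ≠ 0 := by
    intro hg
    apply hne
    have h2 : g = 0 := by
      rw [← Polynomial.Bivariate.swap_swap_apply g, hg, map_zero]
    rw [hgh, h2, zero_mul]
  have hh : Polynomial.Bivariate.swap h ≠ 0 := by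
    intro hg
    apply hne
    have h2 : h = 0 := by
      rw [← Polynomial.Bivariate.swap_swap_apply h, hg, map_zero]
    rw [hgh, h2, mul_zero]
  have h3 : (Polynomial.Bivariate.swap g).natDegree ≤ D := by
    refine le_trans ?_ h1
    rw [hgh, map_mul, Polynomial.natDegree_mul hg hh]
    exact Nat.le_add_right _ _
  rw [Polynomial.natDegree_le_iff_coeff_eq_zero]
  intro N hN
  rw [← coeff_swap, Polynomial.coeff_eq_zero_of_natDegree_lt (h3.trans_lt hN),
    Polynomial.coeff_zero]

end H13W
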