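import Mathlib

set_option autoImplicit false

open scoped Topology Polynomial

namespace H13W

namespace BertI

/-- A separately polynomial function (degree at most `D` in each variable) on a product of copies of a
set with more than `D` points is a polynomial. -/
theorem sep_poly {n : ℕ} (S : Set ℂ) (D : ℕ) (a : Fin (D + 1) → ℂ) (ha : Function.Injective a)
    (haS : ∀ k, a k ∈ S) (f : (Fin n → ℂ) → ℂ)
    (hf : ∀ y : Fin n → ℂ, (∀ i, y i ∈ S) → ∀ i : Fin n, ∃ q : ℂ[X], q.natDegree ≤ D ∧
      ∀ t ∈ S, f (Function.update y i t) = q.eval t) (s : Finset (Fin n)) :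
    ∀ y0 : Fin n → ℂ, (∀ i, y0 i ∈ S) → ∃ Q : MvPolynomial (Fin n) ℂ,
      ∀ y : Fin n → ℂ, (∀ i, y i ∈ S) → (∀ i, i ∉ s → y i = y0 i) → f y = MvPolynomial.eval y Q := by
  classical
  induction s using Finset.induction_on with
  | empty =>
    intro y0 hy0
    refine ⟨MvPolynomial.C (f y0), ?_⟩
    intro y hy h
    have : y = y0 := by
      funext i
      exact h i (Finset.notMem_empty i)
    rw [this, MvPolynomial.eval_C]
  | insert i s hi ih =>
    intro y0 hy0
    have hk : ∀ k : Fin (D + 1), ∃ Q : MvPolynomial (Fin n) ℂ, ∀ y : Fin n → ℂ, (∀ j, y j ∈ S) →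
        (∀ j, j ∉ s → y j = Function.update y0 i (a k) j) → f y = MvPolynomial.eval y Q := by
      intro k
      apply ih
      intro j
      by_cases hj : j = i
      · subst hj
        simpa using haS k
      · rw [Function.update_of_ne hj]
        exact hy0 j
    choose Q hQ using hk
    let L : Fin (D + 1) → ℂ[X] := fun k => Lagrange.basis Finset.univ a k
    refine ⟨∑ k, Polynomial.aeval (MvPolynomial.X i) (L k) *
      MvPolynomial.bind₁ (Function.update (MvPolynomial.X) i (MvPolynomial.C (a k))) (Q k), ?_⟩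
    intro y hy h
    obtain ⟨q, hq, hqe⟩ := hf y hy i
    have h1 : f y = q.eval (y i) := by
      have := hqe (y i) (hy i)
      rwa [Function.update_eq_self] at this
    have h2 : q.eval (y i) = ∑ k, q.eval (a k) * (L k).eval (y i) := by
      have hd : q.degree < (Finset.univ : Finset (Fin (D + 1))).card := by
        rw [Finset.card_univ, Fintype.card_fin]
        exact lt_of_le_of_lt Polynomial.degree_le_natDegree (by exact_mod_cast Nat.lt_succ_of_le hq)
      have h5 := Lagrange.eq_interpolate (s := Finset.univ) (v := a) (ha.injOn) hd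
      rw [Lagrange.interpolate_apply] at h5
      have h6 := congrArg (Polynomial.eval (y i)) h5
      rw [h6, Polynomial.eval_finsetSum]
      apply Finset.sum_congr rfl
      intro k _
      rw [Polynomial.eval_mul, Polynomial.eval_C]
    rw [h1, h2, map_sum]
    apply Finset.sum_congr rfl
    intro k _
    rw [map_mul, mul_comm]
    have h3 : MvPolynomial.eval y (Polynomial.aeval (MvPolynomial.X i) (L k)) = (L k).eval (y i) := by
      rw [Polynomial.aeval_def, Polynomial.hom_eval₂, MvPolynomial.eval_X]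
      have : (MvPolynomial.eval y).comp (algebraMap ℂ (MvPolynomial (Fin n) ℂ)) = RingHom.id ℂ := by
        ext c
        simp [MvPolynomial.algebraMap_eq]
      rw [this, Polynomial.eval₂_id]
    rw [h3]
    congr 1
    have h4 : MvPolynomial.eval y (MvPolynomial.bind₁
        (Function.update (MvPolynomial.X) i (MvPolynomial.C (a k))) (Q k)) =
        MvPolynomial.eval (Function.update y i (a k)) (Q k) := by
      rw [MvPolynomial.eval, MvPolynomial.eval₂Hom_bind₁]
      apply congrArg (fun g => MvPolynomial.eval₂Hom (RingHom.id ℂ) g (Q k))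
      funext j
      by_cases hj : j = i
      · subst hj
        simp
      · rw [Function.update_of_ne hj, Function.update_of_ne hj]
        simp
    rw [h4, ← hQ k (Function.update y i (a k)) ?_ ?_, hqe (a k) (haS k)]
    · intro j
      by_cases hj : j = i
      · subst hj
        simpa using haS k
      · rw [Function.update_of_ne hj]
        exact hy j
    · intro j hj
      by_cases hji : j = i
      · subst hji
        simp
      · rw [Function.update_of_ne hji, Function.update_of_ne hji]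
        apply h
        simp [hji, hj]

/-- A function on a disc which is locally a polynomial of degree at most `D` is a polynomial of degree
at most `D`. -/
theorem loc_glob (D : ℕ) (r : ℝ) (hr : 0 < r) (g : ℂ → ℂ)
    (h : ∀ t0 ∈ Metric.ball (0 : ℂ) r, ∃ q : ℂ[X], q.natDegree ≤ D ∧
      ∀ᶠ t in 𝓝 (0 : ℂ), g (t0 + t) = q.eval t) :
    ∃ q : ℂ[X], q.natDegree ≤ D ∧ ∀ t ∈ Metric.ball (0 : ℂ) r, g t = q.eval t := by
  have hloc : ∀ t0 ∈ Metric.ball (0 : ℂ) r, ∃ q : ℂ[X], q.natDegree ≤ D ∧
      ∀ᶠ t in 𝓝 t0, g t = q.eval (t - t0) := by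
    intro t0 ht0
    obtain ⟨q, hq, he⟩ := h t0 ht0
    refine ⟨q, hq, ?_⟩
    have hc : Filter.Tendsto (fun t : ℂ => t - t0) (𝓝 t0) (𝓝 0) := by
      have : Continuous (fun t : ℂ => t - t0) := by fun_prop
      simpa using this.tendsto t0
    filter_upwards [hc.eventually he] with t ht
    simpa using ht
  have hg : AnalyticOnNhd ℂ g (Metric.ball (0 : ℂ) r) := by
    intro t0 ht0
    obtain ⟨q, _, he⟩ := hloc t0 ht0
    have h1 : AnalyticAt ℂ (fun t : ℂ => q.eval (t - t0)) t0 := by
      have h2 : AnalyticAt ℂ (fun t : ℂ => q.eval t) (t0 - t0) := by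
        exact AnalyticOnNhd.eval_polynomial q (t0 - t0) (Set.mem_univ _)
      exact h2.fun_comp (f := fun t : ℂ => t - t0) (by fun_prop)
    exact h1.congr (Filter.EventuallyEq.symm he)
  obtain ⟨q, hq, he⟩ := hloc 0 (Metric.mem_ball_self hr)
  refine ⟨q, hq, ?_⟩
  have h2 : AnalyticOnNhd ℂ (fun t : ℂ => q.eval t) (Metric.ball (0 : ℂ) r) :=
    (AnalyticOnNhd.eval_polynomial q).mono (Set.subset_univ _)
  have := hg.eqOn_of_preconnected_of_eventuallyEq h2 (convex_ball _ _).isPreconnected
    (Metric.mem_ball_self hr) (by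
      filter_upwards [he] with t ht
      simpa using ht)
  exact this

/-- An open nonempty set contains a basis. -/
theorem exists_basis {n : ℕ} (O : Set (Fin n → ℂ)) (hO : IsOpen O) (hne : O.Nonempty) :
    ∃ M : Matrix (Fin n) (Fin n) ℂ, M.det ≠ 0 ∧ ∀ i, M i ∈ O := by
  obtain ⟨v, hv⟩ := hne
  let N : Matrix (Fin n) (Fin n) ℂ := fun _ j => v j
  have hfin : {s : ℂ | (Matrix.det (N + s • (1 : Matrix (Fin n) (Fin n) ℂ))) = 0}.Finite := by
    have h1 : (Matrix.charpoly (-N)) ≠ 0 := (Matrix.charpoly_monic _).ne_zero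
    apply ((Matrix.charpoly (-N)).roots.toFinset.finite_toSet).subset
    intro s hs
    simp only [Set.mem_ofPred_eq] at hs
    rw [Finset.mem_coe, Multiset.mem_toFinset, Polynomial.mem_roots h1, Polynomial.IsRoot.def,
      Matrix.eval_charpoly]
    rw [← hs]
    congr 1
    ext i j
    simp [Matrix.scalar, Matrix.one_apply, Matrix.diagonal_apply, add_comm]
  have hc : ∀ i : Fin n, ∀ᶠ s in 𝓝 (0 : ℂ), (N + s • (1 : Matrix (Fin n) (Fin n) ℂ)) i ∈ O := by
    intro i
    have h1 : Continuous (fun s : ℂ => (N + s • (1 : Matrix (Fin n) (Fin n) ℂ)) i) := by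
      apply continuous_pi
      intro j
      simp only [Matrix.add_apply, Matrix.smul_apply]
      fun_prop
    have h2 : (N + (0 : ℂ) • (1 : Matrix (Fin n) (Fin n) ℂ)) i ∈ O := by
      have : (N + (0 : ℂ) • (1 : Matrix (Fin n) (Fin n) ℂ)) i = v := by
        funext j
        rw [zero_smul, add_zero]
      rw [this]
      exact hv
    exact h1.continuousAt.preimage_mem_nhds (hO.mem_nhds h2)
  have hall : ∀ᶠ s in 𝓝 (0 : ℂ), ∀ i : Fin n, (N + s • (1 : Matrix (Fin n) (Fin n) ℂ)) i ∈ O :=
    Filter.eventually_all.2 hc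
  have hinf : ∃ s : ℂ, Matrix.det (N + s • (1 : Matrix (Fin n) (Fin n) ℂ)) ≠ 0 ∧
      ∀ i : Fin n, (N + s • (1 : Matrix (Fin n) (Fin n) ℂ)) i ∈ O := by
    have h3 : {s : ℂ | ∀ i : Fin n, (N + s • (1 : Matrix (Fin n) (Fin n) ℂ)) i ∈ O}.Infinite :=
      infinite_of_mem_nhds 0 hall
    obtain ⟨s, hs1, hs2⟩ := (h3.sdiff hfin).nonempty
    exact ⟨s, hs2, hs1⟩
  obtain ⟨s, h1, h2⟩ := hinf
  exact ⟨_, h1, h2⟩

end BertI

open BertI

/-- Interpolation: a function which is locally a polynomial of degree at most `D` along all lines with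
base point in an open set and direction in an open set agrees with a polynomial on a nonempty open
set, which does not depend on the function. -/
theorem poly_of_lines {n : ℕ} (O₁ O₂ : Set (Fin n → ℂ)) (h₁ : IsOpen O₁)
    (h₂ : IsOpen O₂) (hn₁ : O₁.Nonempty) (hn₂ : O₂.Nonempty) :
    ∃ U : Set (Fin n → ℂ), IsOpen U ∧ U.Nonempty ∧ U ⊆ O₁ ∧
      ∀ (E : (Fin n → ℂ) → ℂ) (D : ℕ), ContinuousOn E O₁ →
        (∀ z ∈ O₁, ∀ v ∈ O₂, ∃ q : ℂ[X], q.natDegree ≤ D ∧
          ∀ᶠ t in nhds (0 : ℂ), E (fun i => z i + t * v i) = q.eval t) →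
        ∃ Q : MvPolynomial (Fin n) ℂ, ∀ z ∈ U, E z = MvPolynomial.eval z Q := by
  classical
  obtain ⟨z0, hz0⟩ := hn₁
  obtain ⟨M, hdet, hM⟩ := exists_basis O₂ h₂ hn₂
  let Φ : (Fin n → ℂ) → (Fin n → ℂ) := fun y j => z0 j + ∑ i, y i * M i j
  have hΦ : Continuous Φ := by
    apply continuous_pi
    intro j
    fun_prop
  have hΦ0 : Φ 0 = z0 := by
    funext j
    simp [Φ]
  have hnh : Φ ⁻¹' O₁ ∈ 𝓝 (0 : Fin n → ℂ) :=
    hΦ.continuousAt.preimage_mem_nhds (h₁.mem_nhds (by rw [hΦ0]; exact hz0))
  obtain ⟨r, hr, hball⟩ := Metric.mem_nhds_iff.1 hnh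
  let S : Set ℂ := Metric.ball (0 : ℂ) r
  have hS : ∀ y : Fin n → ℂ, (∀ i, y i ∈ S) → Φ y ∈ O₁ := by
    intro y hy
    apply hball
    rw [Metric.mem_ball, dist_pi_lt_iff hr]
    intro i
    have := hy i
    rwa [Metric.mem_ball] at this
  have hupd : ∀ (y : Fin n → ℂ) (i : Fin n) (t0 t : ℂ), Φ (Function.update y i (t0 + t)) =
      fun j => Φ (Function.update y i t0) j + t * M i j := by
    intro y i t0 t
    funext j
    simp only [Φ]
    rw [add_assoc]
    congr 1
    rw [← Finset.add_sum_erase _ _ (Finset.mem_univ i), ← Finset.add_sum_erase Finset.univ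
      (fun k => Function.update y i t0 k * M k j) (Finset.mem_univ i)]
    have h5 : ∀ t1 : ℂ, ∑ k ∈ Finset.univ.erase i, Function.update y i t1 k * M k j =
        ∑ k ∈ Finset.univ.erase i, y k * M k j := by
      intro t1
      apply Finset.sum_congr rfl
      intro k hk
      rw [Function.update_of_ne (Finset.ne_of_mem_erase hk)]
    rw [h5, h5, Function.update_self, Function.update_self]
    ring
  let Ψ : (Fin n → ℂ) → (Fin n → ℂ) := fun z i => ∑ j, (z j - z0 j) * M⁻¹ j i
  have hΨ : Continuous Ψ := by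
    apply continuous_pi
    intro j
    fun_prop
  have hΨ0 : Ψ z0 = 0 := by
    funext j
    simp [Ψ]
  have hinv : M⁻¹ * M = 1 := Matrix.nonsing_inv_mul M (isUnit_iff_ne_zero.2 hdet)
  have hΦΨ : ∀ z, Φ (Ψ z) = z := by
    intro z
    funext j
    have h6 : ∑ i, Ψ z i * M i j = z j - z0 j := by
      have h7 : ∑ i, Ψ z i * M i j = ∑ k, (z k - z0 k) * (M⁻¹ * M) k j := by
        simp only [Ψ, Matrix.mul_apply, Finset.sum_mul, Finset.mul_sum]
        rw [Finset.sum_comm]
        apply Finset.sum_congr rfl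
        intro k _
        apply Finset.sum_congr rfl
        intro i _
        ring
      rw [h7, hinv]
      simp [Matrix.one_apply]
    show z0 j + ∑ i, Ψ z i * M i j = z j
    rw [h6]
    ring
  refine ⟨Ψ ⁻¹' (Metric.ball 0 r), Metric.isOpen_ball.preimage hΨ, ⟨z0, ?_⟩, ?_, ?_⟩
  · rw [Set.mem_preimage, hΨ0]
    exact Metric.mem_ball_self hr
  · intro z hz
    rw [← hΦΨ z]
    exact hball hz
  · intro E D _ h
    have hf : ∀ y : Fin n → ℂ, (∀ i, y i ∈ S) → ∀ i : Fin n, ∃ q : ℂ[X], q.natDegree ≤ D ∧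
        ∀ t ∈ S, (fun y => E (Φ y)) (Function.update y i t) = q.eval t := by
      intro y hy i
      apply loc_glob D r hr
      intro t0 ht0
      have hy' : ∀ k, Function.update y i t0 k ∈ S := by
        intro k
        by_cases hk : k = i
        · subst hk
          rw [Function.update_self]
          exact ht0
        · rw [Function.update_of_ne hk]
          exact hy k
      obtain ⟨q, hq, he⟩ := h _ (hS _ hy') _ (hM i)
      refine ⟨q, hq, ?_⟩
      filter_upwards [he] with t ht
      rw [← ht]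
      show E (Φ _) = _
      rw [hupd]
    obtain ⟨a, ha, haS⟩ : ∃ a : Fin (D + 1) → ℂ, Function.Injective a ∧ ∀ k, a k ∈ S := by
      have hinf : S.Infinite := infinite_of_mem_nhds (0 : ℂ) (Metric.ball_mem_nhds 0 hr)
      have hemb := hinf.natEmbedding
      refine ⟨fun k => (hemb k : ℂ), ?_, fun k => (hemb k).2⟩
      intro k l hkl
      exact Fin.ext (hemb.injective (Subtype.ext hkl))
    obtain ⟨Q0, hQ0⟩ := sep_poly S D a ha haS (fun y => E (Φ y)) hf Finset.univ 0
      (fun i => Metric.mem_ball_self hr)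
    refine ⟨MvPolynomial.bind₁ (fun i => ∑ j, (MvPolynomial.X j - MvPolynomial.C (z0 j)) *
      MvPolynomial.C ((M⁻¹ : Matrix (Fin n) (Fin n) ℂ) j i)) Q0, ?_⟩
    intro z hz
    have hz' : ∀ i, Ψ z i ∈ S := by
      intro i
      rw [Set.mem_preimage, Metric.mem_ball, dist_pi_lt_iff hr] at hz
      have := hz i
      exact Metric.mem_ball.2 this
    have h8 := hQ0 (Ψ z) hz' (fun i hi => absurd (Finset.mem_univ i) hi)
    simp only [hΦΨ] at h8
    rw [h8, MvPolynomial.eval, MvPolynomial.eval, MvPolynomial.eval₂Hom_bind₁]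
    apply congrArg (fun g => MvPolynomial.eval₂Hom (RingHom.id ℂ) g Q0)
    funext i
    simp [Ψ]

end H13W
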