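import Mathlib

set_option autoImplicit false

open scoped Polynomial

namespace H13W

private theorem c1a_swap_coeff (f : ℂ[X][X]) (i j : ℕ) :
    ((Polynomial.Bivariate.swap f).coeff i).coeff j = (f.coeff j).coeff i := by
  induction f using Polynomial.induction_on' with
  | add p q hp hq =>
    rw [map_add, Polynomial.coeff_add, Polynomial.coeff_add, Polynomial.coeff_add,
      Polynomial.coeff_add, hp, hq]
  | monomial n a =>
    induction a using Polynomial.induction_on' with
    | add p q hp hq =>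
      rw [map_add (Polynomial.monomial n), map_add, Polynomial.coeff_add, Polynomial.coeff_add,
        Polynomial.coeff_add, Polynomial.coeff_add, hp, hq]
    | monomial m r =>
      rw [Polynomial.Bivariate.swap_monomial_monomial]
      by_cases h1 : m = i
      · by_cases h2 : n = j
        · subst h1 h2
          rw [Polynomial.coeff_monomial_same, Polynomial.coeff_monomial_same,
            Polynomial.coeff_monomial_same, Polynomial.coeff_monomial_same]
        · subst h1
          rw [Polynomial.coeff_monomial_same, Polynomial.coeff_monomial_of_ne _ (Ne.symm h2),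
            Polynomial.coeff_monomial_of_ne _ (Ne.symm h2), Polynomial.coeff_zero]
      · rw [Polynomial.coeff_monomial_of_ne _ (Ne.symm h1), Polynomial.coeff_zero]
        by_cases h2 : n = j
        · subst h2
          rw [Polynomial.coeff_monomial_same, Polynomial.coeff_monomial_of_ne _ (Ne.symm h1)]
        · rw [Polynomial.coeff_monomial_of_ne _ (Ne.symm h2), Polynomial.coeff_zero]

private theorem c1a_deg (g h q : ℂ[X][X]) (D : ℕ) (hg : g ≠ 0) (hh : h ≠ 0) (he : g * h = q)
    (hq : ∀ j i, D < i → (q.coeff j).coeff i = 0) (j i : ℕ) (hi : D < i) :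
    (g.coeff j).coeff i = 0 := by
  have h1 : (Polynomial.Bivariate.swap q).natDegree ≤ D := by
    rw [Polynomial.natDegree_le_iff_coeff_eq_zero]
    intro N hN
    ext m
    rw [c1a_swap_coeff, hq m N hN, Polynomial.coeff_zero]
  have h2 : Polynomial.Bivariate.swap g * Polynomial.Bivariate.swap h = Polynomial.Bivariate.swap q := by
    rw [← map_mul, he]
  have h3 : Polynomial.Bivariate.swap g ≠ 0 := by
    intro h0
    exact hg ((map_eq_zero_iff _ (AlgEquiv.injective Polynomial.Bivariate.swap)).1 h0)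
  have h4 : Polynomial.Bivariate.swap h ≠ 0 := by
    intro h0
    exact hh ((map_eq_zero_iff _ (AlgEquiv.injective Polynomial.Bivariate.swap)).1 h0)
  have h5 : (Polynomial.Bivariate.swap g).natDegree ≤ D := by
    have h6 := Polynomial.natDegree_mul h3 h4
    rw [h2] at h6
    omega
  have h7 : (Polynomial.Bivariate.swap g).coeff i = 0 :=
    Polynomial.coeff_eq_zero_of_natDegree_lt (lt_of_le_of_lt h5 hi)
  rw [← c1a_swap_coeff, h7, Polynomial.coeff_zero]

private theorem c1a_iter (f : ℂ[X]) (n : ℕ) :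
    iteratedDeriv n (fun z => f.eval z) = fun z => (Polynomial.derivative^[n] f).eval z := by
  induction n with
  | zero => simp
  | succ n ih =>
    rw [iteratedDeriv_succ, ih, Function.iterate_succ_apply']
    funext z
    exact Polynomial.deriv _

private theorem c1a_cauchy (f : ℂ[X]) (M : ℝ) (hM : ∀ z : ℂ, ‖z‖ ≤ 1 → ‖f.eval z‖ ≤ M) (n : ℕ) :
    ‖f.coeff n‖ ≤ M := by
  have h1 := Complex.norm_iteratedDeriv_le_of_forall_mem_sphere_norm_le (c := 0) (R := 1) (C := M)
    (f := fun z => f.eval z) n one_pos (f.differentiable.diffContOnCl)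
    (fun z hz => hM z (by rw [mem_sphere_zero_iff_norm] at hz; exact hz.le))
  rw [c1a_iter] at h1
  have h2 : (Polynomial.derivative^[n] f).eval 0 = (n.factorial : ℂ) * f.coeff n := by
    rw [← Polynomial.coeff_zero_eq_eval_zero, Polynomial.coeff_iterate_derivative, zero_add,
      Nat.descFactorial_self, nsmul_eq_mul]
  have h3 : ‖(Polynomial.derivative^[n] f).eval 0‖ ≤ n.factorial * M / 1 ^ n := h1
  rw [h2, norm_mul, Complex.norm_natCast, one_pow, div_one] at h3
  exact le_of_mul_le_mul_left h3 (by exact_mod_cast n.factorial_pos)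

private theorem c1a_bound (q : ℂ[X][X]) (d D : ℕ) (K : ℝ) (hK : 0 ≤ K) (hq : q.Monic)
    (hd : q.natDegree = d) (hD : ∀ j i, D < i → (q.coeff j).coeff i = 0)
    (hc : ∀ j ≤ d, ∀ i ≤ D, ‖(q.coeff j).coeff i‖ ≤ K) (g h : ℂ[X][X]) (hg : g.Monic) (hh : h.Monic)
    (he : g * h = q) (j i : ℕ) :
    ‖(g.coeff j).coeff i‖ ≤ max ((D + 1) * K + 1) 1 ^ d * d.choose (d / 2) := by
  apply c1a_cauchy
  intro z hz
  have hB : ∀ k ≤ d, ‖(q.coeff k).eval z‖ ≤ (D + 1) * K := by
    intro k hk
    have h1 : (q.coeff k).natDegree ≤ D := by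
      rw [Polynomial.natDegree_le_iff_coeff_eq_zero]
      intro N hN
      exact hD k N hN
    rw [Polynomial.eval_eq_sum_range' (n := D + 1) (by omega)]
    refine (norm_sum_le _ _).trans ?_
    have h2 : ∀ l ∈ Finset.range (D + 1), ‖(q.coeff k).coeff l * z ^ l‖ ≤ K := by
      intro l hl
      rw [norm_mul, norm_pow]
      have h3 : ‖z‖ ^ l ≤ 1 := pow_le_one₀ (norm_nonneg _) hz
      have h4 := hc k hk l (by rw [Finset.mem_range] at hl; omega)
      calc ‖(q.coeff k).coeff l‖ * ‖z‖ ^ l ≤ K * 1 :=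
            mul_le_mul h4 h3 (by positivity) hK
        _ = K := mul_one K
    refine (Finset.sum_le_sum h2).trans ?_
    rw [Finset.sum_const, Finset.card_range, nsmul_eq_mul]
    push_cast
    exact le_refl _
  have hle : g.natDegree ≤ d := by
    rw [← hd, ← he, hg.natDegree_mul hh]
    omega
  have key := Polynomial.coeff_bdd_of_roots_le (B := (D + 1) * K + 1) (d := d)
    (Polynomial.evalRingHom z) hg (IsAlgClosed.splits _) hle ?_ j
  · rwa [Polynomial.coeff_map] at key
  · intro w hw
    have hw1 : ((g.map (Polynomial.evalRingHom z))).eval w = 0 :=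
      (Polynomial.mem_roots'.1 hw).2
    set r : ℂ[X] := q.map (Polynomial.evalRingHom z) with hr
    have hrm : r.Monic := hq.map _
    have hrr : r.IsRoot w := by
      rw [Polynomial.IsRoot.def, hr, ← he, Polynomial.map_mul, Polynomial.eval_mul, hw1, zero_mul]
    have h1 := hrr.norm_lt_cauchyBound hrm.ne_zero
    have hDK : 0 ≤ (D + 1 : ℝ) * K := by positivity
    have h2 : r.cauchyBound ≤ Real.toNNReal ((D + 1) * K + 1) := by
      unfold Polynomial.cauchyBound
      rw [hrm.leadingCoeff, nnnorm_one, div_one]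
      have h3 : (Finset.range r.natDegree).sup (‖r.coeff ·‖₊) ≤ Real.toNNReal ((D + 1) * K) := by
        apply Finset.sup_le
        intro k hk
        rw [← NNReal.coe_le_coe, coe_nnnorm, Real.coe_toNNReal _ hDK, hr,
          Polynomial.coeff_map, Polynomial.coe_evalRingHom]
        apply hB
        have h4 : r.natDegree = d := by
          rw [hr, hq.natDegree_map, hd]
        rw [Finset.mem_range] at hk
        omega
      have h5 : Real.toNNReal ((D + 1) * K + 1) = Real.toNNReal ((D + 1) * K) + 1 := by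
        rw [← Real.toNNReal_one, ← Real.toNNReal_add hDK (by norm_num)]
      rw [h5]
      exact add_le_add_left h3 1
    have h6 : ‖w‖₊ ≤ Real.toNNReal ((D + 1) * K + 1) := h1.le.trans h2
    rw [← NNReal.coe_le_coe, coe_nnnorm, Real.coe_toNNReal _ (by linarith)] at h6
    exact h6

private theorem c1a_lim (𝒰 : Ultrafilter ℕ) (u : ℕ → ℂ) (M : ℝ) (h : ∀ n, ‖u n‖ ≤ M) :
    ∃ a : ℂ, Filter.Tendsto u 𝒰 (nhds a) := by
  obtain ⟨a, -, ha⟩ := (isCompact_closedBall (0 : ℂ) M).ultrafilter_le_nhds (𝒰.map u) (by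
    rw [Filter.le_principal_iff]
    show ∀ᶠ n in (𝒰 : Filter ℕ), u n ∈ Metric.closedBall (0 : ℂ) M
    exact Filter.Eventually.of_forall (fun n => by simpa using h n))
  exact ⟨a, ha⟩

private noncomputable def c1a_pol (A : ℕ → ℕ → ℂ) (k D : ℕ) : ℂ[X][X] :=
  ∑ j ∈ Finset.range (k + 1), Polynomial.monomial j
    (∑ i ∈ Finset.range (D + 1), Polynomial.monomial i (A j i))

private theorem c1a_pol_coeff (A : ℕ → ℕ → ℂ) (k D : ℕ) (hk : ∀ j i, k < j → A j i = 0)
    (hD : ∀ j i, D < i → A j i = 0) (j i : ℕ) : ((c1a_pol A k D).coeff j).coeff i = A j i := by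
  unfold c1a_pol
  rw [Polynomial.finsetSum_coeff]
  simp only [Polynomial.coeff_monomial]
  rw [Finset.sum_ite_eq']
  by_cases h1 : j ∈ Finset.range (k + 1)
  · rw [if_pos h1, Polynomial.finsetSum_coeff]
    simp only [Polynomial.coeff_monomial]
    rw [Finset.sum_ite_eq']
    by_cases h2 : i ∈ Finset.range (D + 1)
    · rw [if_pos h2]
    · rw [if_neg h2, hD j i (by rw [Finset.mem_range] at h2; omega)]
  · rw [if_neg h1, Polynomial.coeff_zero, hk j i (by rw [Finset.mem_range] at h1; omega)]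

private theorem c1a_coeff_mul (f g : ℂ[X][X]) (m n : ℕ) :
    ((f * g).coeff m).coeff n = ∑ x ∈ Finset.HasAntidiagonal.antidiagonal m, ∑ y ∈ Finset.HasAntidiagonal.antidiagonal n,
      (f.coeff x.1).coeff y.1 * (g.coeff x.2).coeff y.2 := by
  rw [Polynomial.coeff_mul, Polynomial.finsetSum_coeff]
  exact Finset.sum_congr rfl fun x _ => Polynomial.coeff_mul _ _ _

private theorem c1a_all_bdd (u : ℕ → ℂ) (a : ℂ) (h : Filter.Tendsto u Filter.atTop (nhds a)) :
    ∃ M : ℝ, ∀ n, ‖u n‖ ≤ M := by
  obtain ⟨M, hM⟩ := (Metric.isBounded_range_of_tendsto u h).exists_norm_le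
  exact ⟨M, fun n => hM (u n) (Set.mem_range_self n)⟩

/-- Compactness of the factorizations of a convergent sequence of monic polynomials. -/
theorem factor_limit (q : ℕ → ℂ[X][X]) (q₀ : ℂ[X][X]) (d D : ℕ) (hq : ∀ N, (q N).Monic)
    (hd : ∀ N, (q N).natDegree = d) (hD : ∀ N j i, D < i → ((q N).coeff j).coeff i = 0)
    (hlim : ∀ j i, Filter.Tendsto (fun N => ((q N).coeff j).coeff i) Filter.atTop
      (nhds ((q₀.coeff j).coeff i)))
    (f g : ℕ → ℂ[X][X]) (hf : ∀ N, (f N).Monic) (hg : ∀ N, (g N).Monic)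
    (hfg : ∀ N, f N * g N = q N) :
    ∃ (U : Ultrafilter ℕ) (F H : ℂ[X][X]), (U : Filter ℕ) ≤ Filter.atTop ∧ F.Monic ∧ H.Monic ∧
      F * H = q₀ ∧ (∀ᶠ N in (U : Filter ℕ), (f N).natDegree = F.natDegree) ∧
      ∀ j i, Filter.Tendsto (fun N => ((f N).coeff j).coeff i) U (nhds ((F.coeff j).coeff i)) := by
  obtain ⟨K, hK, hKb⟩ : ∃ K : ℝ, 0 ≤ K ∧ ∀ N, ∀ j ≤ d, ∀ i ≤ D,
      ‖((q N).coeff j).coeff i‖ ≤ K := by
    choose M hM using fun j i => c1a_all_bdd _ _ (hlim j i)
    refine ⟨∑ j ∈ Finset.range (d + 1), ∑ i ∈ Finset.range (D + 1), |M j i|, ?_, ?_⟩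
    · exact Finset.sum_nonneg fun j _ => Finset.sum_nonneg fun i _ => abs_nonneg _
    · intro N j hj i hi
      refine (hM j i N).trans ((le_abs_self _).trans ?_)
      have h1 : |M j i| ≤ ∑ i ∈ Finset.range (D + 1), |M j i| :=
        Finset.single_le_sum (f := fun i => |M j i|) (fun _ _ => abs_nonneg _)
          (Finset.mem_range.2 (by omega))
      have h2 : (∑ i ∈ Finset.range (D + 1), |M j i|) ≤
          ∑ j ∈ Finset.range (d + 1), ∑ i ∈ Finset.range (D + 1), |M j i| :=
        Finset.single_le_sum (f := fun j => ∑ i ∈ Finset.range (D + 1), |M j i|)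
          (fun _ _ => Finset.sum_nonneg fun i _ => abs_nonneg _) (Finset.mem_range.2 (by omega))
      exact h1.trans h2
  set M : ℝ := max ((D + 1) * K + 1) 1 ^ d * d.choose (d / 2) with hMdef
  have hMf : ∀ n j i, ‖((f n).coeff j).coeff i‖ ≤ M := fun n j i =>
    c1a_bound (q n) d D K hK (hq n) (hd n) (hD n) (hKb n) (f n) (g n) (hf n) (hg n) (hfg n) j i
  have hMg : ∀ n j i, ‖((g n).coeff j).coeff i‖ ≤ M := fun n j i =>
    c1a_bound (q n) d D K hK (hq n) (hd n) (hD n) (hKb n) (g n) (f n) (hg n) (hf n)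
      (by rw [mul_comm]; exact hfg n) j i
  have hDf : ∀ n j i, D < i → ((f n).coeff j).coeff i = 0 := fun n j i hi =>
    c1a_deg (f n) (g n) _ D (hf n).ne_zero (hg n).ne_zero (hfg n) (hD n) j i hi
  have hDg : ∀ n j i, D < i → ((g n).coeff j).coeff i = 0 := fun n j i hi =>
    c1a_deg (g n) (f n) _ D (hg n).ne_zero (hf n).ne_zero (by rw [mul_comm]; exact hfg n)
      (hD n) j i hi
  set 𝒰 : Ultrafilter ℕ := Filter.hyperfilter ℕ with h𝒰
  have h𝒰le : (𝒰 : Filter ℕ) ≤ Filter.atTop := by
    rw [← Nat.cofinite_eq_atTop]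
    exact Filter.hyperfilter_le_cofinite
  have hsum : ∀ n, (f n).natDegree + (g n).natDegree = d := by
    intro n
    rw [← (hf n).natDegree_mul (hg n), hfg n, hd]
  have hfin : ∃ k : ℕ, ∀ᶠ n in (𝒰 : Filter ℕ), (f n).natDegree = k := by
    have hlt : ∀ n, (f n).natDegree < d + 1 := by
      intro n
      have := hsum n
      omega
    obtain ⟨k, hk⟩ := (𝒰.map (fun n => (⟨(f n).natDegree, hlt n⟩ : Fin (d + 1)))).eq_pure_of_finite
    refine ⟨k, ?_⟩
    have h1 : {k} ∈ 𝒰.map (fun n => (⟨(f n).natDegree, hlt n⟩ : Fin (d + 1))) := by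
      rw [hk]
      exact Set.mem_singleton k
    have h2 : ∀ᶠ n in (𝒰 : Filter ℕ), (⟨(f n).natDegree, hlt n⟩ : Fin (d + 1)) ∈ ({k} : Set _) := h1
    filter_upwards [h2] with n hn
    rw [Set.mem_singleton_iff] at hn
    rw [← hn]
  obtain ⟨k, hk⟩ := hfin
  choose A hA using fun j i => c1a_lim 𝒰 (fun n => ((f n).coeff j).coeff i) M (fun n => hMf n j i)
  choose B hB using fun j i => c1a_lim 𝒰 (fun n => ((g n).coeff j).coeff i) M (fun n => hMg n j i)
  have hconst : ∀ (u : ℕ → ℂ) (a b : ℂ), Filter.Tendsto u 𝒰 (nhds a) →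
      (∀ᶠ n in (𝒰 : Filter ℕ), u n = b) → a = b := by
    intro u a b h1 h2
    exact tendsto_nhds_unique h1 ((Filter.tendsto_congr' h2).2 tendsto_const_nhds)
  have hAD : ∀ j i, D < i → A j i = 0 := fun j i hi =>
    hconst _ _ _ (hA j i) (Filter.Eventually.of_forall fun n => hDf n j i hi)
  have hBD : ∀ j i, D < i → B j i = 0 := fun j i hi =>
    hconst _ _ _ (hB j i) (Filter.Eventually.of_forall fun n => hDg n j i hi)
  have hAk : ∀ j i, k < j → A j i = 0 := by
    intro j i hj
    refine hconst _ _ _ (hA j i) ?_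
    filter_upwards [hk] with n hn
    have h1 : (f n).coeff j = 0 := Polynomial.coeff_eq_zero_of_natDegree_lt (by omega)
    rw [h1, Polynomial.coeff_zero]
  have hBk : ∀ j i, d - k < j → B j i = 0 := by
    intro j i hj
    refine hconst _ _ _ (hB j i) ?_
    filter_upwards [hk] with n hn
    have h0 := hsum n
    have h1 : (g n).coeff j = 0 := Polynomial.coeff_eq_zero_of_natDegree_lt (by omega)
    rw [h1, Polynomial.coeff_zero]
  have hA1 : ∀ i, A k i = (1 : ℂ[X]).coeff i := by
    intro i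
    refine hconst _ _ _ (hA k i) ?_
    filter_upwards [hk] with n hn
    rw [← hn, (hf n).coeff_natDegree]
  have hB1 : ∀ i, B (d - k) i = (1 : ℂ[X]).coeff i := by
    intro i
    refine hconst _ _ _ (hB _ i) ?_
    filter_upwards [hk] with n hn
    have h1 : d - k = (g n).natDegree := by
      have := hsum n
      omega
    rw [h1, (hg n).coeff_natDegree]
  set F : ℂ[X][X] := c1a_pol A k D with hF
  set H : ℂ[X][X] := c1a_pol B (d - k) D with hH
  have hFc : ∀ j i, (F.coeff j).coeff i = A j i := c1a_pol_coeff A k D hAk hAD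
  have hHc : ∀ j i, (H.coeff j).coeff i = B j i := c1a_pol_coeff B (d - k) D hBk hBD
  have hFk : F.coeff k = 1 := Polynomial.ext fun i => by rw [hFc, hA1]
  have hHk : H.coeff (d - k) = 1 := Polynomial.ext fun i => by rw [hHc, hB1]
  have hFd : F.natDegree ≤ k := by
    rw [Polynomial.natDegree_le_iff_coeff_eq_zero]
    intro N hN
    exact Polynomial.ext fun i => by rw [hFc, hAk N i hN, Polynomial.coeff_zero]
  have hHd : H.natDegree ≤ d - k := by
    rw [Polynomial.natDegree_le_iff_coeff_eq_zero]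
    intro N hN
    exact Polynomial.ext fun i => by rw [hHc, hBk N i hN, Polynomial.coeff_zero]
  have hFm : F.Monic := Polynomial.monic_of_natDegree_le_of_coeff_eq_one k hFd hFk
  have hHm : H.Monic := Polynomial.monic_of_natDegree_le_of_coeff_eq_one _ hHd hHk
  have hFn : F.natDegree = k := by
    refine le_antisymm hFd (Polynomial.le_natDegree_of_ne_zero ?_)
    rw [hFk]
    exact one_ne_zero
  have hprod : F * H = q₀ := by
    refine Polynomial.ext fun m => Polynomial.ext fun n => ?_
    rw [c1a_coeff_mul]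
    have h1 : Filter.Tendsto (fun N => (((f N) * (g N)).coeff m).coeff n) 𝒰
        (nhds (∑ x ∈ Finset.HasAntidiagonal.antidiagonal m, ∑ y ∈ Finset.HasAntidiagonal.antidiagonal n, A x.1 y.1 * B x.2 y.2)) := by
      have h2 : (fun N => (((f N) * (g N)).coeff m).coeff n) = fun N =>
          ∑ x ∈ Finset.HasAntidiagonal.antidiagonal m, ∑ y ∈ Finset.HasAntidiagonal.antidiagonal n,
            ((f N).coeff x.1).coeff y.1 * ((g N).coeff x.2).coeff y.2 := by
        funext N
        exact c1a_coeff_mul _ _ _ _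
      rw [h2]
      apply tendsto_finsetSum
      intro x _
      apply tendsto_finsetSum
      intro y _
      exact (hA x.1 y.1).mul (hB x.2 y.2)
    have h4 : Filter.Tendsto (fun N => (((f N) * (g N)).coeff m).coeff n) 𝒰
        (nhds ((q₀.coeff m).coeff n)) := by
      have h5 : (fun N => (((f N) * (g N)).coeff m).coeff n) = fun N => ((q N).coeff m).coeff n := by
        funext N
        rw [hfg N]
      rw [h5]
      exact (hlim m n).mono_left h𝒰le
    have h8 := tendsto_nhds_unique h1 h4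
    rw [← h8]
    refine Finset.sum_congr rfl fun x _ => Finset.sum_congr rfl fun y _ => ?_
    rw [hFc, hHc]
  refine ⟨𝒰, F, H, h𝒰le, hFm, hHm, hprod, ?_, ?_⟩
  · rw [hFn]
    exact hk
  · intro j i
    rw [hFc]
    exact hA j i

end H13W
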