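import Pool.Agent.Lib.H13W.D
import Pool.Agent.Lib.H13W.BertL
import Pool.Agent.Lib.H13W.BertI
import Pool.Agent.Lib.H13W.BertG
import Pool.Agent.Lib.H13M.C1
import Pool.Agent.Lib.H13M.C3
import Pool.Agent.Lib.H13K.P1
import Pool.Agent.Lib.H13J.D

set_option autoImplicit false

open scoped unitInterval Polynomial

namespace H13W

open H13K H13M

variable {n : ℕ} {ι : Type}

/-! ### Coefficients of the restriction -/

private theorem bs_line_C (z v : Fin n → ℂ) (a : ℂ) :
    line z v (MvPolynomial.C a) = Polynomial.C a := by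
  simp [line]

private theorem bs_line_X (z v : Fin n → ℂ) (k : Fin n) :
    line z v (MvPolynomial.X k) = Polynomial.C (z k) + Polynomial.X * Polynomial.C (v k) := by
  simp [line]

private theorem bs_cont_line (q : MvPolynomial (Fin n) ℂ) : ∀ i,
    Continuous fun x : (Fin n → ℂ) × (Fin n → ℂ) => (line x.1 x.2 q).coeff i := by
  induction q using MvPolynomial.induction_on with
  | C a =>
    intro i
    simp only [bs_line_C]
    exact continuous_const
  | add p q hp hq =>
    intro i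
    simp only [map_add, Polynomial.coeff_add]
    exact (hp i).add (hq i)
  | mul_X p k hp =>
    intro i
    have h1 : ∀ x : (Fin n → ℂ) × (Fin n → ℂ), (line x.1 x.2 (p * MvPolynomial.X k)).coeff i =
        (line x.1 x.2 p).coeff i * x.1 k + (line x.1 x.2 p * Polynomial.X).coeff i * x.2 k := by
      intro x
      rw [map_mul, bs_line_X, mul_add, Polynomial.coeff_add, Polynomial.coeff_mul_C, ← mul_assoc,
        Polynomial.coeff_mul_C]
    simp only [h1]
    have c1 : Continuous fun x : (Fin n → ℂ) × (Fin n → ℂ) => x.1 k :=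
      (continuous_apply k).comp continuous_fst
    have c2 : Continuous fun x : (Fin n → ℂ) × (Fin n → ℂ) => x.2 k :=
      (continuous_apply k).comp continuous_snd
    refine ((hp i).mul c1).add (Continuous.mul ?_ c2)
    rcases i with _ | i
    · simp only [Polynomial.mul_coeff_zero, Polynomial.coeff_X_zero, mul_zero]
      exact continuous_const
    · simp only [Polynomial.coeff_mul_X]
      exact hp i

private theorem bs_cont_res (p : (MvPolynomial (Fin n) ℂ)[X]) (j i : ℕ) :
    Continuous fun x : (Fin n → ℂ) × (Fin n → ℂ) => ((res p x.1 x.2).coeff j).coeff i := by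
  have h1 : ∀ x : (Fin n → ℂ) × (Fin n → ℂ), ((res p x.1 x.2).coeff j).coeff i =
      (line x.1 x.2 (p.coeff j)).coeff i := by
    intro x
    rw [res, Polynomial.coeff_map]
  simp only [h1]
  exact bs_cont_line _ i

private theorem bs_res_map (p : (MvPolynomial (Fin n) ℂ)[X]) (z v : Fin n → ℂ) (t : ℂ) :
    (res p z v).map (Polynomial.evalRingHom t) =
      p.map (MvPolynomial.eval (fun i => z i + t * v i)) := by
  rw [res, Polynomial.map_map]
  congr 1
  apply RingHom.ext
  intro q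
  exact eval_line z v t q

private theorem bs_res_map0 (p : (MvPolynomial (Fin n) ℂ)[X]) (z v : Fin n → ℂ) :
    (res p z v).map (Polynomial.evalRingHom 0) = p.map (MvPolynomial.eval z) := by
  rw [bs_res_map]
  congr 2
  funext i
  rw [zero_mul, add_zero]

private theorem bs_natDegree_res {p : (MvPolynomial (Fin n) ℂ)[X]} (hp : p.Monic)
    (z v : Fin n → ℂ) : (res p z v).natDegree = p.natDegree := hp.natDegree_map _

/-! ### Reducible monic polynomials -/

private theorem bs_pos {R : Type} [CommRing R] [IsDomain R] {p : R[X]} (hp : p.Monic)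
    (hpi : Irreducible p) : 0 < p.natDegree := by
  rw [Nat.pos_iff_ne_zero]
  intro h0
  exact hpi.not_isUnit ((hp.isUnit_iff).2 (hp.natDegree_eq_zero.1 h0))

private theorem bs_factor {q : ℂ[X][X]} (hq : q.Monic) (hd : 0 < q.natDegree)
    (h : ¬ Irreducible q) : ∃ f g : ℂ[X][X], f.Monic ∧ g.Monic ∧ f * g = q ∧
      0 < f.natDegree ∧ f.natDegree < q.natDegree := by
  rw [hq.irreducible_iff_natDegree'] at h
  push Not at h
  obtain ⟨g, f, hg, hf, hfg, hn⟩ := h (by
    intro h2
    rw [h2, Polynomial.natDegree_one] at hd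
    omega)
  rw [Finset.mem_Ioc] at hn
  exact ⟨f, g, hf, hg, by rw [mul_comm]; exact hfg, hn.1, by omega⟩

private theorem bs_unfactor {R : Type} [CommRing R] [IsDomain R] {q f g : R[X]} (hqi : Irreducible q)
    (hf : f.Monic) (hfg : f * g = q) (h1 : 0 < f.natDegree) (h2 : f.natDegree < q.natDegree) :
    False := by
  rcases hqi.isUnit_or_isUnit hfg.symm with h3 | h3
  · have := Polynomial.natDegree_eq_zero_of_isUnit h3
    omega
  · have h4 := Polynomial.natDegree_eq_zero_of_isUnit h3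
    rw [← hfg, Polynomial.natDegree_mul hf.ne_zero h3.ne_zero, h4, add_zero] at h2
    exact lt_irrefl _ h2

/-- A convergent sequence of points and factorizations. -/
private theorem bs_seq (p : (MvPolynomial (Fin n) ℂ)[X]) (hp : p.Monic)
    (x : ℕ → (Fin n → ℂ) × (Fin n → ℂ)) (x₀ : (Fin n → ℂ) × (Fin n → ℂ))
    (hx : Filter.Tendsto x Filter.atTop (nhds x₀)) (f g : ℕ → ℂ[X][X]) (hf : ∀ N, (f N).Monic)
    (hg : ∀ N, (g N).Monic) (hfg : ∀ N, f N * g N = res p (x N).1 (x N).2) :
    ∃ (U : Ultrafilter ℕ) (F H : ℂ[X][X]), (U : Filter ℕ) ≤ Filter.atTop ∧ F.Monic ∧ H.Monic ∧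
      F * H = res p x₀.1 x₀.2 ∧ (∀ᶠ N in (U : Filter ℕ), (f N).natDegree = F.natDegree) ∧
      ∀ j i, Filter.Tendsto (fun N => ((f N).coeff j).coeff i) U
        (nhds ((F.coeff j).coeff i)) := by
  obtain ⟨D, hD⟩ := deg_bound p
  refine factor_limit (fun N => res p (x N).1 (x N).2) (res p x₀.1 x₀.2) p.natDegree D
    (fun N => res_monic hp _ _) (fun N => bs_natDegree_res hp _ _) ?_ ?_ f g hf hg hfg
  · intro N j i hi
    refine Polynomial.coeff_eq_zero_of_natDegree_lt (lt_of_le_of_lt ?_ hi)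
    exact hD (x N).1 (x N).2 _ 1 (mul_one _).symm (res_monic hp _ _).ne_zero j
  · intro j i
    exact ((bs_cont_res p j i).tendsto x₀).comp hx

private theorem bs_open (p : (MvPolynomial (Fin n) ℂ)[X]) (hp : p.Monic)
    (x₀ : (Fin n → ℂ) × (Fin n → ℂ)) (h : Irreducible (res p x₀.1 x₀.2)) :
    ∀ᶠ x in nhds x₀, Irreducible (res p x.1 x.2) := by
  by_contra hcon
  rw [Filter.not_eventually] at hcon
  obtain ⟨x, hx, hx2⟩ := Filter.exists_seq_forall_of_frequently hcon
  have hd : 0 < p.natDegree := by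
    rw [← bs_natDegree_res hp x₀.1 x₀.2]
    exact bs_pos (res_monic hp _ _) h
  have hfac : ∀ N, ∃ f g : ℂ[X][X], f.Monic ∧ g.Monic ∧ f * g = res p (x N).1 (x N).2 ∧
      0 < f.natDegree ∧ f.natDegree < p.natDegree := by
    intro N
    have h1 := bs_factor (res_monic hp (x N).1 (x N).2)
      (by rw [bs_natDegree_res hp]; exact hd) (hx2 N)
    rwa [bs_natDegree_res hp] at h1
  choose f g hf hg hfg h1 h2 using hfac
  obtain ⟨U, F, H, -, hF, -, hFH, hdeg, -⟩ := bs_seq p hp x x₀ hx f g hf hg hfg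
  obtain ⟨N, hN⟩ := hdeg.exists
  refine bs_unfactor h hF hFH (hN ▸ h1 N) ?_
  rw [bs_natDegree_res hp, ← hN]
  exact h2 N

/-! ### Divisors of products of linear factors -/

private theorem bs_divisor {d : ℕ} (u : Fin d → ℂ) (hu : Function.Injective u) (g : ℂ[X])
    (hg : g.Monic) (hdvd : g ∣ ∏ a, (Polynomial.X - Polynomial.C (u a))) :
    g = ∏ a ∈ Finset.univ.filter (fun a => g.eval (u a) = 0),
      (Polynomial.X - Polynomial.C (u a)) := by
  classical
  have h1 : (∏ a, (Polynomial.X - Polynomial.C (u a))).roots =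
      (Finset.univ.val.map u : Multiset ℂ) := by
    have h2 : (∏ a, (Polynomial.X - Polynomial.C (u a))) =
        ((Finset.univ.val.map u).map fun c => Polynomial.X - Polynomial.C c).prod := by
      rw [Multiset.map_map]
      rfl
    rw [h2, Polynomial.roots_multiset_prod_X_sub_C]
  have hne : (∏ a, (Polynomial.X - Polynomial.C (u a))) ≠ 0 :=
    (Polynomial.monic_prod_of_monic _ _ fun a _ => Polynomial.monic_X_sub_C (u a)).ne_zero
  have h3 : g.roots ≤ (Finset.univ.val.map u : Multiset ℂ) := by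
    rw [← h1]
    exact Polynomial.roots.le_of_dvd hne hdvd
  have h4 : (Finset.univ.val.map u : Multiset ℂ).Nodup :=
    Multiset.Nodup.map hu Finset.univ.nodup
  have h5 : g.roots.Nodup := Multiset.nodup_of_le h3 h4
  have h6 : g.roots = (Finset.univ.filter (fun a => g.eval (u a) = 0)).val.map u := by
    rw [Multiset.Nodup.ext h5 (Multiset.Nodup.map hu (Finset.nodup _))]
    intro c
    rw [Polynomial.mem_roots hg.ne_zero, Polynomial.IsRoot.def, Multiset.mem_map]
    constructor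
    · intro hc
      have h7 : c ∈ g.roots := (Polynomial.mem_roots hg.ne_zero).2 hc
      obtain ⟨a, -, ha⟩ := Multiset.mem_map.1 (Multiset.mem_of_le h3 h7)
      exact ⟨a, by rw [Finset.mem_val, Finset.mem_filter]; exact ⟨Finset.mem_univ a, by rw [ha]; exact hc⟩, ha⟩
    · rintro ⟨a, ha, rfl⟩
      rw [Finset.mem_val, Finset.mem_filter] at ha
      exact ha.2
  have h7 : g = (g.roots.map fun c => Polynomial.X - Polynomial.C c).prod :=
    (Polynomial.prod_multiset_X_sub_C_of_monic_of_roots_card_eq hg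
      (Polynomial.splits_iff_card_roots.1 (IsAlgClosed.splits g))).symm
  conv_lhs => rw [h7, h6, Multiset.map_map]
  rfl

/-! ### Partial products of the local roots -/

private noncomputable def bsP {d : ℕ} (h : Fin d → (Fin n → ℂ) → ℂ) (S : Finset (Fin d))
    (z : Fin n → ℂ) : ℂ[X] := ∏ a ∈ S, (Polynomial.X - Polynomial.C (h a z))

private theorem bsP_monic {d : ℕ} (h : Fin d → (Fin n → ℂ) → ℂ) (S : Finset (Fin d))
    (z : Fin n → ℂ) : (bsP h S z).Monic :=
  Polynomial.monic_prod_of_monic _ _ fun _ _ => Polynomial.monic_X_sub_C _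

private theorem bsP_natDegree {d : ℕ} (h : Fin d → (Fin n → ℂ) → ℂ) (S : Finset (Fin d))
    (z : Fin n → ℂ) : (bsP h S z).natDegree = S.card := by
  unfold bsP
  rw [Polynomial.natDegree_prod_of_monic _ _ fun _ _ => Polynomial.monic_X_sub_C _]
  simp

private theorem bsP_cont {d : ℕ} (h : Fin d → (Fin n → ℂ) → ℂ) (B : Set (Fin n → ℂ))
    (hc : ∀ a, ContinuousOn (h a) B) (S : Finset (Fin d)) :
    ∀ j, ContinuousOn (fun z => (bsP h S z).coeff j) B := by
  classical
  induction S using Finset.induction_on with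
  | empty =>
    intro j
    simp only [bsP, Finset.prod_empty]
    exact continuousOn_const
  | insert a S ha ih =>
    intro j
    have h1 : ∀ z, (bsP h (insert a S) z).coeff j =
        (Polynomial.X * bsP h S z).coeff j - h a z * (bsP h S z).coeff j := by
      intro z
      have h2 : bsP h (insert a S) z = (Polynomial.X - Polynomial.C (h a z)) * bsP h S z :=
        Finset.prod_insert ha
      rw [h2, sub_mul, Polynomial.coeff_sub, Polynomial.coeff_C_mul]
    simp only [h1]
    refine ContinuousOn.sub ?_ ((hc a).mul (ih j))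
    rcases j with _ | j
    · simp only [Polynomial.coeff_X_mul_zero]
      exact continuousOn_const
    · simp only [Polynomial.coeff_X_mul]
      exact ih j

private theorem bsP_eval_ne {d : ℕ} (h : Fin d → (Fin n → ℂ) → ℂ) (S : Finset (Fin d))
    (z : Fin n → ℂ) (hinj : Function.Injective fun a => h a z) (a : Fin d) (ha : a ∉ S) :
    (bsP h S z).eval (h a z) ≠ 0 := by
  unfold bsP
  rw [Polynomial.eval_prod, Finset.prod_ne_zero_iff]
  intro b hb h0
  rw [Polynomial.eval_sub, Polynomial.eval_X, Polynomial.eval_C, sub_eq_zero] at h0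
  exact ha ((hinj h0) ▸ hb)

private theorem bs_near {d : ℕ} (p : (MvPolynomial (Fin n) ℂ)[X]) (B : Set (Fin n → ℂ))
    (hB : IsOpen B) (h : Fin d → (Fin n → ℂ) → ℂ) (hc : ∀ a, ContinuousOn (h a) B)
    (hinj : ∀ z ∈ B, Function.Injective fun a => h a z)
    (hprod : ∀ z ∈ B, p.map (MvPolynomial.eval z) = ∏ a, (Polynomial.X - Polynomial.C (h a z)))
    (S : Finset (Fin d)) (z v : Fin n → ℂ) (hz : z ∈ B) (g k : ℂ[X][X]) (hg : g.Monic)
    (hgk : g * k = res p z v) (h0 : g.map (Polynomial.evalRingHom 0) = bsP h S z) :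
    ∀ᶠ t in nhds (0 : ℂ), g.map (Polynomial.evalRingHom t) =
      bsP h S (fun i => z i + t * v i) := by
  classical
  have hγ : Continuous fun t : ℂ => (fun i => z i + t * v i : Fin n → ℂ) := by fun_prop
  have hγ0 : (fun i => z i + (0 : ℂ) * v i : Fin n → ℂ) = z := by
    funext i
    rw [zero_mul, add_zero]
  have e1 : ∀ᶠ t in nhds (0 : ℂ), (fun i => z i + t * v i : Fin n → ℂ) ∈ B := by
    apply hγ.continuousAt.eventually_mem
    rw [hγ0]
    exact hB.mem_nhds hz
  have ca : ∀ a, ContinuousAt (fun t : ℂ => h a (fun i => z i + t * v i)) 0 := by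
    intro a
    apply ContinuousAt.comp (g := h a) _ hγ.continuousAt
    rw [hγ0]
    exact (hc a).continuousAt (hB.mem_nhds hz)
  have cq : ∀ (q : ℂ[X][X]) a, ContinuousAt
      (fun t : ℂ => q.evalEval t (h a (fun i => z i + t * v i))) 0 := by
    intro q a
    exact (H13J.continuous_evalEval q).continuousAt.comp
      (f := fun t : ℂ => (t, h a (fun i => z i + t * v i))) (continuousAt_id.prodMk (ca a))
  have hk0 : k.map (Polynomial.evalRingHom 0) = bsP h Sᶜ z := by
    have h1 := congrArg (Polynomial.map (Polynomial.evalRingHom (0 : ℂ))) hgk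
    rw [Polynomial.map_mul, bs_res_map0, hprod z hz, h0] at h1
    have h2 : ∏ a, (Polynomial.X - Polynomial.C (h a z)) = bsP h S z * bsP h Sᶜ z :=
      (Finset.prod_mul_prod_compl S _).symm
    rw [h2] at h1
    exact mul_left_cancel₀ (bsP_monic h S z).ne_zero h1
  have e2 : ∀ᶠ t in nhds (0 : ℂ), ∀ a, a ∉ S →
      g.evalEval t (h a (fun i => z i + t * v i)) ≠ 0 := by
    rw [Filter.eventually_all]
    intro a
    by_cases ha : a ∈ S
    · exact Filter.Eventually.of_forall fun t h1 => absurd ha h1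
    · have h1 := (cq g a).eventually_ne (y := 0) (by
        rw [hγ0, ← Polynomial.map_evalRingHom_eval, h0]
        exact bsP_eval_ne h S z (hinj z hz) a ha)
      filter_upwards [h1] with t ht _
      exact ht
  have e3 : ∀ᶠ t in nhds (0 : ℂ), ∀ a, a ∈ S →
      k.evalEval t (h a (fun i => z i + t * v i)) ≠ 0 := by
    rw [Filter.eventually_all]
    intro a
    by_cases ha : a ∈ S
    · have h1 := (cq k a).eventually_ne (y := 0) (by
        rw [hγ0, ← Polynomial.map_evalRingHom_eval, hk0]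
        exact bsP_eval_ne h Sᶜ z (hinj z hz) a (by rw [Finset.mem_compl, not_not]; exact ha))
      filter_upwards [h1] with t ht _
      exact ht
    · exact Filter.Eventually.of_forall fun t h1 => absurd h1 ha
  filter_upwards [e1, e2, e3] with t t1 t2 t3
  have h1 := congrArg (Polynomial.map (Polynomial.evalRingHom t)) hgk
  rw [Polynomial.map_mul, bs_res_map, hprod _ t1] at h1
  have h2 := bs_divisor (fun a => h a (fun i => z i + t * v i)) (hinj _ t1)
    (g.map (Polynomial.evalRingHom t)) (hg.map _) (Dvd.intro _ h1)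
  rw [h2]
  unfold bsP
  apply Finset.prod_congr _ fun _ _ => rfl
  ext a
  rw [Finset.mem_filter]
  constructor
  · rintro ⟨-, h3⟩
    by_contra ha
    rw [Polynomial.map_evalRingHom_eval] at h3
    exact t2 a ha h3
  · intro ha
    refine ⟨Finset.mem_univ a, ?_⟩
    have h3 := congrArg (Polynomial.eval (h a (fun i => z i + t * v i))) h1
    have h4 : (∏ a, (Polynomial.X - Polynomial.C (h a (fun i => z i + t * v i)))).eval
        (h a (fun i => z i + t * v i)) = 0 := by
      rw [Polynomial.eval_prod]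
      apply Finset.prod_eq_zero (Finset.mem_univ a)
      rw [Polynomial.eval_sub, Polynomial.eval_X, Polynomial.eval_C, sub_self]
    rw [h4, Polynomial.eval_mul] at h3
    refine (mul_eq_zero.1 h3).resolve_right ?_
    rw [Polynomial.map_evalRingHom_eval]
    exact t3 a ha

/-- The pairs whose restriction has a factor which at `t = 0` is the partial product. -/
private def CSet {d : ℕ} (p : (MvPolynomial (Fin n) ℂ)[X]) (h : Fin d → (Fin n → ℂ) → ℂ)
    (S : Finset (Fin d)) : Set ((Fin n → ℂ) × (Fin n → ℂ)) :=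
  {x | ∃ g k : ℂ[X][X], g.Monic ∧ k.Monic ∧ g * k = res p x.1 x.2 ∧
    g.map (Polynomial.evalRingHom 0) = bsP h S x.1}

private theorem bs_closed {d : ℕ} (p : (MvPolynomial (Fin n) ℂ)[X]) (hp : p.Monic)
    (B : Set (Fin n → ℂ)) (hB : IsOpen B) (h : Fin d → (Fin n → ℂ) → ℂ)
    (hc : ∀ a, ContinuousOn (h a) B) (S : Finset (Fin d)) (x₀ : (Fin n → ℂ) × (Fin n → ℂ))
    (hx₀ : x₀.1 ∈ B) (hn : x₀ ∉ CSet p h S) : ∀ᶠ x in nhds x₀, x ∉ CSet p h S := by
  by_contra hcon
  rw [Filter.not_eventually] at hcon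
  obtain ⟨x, hx, hx2⟩ := Filter.exists_seq_forall_of_frequently hcon
  have hx3 : ∀ N, x N ∈ CSet p h S := fun N => not_not.1 (hx2 N)
  choose g k hg hk hgk h0 using hx3
  obtain ⟨U, F, H, hU, hF, hH, hFH, -, hlim⟩ := bs_seq p hp x x₀ hx g k hg hk hgk
  apply hn
  refine ⟨F, H, hF, hH, hFH, ?_⟩
  ext j
  rw [Polynomial.coeff_map, Polynomial.coe_evalRingHom, ← Polynomial.coeff_zero_eq_eval_zero]
  have h1 := hlim j 0
  have h2 : (fun N => ((g N).coeff j).coeff 0) = fun N => (bsP h S (x N).1).coeff j := by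
    funext N
    rw [← h0 N, Polynomial.coeff_map, Polynomial.coe_evalRingHom,
      ← Polynomial.coeff_zero_eq_eval_zero]
  rw [h2] at h1
  have h3 : Filter.Tendsto (fun N => (bsP h S (x N).1).coeff j) Filter.atTop
      (nhds ((bsP h S x₀.1).coeff j)) := by
    have h4 : ContinuousAt (fun z => (bsP h S z).coeff j) x₀.1 :=
      (bsP_cont h B hc S j).continuousAt (hB.mem_nhds hx₀)
    exact h4.tendsto.comp ((continuous_fst.tendsto x₀).comp hx)
  exact tendsto_nhds_unique h1 (h3.mono_left hU)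

private theorem bs_union {X : Type} [TopologicalSpace X] {J : Type} [DecidableEq J]
    (A : J → Set X) (W : Set X)
    (hcl : ∀ j, ∀ x ∈ W, x ∉ A j → ∀ᶠ y in nhds x, y ∉ A j) (T : Finset J) :
    ∀ W' : Set X, W' ⊆ W → IsOpen W' → W'.Nonempty → (∀ x ∈ W', ∃ j ∈ T, x ∈ A j) →
      ∃ j ∈ T, ∃ W'' : Set X, W'' ⊆ W' ∧ IsOpen W'' ∧ W''.Nonempty ∧ W'' ⊆ A j := by
  induction T using Finset.induction_on with
  | empty =>
    intro W' _ _ hne hcov
    obtain ⟨x, hx⟩ := hne
    obtain ⟨j, hj, -⟩ := hcov x hx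
    exact absurd hj (Finset.notMem_empty j)
  | insert j T hj ih =>
    intro W' hW' ho hne hcov
    by_cases hsub : W' ⊆ A j
    · exact ⟨j, Finset.mem_insert_self j T, W', subset_rfl, ho, hne, hsub⟩
    · obtain ⟨x, hx, hxA⟩ := Set.not_subset.1 hsub
      have h1 := hcl j x (hW' hx) hxA
      obtain ⟨V, hV, hVo, hxV⟩ := mem_nhds_iff.1 h1
      obtain ⟨j', hj', W'', h2, h3, h4, h5⟩ := ih (W' ∩ V) (Set.inter_subset_left.trans hW')
        (ho.inter hVo) ⟨x, hx, hxV⟩ (by
          rintro y ⟨hy, hyV⟩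
          obtain ⟨j', hj', hy'⟩ := hcov y hy
          rcases Finset.mem_insert.1 hj' with h6 | h6
          · rw [h6] at hy'
            exact absurd hy' (hV hyV)
          · exact ⟨j', h6, hy'⟩)
      exact ⟨j', Finset.mem_insert_of_mem hj', W'', h2.trans Set.inter_subset_left, h3, h4, h5⟩

private theorem bs_dense (r : MvPolynomial (Fin n) ℂ) (hr : r ≠ 0) (B : Set (Fin n → ℂ))
    (hB : IsOpen B) (hne : B.Nonempty) : ∃ z ∈ B, MvPolynomial.eval z r ≠ 0 := by
  obtain ⟨z₀, hz₀⟩ := hne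
  obtain ⟨ε, hε, hsub⟩ := Metric.isOpen_iff.1 hB z₀ hz₀
  obtain ⟨z, hz⟩ := (pc_compl n r hr (Metric.ball z₀ ε) (convex_ball _ _) Metric.isOpen_ball
    ⟨z₀, Metric.mem_ball_self hε⟩).nonempty
  exact ⟨z, hsub hz.1, hz.2⟩

private theorem bs_zero (s : (MvPolynomial (Fin n) ℂ)[X]) (B : Set (Fin n → ℂ))
    (hB : IsOpen B) (hne : B.Nonempty) (h : ∀ z ∈ B, s.map (MvPolynomial.eval z) = 0) :
    s = 0 := by
  ext1 m
  rw [Polynomial.coeff_zero]
  by_contra hm
  obtain ⟨z, hz, hz2⟩ := bs_dense (s.coeff m) hm B hB hne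
  apply hz2
  rw [← Polynomial.coeff_map, h z hz, Polynomial.coeff_zero]

/-- Bertini for one polynomial. -/
theorem bertini_one (p : (MvPolynomial (Fin n) ℂ)[X]) (hp : p.Monic) (hpi : Irreducible p)
    (O : Set ((Fin n → ℂ) × (Fin n → ℂ))) (hO : IsOpen O) (hne : O.Nonempty) :
    ∃ x ∈ O, Irreducible (res p x.1 x.2) := by
  classical
  by_contra hcon
  push Not at hcon
  obtain ⟨x₀, hx₀⟩ := hne
  obtain ⟨B₁, B₂, hB₁, hB₂, hx1, hx2, hsub⟩ := isOpen_prod_iff.1 hO x₀.1 x₀.2 hx₀
  have hd : 0 < p.natDegree := bs_pos hp hpi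
  -- local roots
  obtain ⟨r, hr⟩ := H13M.exists_disc (fun _ : Unit => p) (fun _ => hp) (fun _ => hpi)
    (fun _ _ _ => rfl)
  obtain ⟨z₁, hz₁, hrz₁⟩ := bs_dense r hr.ne B₁ hB₁ ⟨_, hx1⟩
  obtain ⟨ρ, hρ, h, hdiff, hinj, hprod⟩ := H13M.local_roots p hp z₁
    (fun w hw => hr.simple () (z₁, w) hrz₁ hw)
  have hBo : IsOpen (Metric.ball z₁ ρ) := Metric.isOpen_ball
  have hc : ∀ a, ContinuousOn (h a) (Metric.ball z₁ ρ) := fun a => (hdiff a).continuousOn
  have hW : IsOpen ((B₁ ∩ Metric.ball z₁ ρ) ×ˢ B₂) := (hB₁.inter hBo).prod hB₂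
  -- the cover
  have hcov : ∀ x ∈ (B₁ ∩ Metric.ball z₁ ρ) ×ˢ B₂, ∃ S ∈
      Finset.univ.filter (fun S : Finset (Fin p.natDegree) => 0 < S.card ∧ S.card < p.natDegree),
      x ∈ CSet p h S := by
    rintro x ⟨⟨hxB, hxρ⟩, hxB₂⟩
    have hred : ¬ Irreducible (res p x.1 x.2) := hcon x (hsub ⟨hxB, hxB₂⟩)
    obtain ⟨g, k, hg, hk, hgk, hg1, hg2⟩ := bs_factor (res_monic hp x.1 x.2)
      (by rw [bs_natDegree_res hp]; exact hd) hred
    rw [bs_natDegree_res hp] at hg2
    have h1 := congrArg (Polynomial.map (Polynomial.evalRingHom (0 : ℂ))) hgk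
    rw [Polynomial.map_mul, bs_res_map0, hprod _ hxρ] at h1
    have h2 := bs_divisor (fun a => h a x.1) (hinj _ hxρ) (g.map (Polynomial.evalRingHom 0))
      (hg.map _) (Dvd.intro _ h1)
    set S : Finset (Fin p.natDegree) := Finset.univ.filter
      (fun a => (g.map (Polynomial.evalRingHom 0)).eval (h a x.1) = 0) with hS
    have h3 : g.map (Polynomial.evalRingHom 0) = bsP h S x.1 := h2
    have h4 : S.card = g.natDegree := by
      rw [← bsP_natDegree h S x.1, ← h3, hg.natDegree_map]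
    refine ⟨S, ?_, g, k, hg, hk, hgk, h3⟩
    rw [Finset.mem_filter]
    exact ⟨Finset.mem_univ S, by omega, by omega⟩
  obtain ⟨S, hS, W'', hW1, hW2, hW3, hW4⟩ := bs_union (fun S => CSet p h S)
    ((B₁ ∩ Metric.ball z₁ ρ) ×ˢ B₂)
    (fun S x hx hxn => bs_closed p hp (Metric.ball z₁ ρ) hBo h hc S x hx.1.2 hxn) _
    ((B₁ ∩ Metric.ball z₁ ρ) ×ˢ B₂) subset_rfl hW
    ⟨(z₁, x₀.2), ⟨hz₁, Metric.mem_ball_self hρ⟩, hx2⟩ hcov
  obtain ⟨hS1, hS2⟩ := (Finset.mem_filter.1 hS).2
  obtain ⟨x₂, hx₂⟩ := hW3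
  obtain ⟨O1, O2, hO1, hO2, hx3, hx4, hsub2⟩ := isOpen_prod_iff.1 hW2 x₂.1 x₂.2 hx₂
  have hO1ρ : O1 ⊆ Metric.ball z₁ ρ := fun z hz =>
    (hW1 (hsub2 (Set.mk_mem_prod hz hx4))).1.2
  obtain ⟨U, hU, hUne, hUsub, hUE⟩ := poly_of_lines O1 O2 hO1 hO2 ⟨_, hx3⟩ ⟨_, hx4⟩
  obtain ⟨D, hD⟩ := deg_bound p
  have hcoef : ∀ j : ℕ, ∃ Q : MvPolynomial (Fin n) ℂ, ∀ z ∈ U,
      (bsP h S z).coeff j = MvPolynomial.eval z Q := by
    intro j
    refine hUE (fun z => (bsP h S z).coeff j) D ((bsP_cont h _ hc S j).mono hO1ρ) ?_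
    intro z hz v hv
    obtain ⟨g, k, hg, hk, hgk, h0⟩ := hW4 (hsub2 (Set.mk_mem_prod hz hv))
    refine ⟨g.coeff j, hD z v g k hgk.symm (res_monic hp _ _).ne_zero j, ?_⟩
    filter_upwards [bs_near p (Metric.ball z₁ ρ) hBo h hc hinj hprod S z v (hO1ρ hz) g k hg hgk h0]
      with t ht
    rw [← ht, Polynomial.coeff_map, Polynomial.coe_evalRingHom]
  choose Q hQ using hcoef
  set q : (MvPolynomial (Fin n) ℂ)[X] := Polynomial.X ^ S.card +
    ∑ i : Fin S.card, Polynomial.C (Q (i : ℕ)) * Polynomial.X ^ (i : ℕ) with hq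
  have hqm : q.Monic := Polynomial.monic_X_pow_add (Polynomial.degree_sum_fin_lt _)
  have hqd : q.natDegree = S.card := by
    apply Polynomial.natDegree_eq_of_degree_eq_some
    rw [hq, Polynomial.degree_add_eq_left_of_degree_lt, Polynomial.degree_X_pow]
    rw [Polynomial.degree_X_pow]
    exact Polynomial.degree_sum_fin_lt _
  have hqz : ∀ z ∈ U, q.map (MvPolynomial.eval z) = bsP h S z := by
    intro z hz
    have h1 := (bsP_monic h S z).as_sum
    rw [bsP_natDegree] at h1
    rw [h1, hq, Polynomial.map_add, Polynomial.map_pow, Polynomial.map_X, Polynomial.map_sum,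
      Finset.sum_range]
    congr 1
    apply Finset.sum_congr rfl
    intro i _
    rw [Polynomial.map_mul, Polynomial.map_pow, Polynomial.map_X, Polynomial.map_C,
      hQ (i : ℕ) z hz]
  have hdvd : q ∣ p := by
    rw [← Polynomial.modByMonic_eq_zero_iff_dvd hqm]
    apply bs_zero _ U hU hUne
    intro z hz
    rw [Polynomial.map_modByMonic _ hqm, hqz z hz,
      Polynomial.modByMonic_eq_zero_iff_dvd (bsP_monic h S z), hprod z (hO1ρ (hUsub hz))]
    exact Finset.prod_dvd_prod_of_subset _ _ _ (Finset.subset_univ S)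
  obtain ⟨s, hs⟩ := hdvd
  exact bs_unfactor hpi hqm hs.symm (by omega) (by omega)

/-- Bertini. -/
theorem bertini_fin [Finite ι] (P : ι → (MvPolynomial (Fin n) ℂ)[X]) (hm : ∀ i, (P i).Monic)
    (hirr : ∀ i, Irreducible (P i)) (O : Set ((Fin n → ℂ) × (Fin n → ℂ))) (hO : IsOpen O)
    (hne : O.Nonempty) : ∃ x ∈ O, ∀ i, Irreducible (res (P i) x.1 x.2) := by
  classical
  have _ := Fintype.ofFinite ι
  have key : ∀ T : Finset ι, ∃ x ∈ O, ∀ i ∈ T, Irreducible (res (P i) x.1 x.2) := by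
    intro T
    induction T using Finset.induction_on with
    | empty =>
      obtain ⟨x, hx⟩ := hne
      exact ⟨x, hx, fun i hi => absurd hi (Finset.notMem_empty i)⟩
    | insert a T ha ih =>
      obtain ⟨x, hx, hxT⟩ := ih
      have h1 : ∀ᶠ y in nhds x, ∀ i ∈ T, Irreducible (res (P i) y.1 y.2) := by
        rw [Filter.eventually_all_finset]
        intro i hi
        exact bs_open (P i) (hm i) x (hxT i hi)
      obtain ⟨V, hV, hVo, hxV⟩ := mem_nhds_iff.1 h1
      obtain ⟨y, hy, hya⟩ := bertini_one (P a) (hm a) (hirr a) (O ∩ V) (hO.inter hVo)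
        ⟨x, hx, hxV⟩
      refine ⟨y, hy.1, fun i hi => ?_⟩
      rcases Finset.mem_insert.1 hi with h2 | h2
      · rw [h2]
        exact hya
      · exact hV hy.2 i h2
  obtain ⟨x, hx, h⟩ := key Finset.univ
  exact ⟨x, hx, fun i => h i (Finset.mem_univ i)⟩

end H13W
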