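import Pool.Agent.Lib.H13W.D
import Pool.Agent.Lib.H13W.BertS

set_option autoImplicit false

open scoped unitInterval Polynomial

namespace H13W

open H13K H13M

variable {n : ℕ} {ι : Type}

/-- Bertini: the restrictions of finitely many monic irreducible polynomials to a generic line of the
base remain irreducible.
Proof: (1) openness: if res p z₀ v₀ is irreducible, so is res p z v for (z, v) near (z₀, v₀) (compactness
of the coefficients, compare H13J.irred_near, C1a.lean).  So it is enough to find one pair in every
nonempty open set for one p (then finite induction over ι).
(2) Suppose res p z v is reducible for all (z, v) in the nonempty open set O.  Shrink: O = O₁ × O₂, with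
a discriminant r(z) ≠ 0 on the ball O₁ (H13M disc) and continuous roots f_a, a : Fin d, over O₁
(H13M.local_roots).  For every (z, v) there is a proper nonempty S ⊆ Fin d such that the product of
the (w - root over z + t v) for the roots continuing f_a (z), a ∈ S, is the monic factor g of res p z v: for
z + t v ∈ O₁ (t near 0) its value is ∏_(a ∈ S) (w - f_a (z + t v)).  For fixed S the set of (z, v) is closed
(bounded coefficients, limits as in C1a), the union over S is O, so (finite union of closed sets) for one
S it contains an open O₁' × O₂' (shrink again).  (3) So for a ∈ S every coefficient E(z) of
∏_(a ∈ S) (w - f_a z) is, on O₁', a polynomial of degree ≤ D in t along all lines z + t v, v ∈ O₂'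
(D = total degree of p in z).  O₂' contains a basis v_1, .., v_n; by interpolation a function which is a
polynomial of degree ≤ D in each of the n variables t_i (z = z₀ + sum t_i v_i) on a box is a
polynomial, so E is a polynomial in z on O₁'; the same for the complement of S.  So p = g * h with g, h
monic polynomials (equal on an open set), contradiction. -/
theorem bertini [Finite ι] (P : ι → (MvPolynomial (Fin n) ℂ)[X]) (hm : ∀ i, (P i).Monic)
    (hirr : ∀ i, Irreducible (P i)) (O : Set ((Fin n → ℂ) × (Fin n → ℂ))) (hO : IsOpen O)
    (hne : O.Nonempty) : ∃ x ∈ O, ∀ i, Irreducible (res (P i) x.1 x.2) :=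
  bertini_fin P hm hirr O hO hne

end H13W
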