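import Mathlib
import Pool.Agent.Lib.H13B.Main
import Pool.Agent.Lib.H13F2.F2

set_option autoImplicit false

namespace H13W

/-- Baumslag's theorem for a subgroup of finite index.
Proof: K ⊓ H is of finite index in K, so finitely generated (Schreier: Subgroup.fg_of_index_ne_zero); it is
normal in H and H / (K ⊓ H) is infinite because H has finite index in G and G / K is infinite;
`H13B.baumslag` for the image of K.subgroupOf H under e. -/
theorem baumslag_fi {G : Type} [Group G] (K H : Subgroup G) (hN : K.Normal) (hH : H.FiniteIndex)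
    (hK : K.FG) (hinf : Infinite (G ⧸ K)) (A B : Type) [Group A] [Group B] [Nontrivial A]
    [Nontrivial B] (e : H ≃* Monoid.Coprod A B) : K ⊓ H = ⊥ := by
  have := hN
  have := hH
  -- finitely generated
  have : Group.FG K := (Group.fg_iff_subgroup_fg K).2 hK
  have : (H.subgroupOf K).FiniteIndex := inferInstance
  have h1 : Group.FG (H.subgroupOf K) := Subgroup.fg_of_index_ne_zero _
  -- the surjection onto the image in the free product
  let f : (H.subgroupOf K) →* Monoid.Coprod A B :=
    { toFun := fun k => e ⟨((k : K) : G), k.2⟩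
      map_one' := map_one e
      map_mul' := fun a b => map_mul e ⟨((a : K) : G), a.2⟩ ⟨((b : K) : G), b.2⟩ }
  -- the image
  let K' : Subgroup (Monoid.Coprod A B) := (K.subgroupOf H).map e.toMonoidHom
  have hK'n : K'.Normal := Subgroup.Normal.map inferInstance _ e.surjective
  have hK'fg : K'.FG := by
    rw [← Group.fg_iff_subgroup_fg]
    have hfr : f.range = K' := by
      ext g
      constructor
      · rintro ⟨k, rfl⟩
        exact ⟨⟨((k : K) : G), k.2⟩, (k : K).2, rfl⟩
      · rintro ⟨h, hh, rfl⟩
        exact ⟨⟨⟨(h : G), hh⟩, h.2⟩, rfl⟩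
    rw [← hfr]
    exact Group.fg_of_surjective (f := f.rangeRestrict) f.rangeRestrict_surjective
  have hK'inf : Infinite (Monoid.Coprod A B ⧸ K') := by
    by_contra hcon
    rw [not_infinite_iff_finite] at hcon
    have : K'.FiniteIndex := Subgroup.finiteIndex_of_finite_quotient
    have h6 : K'.index ≠ 0 := Subgroup.FiniteIndex.index_ne_zero
    have h7 : K'.index = (K.subgroupOf H).index := Subgroup.index_map_equiv _ e
    rw [h7] at h6
    have h8 : K.relIndex H ≠ 0 := h6
    have h9 : (K ⊓ H).index ≠ 0 := by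
      have h10 : (K ⊓ H).relIndex H * H.index = (K ⊓ H).index :=
        Subgroup.relIndex_mul_index inf_le_right
      rw [← h10, Subgroup.inf_relIndex_right]
      exact mul_ne_zero h8 Subgroup.FiniteIndex.index_ne_zero
    have : (K ⊓ H).FiniteIndex := ⟨h9⟩
    have : K.FiniteIndex := Subgroup.finiteIndex_of_le (inf_le_left : K ⊓ H ≤ K)
    have : Finite (G ⧸ K) := Subgroup.finite_quotient_of_finiteIndex
    exact not_finite (G ⧸ K)
  have hbot : K' = ⊥ := H13B.baumslag K' hK'fg hK'inf
  rw [eq_bot_iff]
  intro g hg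
  obtain ⟨hgK, hgH⟩ := hg
  have h11 : e ⟨g, hgH⟩ ∈ K' := ⟨⟨g, hgH⟩, hgK, rfl⟩
  rw [hbot, Subgroup.mem_bot] at h11
  have h12 : (⟨g, hgH⟩ : H) = 1 := by
    apply e.injective
    rw [h11, map_one]
  have h13 := congrArg Subtype.val h12
  exact h13

/-- A subgroup that meets a subgroup of finite index trivially is finite. -/
theorem finite_of_inf_bot {G : Type} [Group G] (K H : Subgroup G) (hH : H.FiniteIndex)
    (h : K ⊓ H = ⊥) : (K : Set G).Finite := by
  have := hH
  have : Finite (G ⧸ H) := Subgroup.finite_quotient_of_finiteIndex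
  have hinj : Function.Injective (fun k : K => (QuotientGroup.mk (k : G) : G ⧸ H)) := by
    intro k1 k2 hk
    have h1 : (k1 : G)⁻¹ * (k2 : G) ∈ H := QuotientGroup.eq.1 hk
    have h2 : (k1 : G)⁻¹ * (k2 : G) ∈ K := K.mul_mem (K.inv_mem k1.2) k2.2
    have h3 : (k1 : G)⁻¹ * (k2 : G) ∈ K ⊓ H := ⟨h2, h1⟩
    rw [h, Subgroup.mem_bot] at h3
    exact Subtype.ext (inv_mul_eq_one.1 h3)
  have : Finite K := Finite.of_injective _ hinj
  exact Set.toFinite (K : Set G)

/-- The homomorphisms of a finitely generated group to `ℤ / 2` are finite in number. -/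
theorem finite_hom {G : Type} [Group G] (hG : Group.FG G) :
    Finite (G →* Multiplicative (ZMod 2)) := by
  obtain ⟨S, hS⟩ := (Group.fg_iff.1 hG)
  obtain ⟨hS, hfin⟩ := hS
  have : Finite S := hfin
  have : Finite (Multiplicative (ZMod 2)) := inferInstanceAs (Finite (ZMod 2))
  refine Finite.of_injective (fun φ : G →* Multiplicative (ZMod 2) => fun s : S => φ s) ?_
  intro φ ψ h
  refine MonoidHom.eq_of_eqOn_dense hS ?_
  intro s hs
  exact congrFun h ⟨s, hs⟩

/-- Both factors of a finitely generated free group are free of finite rank. -/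
theorem factors_free {G A B : Type} [Group G] [Group A] [Group B] (H : Subgroup G)
    (hG : Group.FG G) (hH : H.FiniteIndex) (hfree : IsFreeGroup H) (e : H ≃* Monoid.Coprod A B) :
    (∃ a : ℕ, Nonempty (A ≃* FreeGroup (Fin a))) ∧ ∃ b : ℕ, Nonempty (B ≃* FreeGroup (Fin b)) := by
  have := hG
  have := hH
  have hfg : Group.FG H := Subgroup.fg_of_index_ne_zero H
  have := hfree
  exact H13F2.factor_free e (finite_hom hfg)

/-- A subgroup on which a homomorphism to a free group is injective is free. -/
theorem free_of_inj {G Y : Type} [Group G] (H K : Subgroup G) (φ : G →* FreeGroup Y)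
    (hφ : ∀ g, φ g = 1 → g ∈ K) (h : K ⊓ H = ⊥) : IsFreeGroup H := by
  have hi : Function.Injective (φ.comp H.subtype) := by
    rw [injective_iff_map_eq_one]
    intro a ha
    have h1 : (a : G) ∈ K := hφ _ ha
    have h2 : (a : G) ∈ K ⊓ H := ⟨h1, a.2⟩
    rw [h, Subgroup.mem_bot] at h2
    exact Subtype.ext h2
  have hfree : IsFreeGroup (φ.comp H.subtype).range := inferInstance
  exact IsFreeGroup.ofMulEquiv (MonoidHom.ofInjective hi).symm

end H13W
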