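import Pool.Agent.Lib.H13J.N3g
import Pool.Agent.Lib.H13J.N4b
import Pool.Agent.Lib.H13J.N4c
import Pool.Agent.Lib.H13J.M4
import Pool.Agent.Lib.H13J.Z1
import Pool.Agent.Lib.H13W.Gr

set_option autoImplicit false

open scoped unitInterval Polynomial

namespace H13W

open H13K H13J

variable {ι : Type}

/-- The subgroup of the fibres of `P s`. -/
theorem core_step [Fintype ι] (P : ι → ℂ[X][X]) (hm : ∀ i, (P i).Monic)
    (hirr : ∀ i, Irreducible (P i)) (r : ℂ[X]) (hr : H13K.Disc P r) (x₀ : CX P)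
    {G : Type} [Group G] (U : PF (CX P) G) (hU : ∀ g : G, ∃ p : Path x₀ x₀, U.val p = g)
    (w : ι → G →* Multiplicative ℂ)
    (hw : ∀ (l : ι) (x : CX P) (p : Path x x) (ℓ : C(I, ℂ)),
      (∀ t, Complex.exp (ℓ t) = (P l).evalEval (p t).1.1 (p t).1.2) →
      (w l (U.val p)).toAdd = (2 * Real.pi * Complex.I)⁻¹ * (ℓ 1 - ℓ 0))
    (H : Subgroup G) (hH : H.FiniteIndex) (A B : Type) [Group A] [Group B] [Nontrivial A]
    [Nontrivial B] (e : H ≃* Monoid.Coprod A B) (s : ι) :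
    ∃ (Bif : Set ℂ) (K : Subgroup G), Bif.Finite ∧ K.Normal ∧ K ⊓ H = ⊥ ∧ (K : Set G).Finite ∧
      ∀ b, b ∉ Bif → ∃ ρ : ℝ, 0 < ρ ∧ ∀ (y : CX P) (p : Path y y),
        (∀ t, hval P s (p t).1 ∈ Metric.ball b ρ) → U.val p ∈ K := by
  classical
  obtain ⟨Bif, K, hfin, hN, hFG, hloc, hback⟩ := exists_K_gen P hm hirr s x₀ U hU
  have hpi : (2 * Real.pi * Complex.I : ℂ) ≠ 0 := Complex.two_pi_I_ne_zero
  have hKw : ∀ k ∈ K, w s k = 1 := by
    intro k hk
    obtain ⟨x, p, g, hp, rfl⟩ := hback k hk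
    have hx : hval P s x.1 ≠ 0 := x.2 s
    have h1 : (w s (U.val p)).toAdd = 0 := by
      rw [hw s x p (ContinuousMap.const I (Complex.log (hval P s x.1))) (by
        intro t
        rw [ContinuousMap.const_apply, Complex.exp_log hx]
        exact (hp t).symm)]
      simp
    have h2 : w s (U.val p) = 1 := by
      apply Multiplicative.toAdd.injective
      rw [h1]
      rfl
    rw [map_mul, map_mul, h2, mul_one, map_inv, mul_inv_cancel]
  obtain ⟨z, u, a, h, hz, hu⟩ := exists_mer P hm hirr r hr.ne s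
  obtain ⟨ℓ, hℓ1, hℓ2⟩ := mer2_log P hm r hr s z u a h hz hu s
  rw [if_pos rfl] at hℓ2
  have hg : (w s (U.val (mer2 P z u a h))).toAdd = 1 := by
    rw [hw s _ _ ℓ hℓ1, hℓ2, inv_mul_cancel₀ hpi]
  have hinf : Infinite (G ⧸ K) := by
    let q : G ⧸ K →* Multiplicative ℂ := QuotientGroup.lift K (w s) hKw
    refine Infinite.of_injective
      (fun n : ℕ => (QuotientGroup.mk (U.val (mer2 P z u a h) ^ n) : G ⧸ K)) ?_
    intro m n hmn
    have h1 := congrArg (fun y => (q y).toAdd) hmn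
    have h2 : ∀ n : ℕ, (q (QuotientGroup.mk (U.val (mer2 P z u a h) ^ n))).toAdd = (n : ℂ) := by
      intro n
      have h3 : q (QuotientGroup.mk (U.val (mer2 P z u a h) ^ n)) =
          w s (U.val (mer2 P z u a h) ^ n) := rfl
      rw [h3, map_pow, toAdd_pow, hg]
      simp
    simp only [h2] at h1
    exact_mod_cast h1
  have hbot : K ⊓ H = ⊥ := baumslag_fi K H hN hH hFG hinf A B e
  exact ⟨Bif, K, hfin, hN, hbot, finite_of_inf_bot K H hH hbot, hloc⟩

/-- All curves of the family are level curves of one polynomial. -/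
theorem core_div [Fintype ι] (P : ι → ℂ[X][X]) (hm : ∀ i, (P i).Monic)
    (hirr : ∀ i, Irreducible (P i)) (r : ℂ[X]) (hr : H13K.Disc P r) (x₀ : CX P)
    {G : Type} [Group G] (U : PF (CX P) G) (hU : ∀ g : G, ∃ p : Path x₀ x₀, U.val p = g)
    (w : ι → G →* Multiplicative ℂ)
    (hw : ∀ (l : ι) (x : CX P) (p : Path x x) (ℓ : C(I, ℂ)),
      (∀ t, Complex.exp (ℓ t) = (P l).evalEval (p t).1.1 (p t).1.2) →
      (w l (U.val p)).toAdd = (2 * Real.pi * Complex.I)⁻¹ * (ℓ 1 - ℓ 0))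
    (H : Subgroup G) (hH : H.FiniteIndex) (A B : Type) [Group A] [Group B] [Nontrivial A]
    [Nontrivial B] (e : H ≃* Monoid.Coprod A B) (s n : ι) :
    ∃ c : ℂ, P n ∣ P s - Polynomial.C (Polynomial.C c) := by
  classical
  obtain ⟨Bif, K, hfin, hN, hbot, hKfin, hk⟩ :=
    core_step P hm hirr r hr x₀ U hU w hw H hH A B e s
  by_contra hcon
  push Not at hcon
  choose! ρ hρ1 hρ2 using hk
  obtain ⟨z, u, a, h, b, hb, hz, hu, hball⟩ :=
    mer_over P hm hirr r hr s n hcon Bif hfin ρ hρ1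
  have h1 : U.val (mer2 P z u a h) ∈ K := hρ2 b hb _ _ hball
  obtain ⟨ℓ, hℓ1, hℓ2⟩ := mer2_log P hm r hr n z u a h hz hu n
  rw [if_pos rfl] at hℓ2
  have h2 := hw n _ _ ℓ hℓ1
  rw [hℓ2, inv_mul_cancel₀ Complex.two_pi_I_ne_zero] at h2
  refine (Set.infinite_of_injective_forall_mem (f := fun k : ℕ => U.val (mer2 P z u a h) ^ k)
    ?_ (fun k => K.pow_mem h1 k)) hKfin
  intro k m hkm
  have h3 := congrArg (fun y => (w n y).toAdd) hkm
  simp only [map_pow, toAdd_pow, h2] at h3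
  simpa using h3

/-- The map to the base. -/
noncomputable def toS (P : ι → ℂ[X][X]) (s : ι) (S : Finset ℂ) (h : ∀ x : CX P, hval P s x.1 ∉ S) :
    C(CX P, {b : ℂ // b ∉ S}) where
  toFun x := ⟨hval P s x.1, h x⟩
  continuous_toFun := by
    apply Continuous.subtype_mk
    exact (continuous_evalEval (P s)).comp continuous_subtype_val

open scoped Classical in
/-- The omitted values. -/
noncomputable def SC [Fintype ι] (c : ι → ℂ) : Finset ℂ := Finset.univ.image (fun n => - c n)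

theorem mem_SC [Fintype ι] (c : ι → ℂ) (b : ℂ) : b ∈ SC c ↔ ∃ n, b + c n = 0 := by
  classical
  rw [SC, Finset.mem_image]
  constructor
  · rintro ⟨n, -, h⟩
    exact ⟨n, by rw [← h]; ring⟩
  · rintro ⟨n, h⟩
    exact ⟨n, Finset.mem_univ _, by linear_combination -h⟩

/-- The relative plane theorem. -/
theorem core [Fintype ι] (P : ι → ℂ[X][X]) (hm : ∀ i, (P i).Monic)
    (hirr : ∀ i, Irreducible (P i)) (r : ℂ[X]) (hr : H13K.Disc P r) (x₀ : CX P)
    {G : Type} [Group G] (U : PF (CX P) G) (hU : ∀ g : G, ∃ p : Path x₀ x₀, U.val p = g)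
    (w : ι → G →* Multiplicative ℂ)
    (hw : ∀ (l : ι) (x : CX P) (p : Path x x) (ℓ : C(I, ℂ)),
      (∀ t, Complex.exp (ℓ t) = (P l).evalEval (p t).1.1 (p t).1.2) →
      (w l (U.val p)).toAdd = (2 * Real.pi * Complex.I)⁻¹ * (ℓ 1 - ℓ 0))
    (H : Subgroup G) (hH : H.FiniteIndex) (A B : Type) [Group A] [Group B] [Nontrivial A]
    [Nontrivial B] (e : H ≃* Monoid.Coprod A B) (s : ι) :
    ∃ (c : ι → ℂ) (K : Subgroup G) (h : ∀ x : CX P, hval P s x.1 ∉ SC c),
      (∀ n, P n = P s + Polynomial.C (Polynomial.C (c n))) ∧ K.Normal ∧ K ⊓ H = ⊥ ∧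
      ∀ (x : CX P) (q : Path x x),
        (q.map (toS P s (SC c) h).continuous).Homotopic (Path.refl _) → U.val q ∈ K := by
  classical
  have hdiv := core_div P hm hirr r hr x₀ U hU w hw H hH A B e
  have heq : ∀ n, ∃ c : ℂ, P n = P s + Polynomial.C (Polynomial.C c) := fun n =>
    mutual_eq (P s) (P n) (hm s) (hm n) (hirr s) (hirr n) (hdiv n s) (hdiv s n)
  choose c hc using heq
  obtain ⟨Bif, K, hfin, hN, hbot, hKfin, hk⟩ :=
    core_step P hm hirr r hr x₀ U hU w hw H hH A B e s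
  have hev : ∀ (n : ι) (x : ℂ × ℂ), (P n).evalEval x.1 x.2 = hval P s x + c n := by
    intro n x
    rw [hc n, Polynomial.evalEval_add]
    congr 1
    exact Polynomial.evalEval_CC x.1 x.2 (c n)
  have h : ∀ x : CX P, hval P s x.1 ∉ SC c := by
    intro x hx
    obtain ⟨n, hn⟩ := (mem_SC c _).1 hx
    apply x.2 n
    rw [hev n x.1]
    exact hn
  refine ⟨c, K, h, hc, hN, hbot, ?_⟩
  intro x q hq
  have hj : ∀ y : XS (P s) (SC c), y.1 ∈ CX P := by
    intro y n hn
    apply y.2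
    rw [mem_SC]
    exact ⟨n, by rw [← hn, hev n y.1]; rfl⟩
  let j : C(XS (P s) (SC c), CX P) :=
    ⟨fun y => ⟨y.1, hj y⟩, by
      apply Continuous.subtype_mk
      exact continuous_subtype_val⟩
  let i : C(CX P, XS (P s) (SC c)) :=
    ⟨fun y => ⟨y.1, h y⟩, by
      apply Continuous.subtype_mk
      exact continuous_subtype_val⟩
  let V : PF (CX P) (G ⧸ K) := U.push (QuotientGroup.mk' K)
  have hc0 : (0 : ℂ) ∈ SC c := by
    rw [mem_SC]
    refine ⟨s, ?_⟩
    have h1 := hev s x.1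
    have h2 : (P s).evalEval x.1.1 x.1.2 = hval P s x.1 := rfl
    rw [h2] at h1
    linear_combination -h1
  have h1 : (V.comap j).val (q.map i.continuous) = 1 := by
    refine kill_null (P s) (hm s) (hirr s) (SC c) hc0 (V.comap j) Bif hfin ?_ _ _ ?_
    · intro b hb
      obtain ⟨ρ, hρ, hkk⟩ := hk b hb
      refine ⟨ρ, hρ, ?_⟩
      intro y q' hq'
      have h2 : U.val (q'.map j.continuous) ∈ K := hkk _ _ hq'
      exact (QuotientGroup.eq_one_iff _).2 h2
    · exact hq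
  have h2 : V.val q = 1 := h1
  exact (QuotientGroup.eq_one_iff _).1 h2

end H13W
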