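import Mathlib
import Pool.Agent.Lib.H13K.KD
import Pool.Agent.Lib.H13M.D

set_option autoImplicit false

open scoped unitInterval Polynomial

namespace H13W

open H13K H13M

variable {n : ℕ} {ι : Type}

/-- Restriction of the coefficients to the line `t ↦ z + t v`. -/
noncomputable def line (z v : Fin n → ℂ) : MvPolynomial (Fin n) ℂ →+* ℂ[X] :=
  MvPolynomial.eval₂Hom Polynomial.C (fun i => Polynomial.C (z i) + Polynomial.X * Polynomial.C (v i))

theorem eval_line (z v : Fin n → ℂ) (t : ℂ) (q : MvPolynomial (Fin n) ℂ) :
    (line z v q).eval t = MvPolynomial.eval (fun i => z i + t * v i) q := by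
  have h : (Polynomial.evalRingHom t).comp (line z v) =
      MvPolynomial.eval (fun i => z i + t * v i) := by
    apply MvPolynomial.ringHom_ext
    · intro c
      simp [line]
    · intro i
      simp only [line, RingHom.coe_comp, Function.comp_apply, MvPolynomial.coe_eval₂Hom,
        MvPolynomial.eval₂_X, Polynomial.coe_evalRingHom, Polynomial.eval_add, Polynomial.eval_mul,
        Polynomial.eval_C, Polynomial.eval_X, MvPolynomial.eval_X]
  exact DFunLike.congr_fun h q

/-- The restricted polynomial, a polynomial in `w` with coefficients in `ℂ[t]`. -/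
noncomputable def res (p : (MvPolynomial (Fin n) ℂ)[X]) (z v : Fin n → ℂ) : ℂ[X][X] :=
  p.map (line z v)

theorem res_monic {p : (MvPolynomial (Fin n) ℂ)[X]} (hp : p.Monic) (z v : Fin n → ℂ) :
    (res p z v).Monic := hp.map _

theorem evalEval_res (p : (MvPolynomial (Fin n) ℂ)[X]) (z v : Fin n → ℂ) (t w : ℂ) :
    (res p z v).evalEval t w = ev p (fun i => z i + t * v i, w) := by
  rw [← Polynomial.map_evalRingHom_eval, res, Polynomial.map_map, ev]
  have h : (Polynomial.evalRingHom t).comp (line z v) =
      MvPolynomial.eval (fun i => z i + t * v i) := by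
    apply RingHom.ext
    intro q
    exact eval_line z v t q
  rw [h]

/-- The inclusion of the complement in the plane `{(z + t v, w)}` into the complement. -/
noncomputable def incl (P : ι → (MvPolynomial (Fin n) ℂ)[X]) (z v : Fin n → ℂ) :
    C(CX (fun i => res (P i) z v), NX P) where
  toFun x := ⟨(fun i => z i + x.1.1 * v i, x.1.2), fun i => by
    rw [← evalEval_res]
    exact x.2 i⟩
  continuous_toFun := by
    apply Continuous.subtype_mk
    fun_prop

end H13W
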