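import Pool.Agent.Lib.H1FR.Poly
import Pool.Agent.Lib.H43G.Bm
import Pool.Agent.Lib.H56Z.X0

/-!
# H13W, file J: the join lemma with cost

If `G` carries a fractional Hamiltonian cycle, then for every even set `O` of vertices there are multiplicities `j` on
`G` with degree `1` on `O`, degree `0` or `2` outside `O` and sum at most `n / 2`. Gadget: two copies of every vertex
outside `O`, joined by an edge of weight `1 / 2`; Edmonds' perfect matching polytope (`H1FR.MGraph.exists_pm`).
-/

set_option autoImplicit false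

namespace H13W

open Finset H63F

variable {V : Type*} [Fintype V] [DecidableEq V]

/-- The vertices of the gadget graph. -/
abbrev Cp (O : Finset V) : Type _ := V ⊕ {v : V // v ∉ O}

/-- The vertex of a copy. -/
def pj {O : Finset V} : Cp O → V := Sum.elim id Subtype.val

/-- The number of copies. -/
noncomputable def mu (O : Finset V) (v : V) : ℝ := if v ∈ O then 1 else 2

private theorem mu_pos (O : Finset V) (v : V) : 0 < mu O v := by
  unfold mu
  split_ifs <;> norm_num

private theorem sum_pj (O : Finset V) (g : V → ℝ) : ∑ q : Cp O, g (pj q) = ∑ v, mu O v * g v := by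
  rw [Fintype.sum_sum_type]
  have h1 : ∑ u : {v : V // v ∉ O}, g (pj (Sum.inr u : Cp O)) = ∑ v, if v ∉ O then g v else 0 := by
    rw [← Finset.sum_filter]
    exact (Finset.sum_subtype (univ.filter fun v => v ∉ O) (by simp) g).symm
  have h2 : ∑ u : V, g (pj (Sum.inl u : Cp O)) = ∑ v, g v := rfl
  rw [h1, h2, ← sum_add_distrib]
  refine sum_congr rfl fun v _ => ?_
  unfold mu
  by_cases hv : v ∈ O
  · rw [if_pos hv, if_neg (not_not.2 hv)]
    ring
  · rw [if_neg hv, if_pos hv]
    ring

private theorem part {O : Finset V} (p : Cp O) (hp : pj p ∉ O) :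
    ∃ p' : Cp O, p' ≠ p ∧ pj p' = pj p ∧ ∀ q, pj q = pj p → q = p ∨ q = p' := by
  rcases p with v | ⟨v, hv⟩
  · refine ⟨Sum.inr ⟨v, hp⟩, by simp, rfl, ?_⟩
    rintro (q | ⟨q, hq⟩) h
    · left
      exact congrArg Sum.inl h
    · right
      have h' : q = v := h
      subst h'
      rfl
  · refine ⟨Sum.inl v, by simp, rfl, ?_⟩
    rintro (q | ⟨q, hq⟩) h
    · right
      exact congrArg Sum.inl h
    · left
      have h' : q = v := h
      subst h'
      rfl

private theorem uniq {O : Finset V} (p : Cp O) (hp : pj p ∈ O) (q : Cp O) (hq : pj q = pj p) : q = p := by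
  rcases p with v | ⟨v, hv⟩
  · rcases q with w | ⟨w, hw⟩
    · exact congrArg Sum.inl hq
    · have h' : w = v := hq
      exact absurd (h' ▸ hp : w ∈ O) hw
  · exact absurd hp hv

/-- The weights of the gadget graph. -/
noncomputable def fw (O : Finset V) (y : Sym2 V → ℝ) (p q : Cp O) : ℝ :=
  if pj p = pj q then (if p = q then 0 else 1 / 2)
    else y s(pj p, pj q) / (2 * mu O (pj p) * mu O (pj q))

private theorem fw_symm (O : Finset V) (y : Sym2 V → ℝ) (p q : Cp O) : fw O y p q = fw O y q p := by
  unfold fw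
  by_cases h : pj p = pj q
  · rw [if_pos h, if_pos h.symm]
    by_cases h' : p = q
    · rw [if_pos h', if_pos h'.symm]
    · rw [if_neg h', if_neg (Ne.symm h')]
  · rw [if_neg h, if_neg (Ne.symm h), Sym2.eq_swap]
    congr 1
    ring

/-- The weights of the gadget graph, as a function of pairs. -/
noncomputable def ww (O : Finset V) (y : Sym2 V → ℝ) : Sym2 (Cp O) → ℝ :=
  Sym2.lift ⟨fw O y, fw_symm O y⟩

private theorem ww_mk (O : Finset V) (y : Sym2 V → ℝ) (p q : Cp O) : ww O y s(p, q) = fw O y p q := rfl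

private theorem fw_self (O : Finset V) (y : Sym2 V → ℝ) (p : Cp O) : fw O y p p = 0 := by
  unfold fw
  rw [if_pos rfl, if_pos rfl]

private theorem ww_diag (O : Finset V) (y : Sym2 V → ℝ) (e : Sym2 (Cp O)) (he : e.IsDiag) : ww O y e = 0 := by
  induction e using Sym2.ind with
  | _ a b =>
    rw [Sym2.mk_isDiag_iff] at he
    rw [he, ww_mk, fw_self]

private theorem fw_nonneg {O : Finset V} {y : Sym2 V → ℝ} (hy : ∀ e, 0 ≤ y e) (p q : Cp O) : 0 ≤ fw O y p q := by
  unfold fw
  split_ifs
  · exact le_rfl
  · norm_num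
  · have h1 := mu_pos O (pj p)
    have h2 := mu_pos O (pj q)
    exact div_nonneg (hy _) (by positivity)

private theorem ww_nonneg {O : Finset V} {y : Sym2 V → ℝ} (hy : ∀ e, 0 ≤ y e) (e : Sym2 (Cp O)) : 0 ≤ ww O y e := by
  induction e using Sym2.ind with
  | _ a b => exact fw_nonneg hy a b

/-- The part of the weights at `v` over the edges of `G`. -/
private theorem sum_h {G : Finset (Sym2 V)} {y : Sym2 V → ℝ} (h : FracHam G y) (O : Finset V) (v : V) :
    ∑ q : Cp O, (if v = pj q then 0 else y s(v, pj q) / (2 * mu O v * mu O (pj q))) = 1 / mu O v := by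
  rw [sum_pj O fun w => if v = w then 0 else y s(v, w) / (2 * mu O v * mu O w)]
  have hc := h.vert v
  rw [H56Z.cutw_pairs, sum_singleton] at hc
  have h1 : ∀ w, mu O w * (if v = w then 0 else y s(v, w) / (2 * mu O v * mu O w)) =
      (if v = w then 0 else y s(v, w)) / (2 * mu O v) := by
    intro w
    have h2 := (mu_pos O w).ne'
    have h3 := (mu_pos O v).ne'
    split_ifs
    · simp
    · field_simp
  rw [sum_congr rfl fun w _ => h1 w, ← sum_div]
  have h4 : ∑ w, (if v = w then 0 else y s(v, w)) = 2 := by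
    rw [← hc]
    rw [← sum_sdiff (subset_univ {v} : {v} ⊆ (univ : Finset V)), sum_singleton, if_pos rfl, add_zero]
    refine sum_congr rfl fun w hw => ?_
    rw [if_neg]
    rintro rfl
    simp at hw
  rw [h4]
  have h3 := (mu_pos O v).ne'
  field_simp

private theorem row {G : Finset (Sym2 V)} {y : Sym2 V → ℝ} (h : FracHam G y) (O : Finset V) (p : Cp O) :
    ∑ q, fw O y p q = 1 := by
  have h1 : ∀ q, fw O y p q = (if pj p = pj q then 0 else y s(pj p, pj q) / (2 * mu O (pj p) * mu O (pj q))) +
      (if pj p = pj q then (if p = q then 0 else 1 / 2) else 0) := by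
    intro q
    unfold fw
    split_ifs <;> simp
  rw [sum_congr rfl fun q _ => h1 q, sum_add_distrib, sum_h h]
  by_cases hp : pj p ∈ O
  · have h2 : ∑ q : Cp O, (if pj p = pj q then (if p = q then (0 : ℝ) else 1 / 2) else 0) = 0 := by
      refine sum_eq_zero fun q _ => ?_
      by_cases h3 : pj p = pj q
      · rw [if_pos h3, if_pos (uniq p hp q h3.symm).symm]
      · rw [if_neg h3]
    rw [h2, add_zero]
    unfold mu
    rw [if_pos hp]
    norm_num
  · obtain ⟨p', hne, hpp, hall⟩ := part p hp
    have h2 : ∑ q : Cp O, (if pj p = pj q then (if p = q then (0 : ℝ) else 1 / 2) else 0) = 1 / 2 := by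
      rw [← sum_sdiff (subset_univ {p'} : {p'} ⊆ (univ : Finset (Cp O))), sum_singleton, if_pos hpp.symm,
        if_neg hne.symm]
      have h3 : ∑ q ∈ univ \ {p'}, (if pj p = pj q then (if p = q then (0 : ℝ) else 1 / 2) else 0) = 0 := by
        refine sum_eq_zero fun q hq => ?_
        by_cases h3 : pj p = pj q
        · rw [if_pos h3]
          rcases hall q h3.symm with h4 | h4
          · rw [if_pos h4.symm]
          · rw [h4] at hq
            simp at hq
        · rw [if_neg h3]
      rw [h3, zero_add]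
    rw [h2]
    unfold mu
    rw [if_neg hp]
    norm_num

private theorem cut_odd {G : Finset (Sym2 V)} {y : Sym2 V → ℝ} (h : FracHam G y) (O : Finset V)
    (hO : Even O.card) (C : Finset (Cp O)) (hC : Odd C.card) :
    1 ≤ ∑ a ∈ C, ∑ b ∈ univ \ C, fw O y a b := by
  by_cases hcase : ∃ p ∈ C, ∃ p', p' ∉ C ∧ pj p' = pj p
  · obtain ⟨p, hp, p', hp', hpp⟩ := hcase
    have hne : p ≠ p' := by
      rintro rfl
      exact hp' hp
    have hpO : pj p ∉ O := fun hO' => hne (uniq p hO' p' hpp).symm
    have hmu : mu O (pj p) = 2 := by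
      unfold mu
      rw [if_neg hpO]
    set H : Cp O → ℝ := fun q => if pj p = pj q then 0 else y s(pj p, pj q) / (2 * mu O (pj p) * mu O (pj q)) with hH
    have hH0 : ∀ q, 0 ≤ H q := by
      intro q
      simp only [hH]
      split_ifs
      · exact le_rfl
      · have h1 := mu_pos O (pj p)
        have h2 := mu_pos O (pj q)
        exact div_nonneg (h.nonneg _) (by positivity)
    have hfp : ∀ q, H q ≤ fw O y p q := by
      intro q
      by_cases h3 : pj p = pj q
      · simp only [hH, if_pos h3]
        exact fw_nonneg h.nonneg _ _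
      · simp only [hH, fw, if_neg h3]
        exact le_rfl
    have hfp' : ∀ q, H q ≤ fw O y q p' := by
      intro q
      rw [fw_symm]
      by_cases h3 : pj p = pj q
      · simp only [hH, if_pos h3]
        exact fw_nonneg h.nonneg _ _
      · simp only [hH, fw, hpp, if_neg h3]
        exact le_rfl
    have h1 : ∑ b ∈ univ \ C, H b + 1 / 2 ≤ ∑ b ∈ univ \ C, fw O y p b := by
      have h2 : fw O y p p' - H p' ≤ ∑ b ∈ univ \ C, (fw O y p b - H b) :=
        single_le_sum (f := fun b => fw O y p b - H b) (fun b _ => sub_nonneg.2 (hfp b)) (by simp [hp'])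
      have h3 : fw O y p p' = 1 / 2 := by
        unfold fw
        rw [if_pos hpp.symm, if_neg hne]
      have h4 : H p' = 0 := by
        simp only [hH]
        rw [if_pos hpp.symm]
      rw [h3, h4, sum_sub_distrib] at h2
      linarith
    have h2 : ∑ a ∈ C.erase p, H a ≤ ∑ a ∈ C.erase p, ∑ b ∈ univ \ C, fw O y a b := by
      refine sum_le_sum fun a _ => (hfp' a).trans ?_
      exact single_le_sum (f := fun b => fw O y a b) (fun b _ => fw_nonneg h.nonneg _ _) (by simp [hp'])
    have h3 : ∑ a ∈ C, H a = ∑ a ∈ C.erase p, H a := by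
      rw [← add_sum_erase C H hp]
      have : H p = 0 := by simp only [hH, if_pos]
      rw [this, zero_add]
    have h4 : ∑ a ∈ C, ∑ b ∈ univ \ C, fw O y a b = ∑ b ∈ univ \ C, fw O y p b +
        ∑ a ∈ C.erase p, ∑ b ∈ univ \ C, fw O y a b := (add_sum_erase C _ hp).symm
    have h5 : ∑ b ∈ univ \ C, H b + ∑ a ∈ C, H a = 1 / 2 := by
      rw [sum_sdiff (subset_univ C)]
      have := sum_h h O (pj p)
      rw [hmu] at this
      simp only [hH, hmu]
      exact this
    linarith
  · push Not at hcase
    set S : Finset V := C.image pj with hS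
    have hmem : ∀ q : Cp O, q ∈ C ↔ pj q ∈ S := by
      intro q
      constructor
      · exact fun hq => mem_image_of_mem _ hq
      · intro hq
        obtain ⟨p, hp, hpq⟩ := mem_image.1 hq
        by_contra hcon
        exact hcase p hp q hcon hpq.symm
    -- the number of copies
    have hcard : (C.card : ℤ) = 2 * S.card - (S ∩ O).card := by
      have h1 : (C.card : ℝ) = ∑ q : Cp O, (if pj q ∈ S then (1 : ℝ) else 0) := by
        rw [← sum_filter, sum_const, nsmul_eq_mul, mul_one]
        congr 2
        ext q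
        simp [hmem q]
      rw [sum_pj O fun v => if v ∈ S then (1 : ℝ) else 0] at h1
      have h2 : ∀ v, mu O v * (if v ∈ S then (1 : ℝ) else 0) =
          2 * (if v ∈ S then (1 : ℝ) else 0) - (if v ∈ S ∩ O then (1 : ℝ) else 0) := by
        intro v
        unfold mu
        by_cases hv : v ∈ O <;> by_cases hvS : v ∈ S <;> simp [hv, hvS] <;> norm_num
      rw [sum_congr rfl fun v _ => h2 v, sum_sub_distrib, ← mul_sum, ← sum_filter, ← sum_filter, sum_const,
        sum_const, nsmul_eq_mul, nsmul_eq_mul, mul_one, mul_one, filter_mem_eq_inter, filter_mem_eq_inter,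
        univ_inter, univ_inter] at h1
      have h3 : ((C.card : ℤ) : ℝ) = ((2 * S.card - (S ∩ O).card : ℤ) : ℝ) := by
        push_cast
        exact h1
      exact_mod_cast h3
    have hSne : S.Nonempty := by
      rw [hS, image_nonempty]
      rw [← card_pos]
      exact hC.pos
    have hSu : S ≠ univ := by
      intro hSu
      rw [hSu, univ_inter] at hcard
      obtain ⟨k, hk⟩ := hC
      obtain ⟨l, hl⟩ := hO
      omega
    have h1 := h.cut S hSne hSu
    rw [H56Z.cutw_pairs] at h1
    have h2 : ∀ a : Cp O, ∀ b : Cp O, a ∈ C → b ∉ C →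
        fw O y a b = y s(pj a, pj b) / (2 * mu O (pj a) * mu O (pj b)) := by
      intro a b ha hb
      unfold fw
      rw [if_neg]
      intro hab
      rw [hmem] at ha hb
      exact hb (hab ▸ ha)
    have h3 : ∑ a ∈ C, ∑ b ∈ univ \ C, fw O y a b =
        ∑ a : Cp O, (if pj a ∈ S then (∑ b : Cp O, if pj b ∈ S then 0 else
          y s(pj a, pj b) / (2 * mu O (pj a) * mu O (pj b))) else 0) := by
      rw [← sum_filter]
      have h4 : (univ.filter fun a : Cp O => pj a ∈ S) = C := by
        ext a
        simp [hmem a]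
      rw [h4]
      refine sum_congr rfl fun a ha => ?_
      rw [← sum_sdiff (subset_univ C)]
      have h5 : ∑ b ∈ C, (if pj b ∈ S then 0 else y s(pj a, pj b) / (2 * mu O (pj a) * mu O (pj b))) = 0 :=
        sum_eq_zero fun b hb => if_pos ((hmem b).1 hb)
      rw [h5, add_zero]
      refine sum_congr rfl fun b hb => ?_
      have hb' : b ∉ C := (mem_sdiff.1 hb).2
      rw [h2 a b ha hb', if_neg fun hh => hb' ((hmem b).2 hh)]
    rw [h3, sum_pj O fun v => if v ∈ S then (∑ b : Cp O, if pj b ∈ S then 0 else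
          y s(v, pj b) / (2 * mu O v * mu O (pj b))) else 0]
    have h6 : ∀ v, mu O v * (if v ∈ S then (∑ b : Cp O, if pj b ∈ S then 0 else
          y s(v, pj b) / (2 * mu O v * mu O (pj b))) else 0) =
        if v ∈ S then (∑ w ∈ univ \ S, y s(v, w)) / 2 else 0 := by
      intro v
      by_cases hv : v ∈ S
      · rw [if_pos hv, if_pos hv, sum_pj O fun w => if w ∈ S then 0 else
          y s(v, w) / (2 * mu O v * mu O w), mul_sum, sum_div, ← sum_sdiff (subset_univ S)]
        have h7 : ∑ w ∈ S, mu O v * (mu O w * (if w ∈ S then 0 else y s(v, w) / (2 * mu O v * mu O w))) = 0 :=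
          sum_eq_zero fun w hw => by rw [if_pos hw, mul_zero, mul_zero]
        rw [h7, add_zero]
        refine sum_congr rfl fun w hw => ?_
        rw [if_neg (mem_sdiff.1 hw).2]
        have h8 := (mu_pos O w).ne'
        have h9 := (mu_pos O v).ne'
        field_simp
      · rw [if_neg hv, if_neg hv, mul_zero]
    rw [sum_congr rfl fun v _ => h6 v, ← sum_filter, filter_mem_eq_inter, univ_inter, ← sum_div]
    linarith

open scoped Classical in
/-- The gadget graph: the pairs of positive weight. -/
private noncomputable def GG (O : Finset V) (y : Sym2 V → ℝ) :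
    Pool.Agent.H1FR.MGraph (Cp O) {e : Sym2 (Cp O) // 0 < ww O y e} where
  ends := Subtype.val
  not_loop := fun e he => by
    have := e.2
    rw [ww_diag O y e.1 he] at this
    exact lt_irrefl _ this

open scoped Classical in
private theorem sub_sum (O : Finset V) (y : Sym2 V → ℝ) (g : Sym2 (Cp O) → ℝ) (hg : ∀ e, ¬ 0 < ww O y e → g e = 0) :
    ∑ e : {e : Sym2 (Cp O) // 0 < ww O y e}, g e.1 = ∑ e, g e := by
  have h1 : ∑ e, g e = ∑ e ∈ univ.filter (fun e => 0 < ww O y e), g e := by
    rw [sum_filter]
    refine sum_congr rfl fun e _ => ?_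
    split_ifs with h2
    · rfl
    · exact hg e h2
  rw [h1]
  exact (Finset.sum_subtype (univ.filter fun e => 0 < ww O y e) (by simp) g).symm

open scoped Classical in
/-- A cheap perfect matching of the gadget graph. -/
private theorem exists_M {G : Finset (Sym2 V)} {y : Sym2 V → ℝ} (h : FracHam G y) (O : Finset V)
    (hO : Even O.card) : ∃ M : Finset (Sym2 (Cp O)), (∀ e ∈ M, 0 < ww O y e) ∧
      (∀ p : Cp O, ∃ e ∈ M, p ∈ e ∧ ∀ f ∈ M, p ∈ f → f = e) ∧
      2 * (M.filter fun e => ¬ (e.map pj).IsDiag).card ≤ Fintype.card V := by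
  have hnn := fun e => ww_nonneg (O := O) h.nonneg e
  have hz : ∀ e, ¬ 0 < ww O y e → ww O y e = 0 := fun e he => le_antisymm (not_lt.1 he) (hnn e)
  obtain ⟨M, hM, hcost⟩ := (GG O y).exists_pm (fun e => ww O y e.1) (fun e => e.2) (by
      intro q
      have h1 : ∑ e ∈ (GG O y).at_ univ q, ww O y e.1 =
          ∑ e : {e : Sym2 (Cp O) // 0 < ww O y e}, (fun e : Sym2 (Cp O) => if q ∈ e then ww O y e else 0) e.1 := by
        unfold Pool.Agent.H1FR.MGraph.at_
        rw [sum_filter]
        refine sum_congr rfl fun e _ => ?_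
        by_cases hq : q ∈ e.1
        · exact (if_pos hq).trans (if_pos hq).symm
        · exact (if_neg hq).trans (if_neg hq).symm
      rw [h1, sub_sum O y (fun e : Sym2 (Cp O) => if q ∈ e then ww O y e else 0), ← sum_filter]
      · rw [← H43G.cutw_single (ww_diag O y) q, H56Z.cutw_pairs, sum_singleton]
        rw [← row h O q, ← sum_sdiff (subset_univ {q} : {q} ⊆ (univ : Finset (Cp O))), sum_singleton, fw_self,
          add_zero]
        rfl
      · intro e he
        simp only [hz e he, ite_self])
    (by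
      intro C hC
      have h1 : ∑ e ∈ (GG O y).cut C, ww O y e.1 =
          ∑ e : {e : Sym2 (Cp O) // 0 < ww O y e}, (fun e : Sym2 (Cp O) => ww O y e * px e C) e.1 := by
        unfold Pool.Agent.H1FR.MGraph.cut
        rw [sum_filter]
        refine sum_congr rfl fun e _ => ?_
        by_cases h2 : ∃ a b, (GG O y).ends e = s(a, b) ∧ a ∈ C ∧ b ∉ C
        · rw [if_pos h2]
          obtain ⟨a, b, h3, ha, hb⟩ := h2
          have h4 : px e.1 C = 1 := by
            unfold px
            rw [if_pos ⟨a, ha, b, hb, h3⟩]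
          simp only [h4, mul_one]
        · rw [if_neg h2]
          have h4 : px e.1 C = 0 := by
            unfold px
            rw [if_neg]
            rintro ⟨a, ha, b, hb, h3⟩
            exact h2 ⟨a, b, h3, ha, hb⟩
          simp only [h4, mul_zero]
      rw [h1, sub_sum O y (fun e : Sym2 (Cp O) => ww O y e * px e C)]
      · have h2 := cut_odd h O hO C hC
        have h3 : ∑ e, ww O y e * px e C = cutw (ww O y) C := rfl
        rw [h3, H56Z.cutw_pairs]
        exact h2
      · intro e he
        rw [hz e he, zero_mul])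
    (fun e => if (e.1.map pj).IsDiag then 0 else 1) (by
      intro e
      split_ifs <;> norm_num)
  refine ⟨M.image Subtype.val, ?_, ?_, ?_⟩
  · intro e he
    obtain ⟨f, _, rfl⟩ := mem_image.1 he
    exact f.2
  · intro p
    obtain ⟨e, he⟩ := card_eq_one.1 (hM p)
    have h1 : e ∈ (GG O y).at_ M p := by
      rw [he]
      exact mem_singleton_self e
    rw [Pool.Agent.H1FR.MGraph.mem_at] at h1
    refine ⟨e.1, mem_image_of_mem _ h1.1, h1.2, ?_⟩
    intro f hf hpf
    obtain ⟨f', hf', rfl⟩ := mem_image.1 hf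
    have h2 : f' ∈ (GG O y).at_ M p := Pool.Agent.H1FR.MGraph.mem_at.2 ⟨hf', hpf⟩
    rw [he, mem_singleton] at h2
    rw [h2]
  · have h1 : ∑ e : {e : Sym2 (Cp O) // 0 < ww O y e}, ww O y e.1 * (if (e.1.map pj).IsDiag then (0 : ℝ) else 1) =
        ∑ e, ww O y e * (if (e.map pj).IsDiag then (0 : ℝ) else 1) :=
      sub_sum O y (fun e : Sym2 (Cp O) => ww O y e * (if (e.map pj).IsDiag then (0 : ℝ) else 1))
        (fun e he => by rw [hz e he, zero_mul])
    rw [h1] at hcost
    -- twice the cost of the weights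
    have h2 := H43G.sum_deg (y := fun e : Sym2 (Cp O) => ww O y e * (if (e.map pj).IsDiag then (0 : ℝ) else 1))
      (fun e he => by rw [ww_diag O y e he, zero_mul])
    have h3 : ∀ p : Cp O, cutw (fun e : Sym2 (Cp O) => ww O y e * (if (e.map pj).IsDiag then (0 : ℝ) else 1)) {p} =
        1 / mu O (pj p) := by
      intro p
      rw [H56Z.cutw_pairs, sum_singleton, ← sum_h h O (pj p),
        ← sum_sdiff (subset_univ {p} : {p} ⊆ (univ : Finset (Cp O))), sum_singleton, if_pos rfl, add_zero]
      refine sum_congr rfl fun q _ => ?_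
      rw [ww_mk, Sym2.map_mk]
      by_cases h4 : pj p = pj q
      · have h5 : (s(pj p, pj q) : Sym2 V).IsDiag := Sym2.mk_isDiag_iff.2 h4
        rw [if_pos h5, if_pos h4, mul_zero]
      · have h5 : ¬ (s(pj p, pj q) : Sym2 V).IsDiag := fun h6 => h4 (Sym2.mk_isDiag_iff.1 h6)
        rw [if_neg h5, if_neg h4, mul_one]
        unfold fw
        rw [if_neg h4]
    rw [sum_congr rfl fun p _ => h3 p, sum_pj O fun v => 1 / mu O v] at h2
    have h4 : ∑ v, mu O v * (1 / mu O v) = (Fintype.card V : ℝ) := by
      rw [sum_congr rfl fun v _ => mul_one_div_cancel (mu_pos O v).ne']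
      simp
    rw [h4] at h2
    have h5 : ∑ e ∈ M, (if (e.1.map pj).IsDiag then (0 : ℝ) else 1) =
        (((M.image Subtype.val).filter fun e => ¬ (e.map pj).IsDiag).card : ℝ) := by
      rw [← sum_filter_add_sum_filter_not M (fun e => (e.1.map pj).IsDiag)]
      rw [sum_congr rfl fun e he => if_pos (mem_filter.1 he).2, sum_const_zero, zero_add,
        sum_congr rfl fun e he => if_neg (mem_filter.1 he).2, sum_const, nsmul_eq_mul, mul_one, filter_image,
        card_image_of_injective _ Subtype.val_injective]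
    have h6 : 2 * (((M.image Subtype.val).filter fun e => ¬ (e.map pj).IsDiag).card : ℝ) ≤ Fintype.card V := by
      rw [← h5]
      linarith
    exact_mod_cast h6

/-- THE JOIN LEMMA with cost. -/
theorem join {G : Finset (Sym2 V)} {y : Sym2 V → ℝ} (h : FracHam G y) (O : Finset V)
    (hO : Even O.card) : ∃ j : Sym2 V → ℕ, (∀ e, j e ≠ 0 → e ∈ G) ∧ (∀ v ∈ O, ∑ e with v ∈ e, j e = 1) ∧
      (∀ v, v ∉ O → (∑ e with v ∈ e, j e = 0 ∨ ∑ e with v ∈ e, j e = 2)) ∧ 2 * ∑ e, j e ≤ Fintype.card V := by
  classical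
  obtain ⟨M, hpos, hpm, hcard⟩ := exists_M h O hO
  choose em hemM hem huniq using hpm
  set N : Finset (Sym2 (Cp O)) := M.filter fun e => ¬ (e.map pj).IsDiag with hN
  -- the degree of the multiplicities
  have hdeg : ∀ v, ∑ e with v ∈ e, (N.filter fun f => f.map pj = e).card =
      (N.filter fun f => v ∈ f.map pj).card := by
    intro v
    rw [card_eq_sum_card_fiberwise (f := fun f : Sym2 (Cp O) => f.map pj) (t := univ.filter fun e => v ∈ e)]
    · refine sum_congr rfl fun e he => ?_
      congr 1
      ext f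
      simp only [mem_filter]
      constructor
      · rintro ⟨h1, h2⟩
        refine ⟨⟨h1, ?_⟩, h2⟩
        rw [h2]
        exact (mem_filter.1 he).2
      · rintro ⟨⟨h1, _⟩, h2⟩
        exact ⟨h1, h2⟩
    · intro f hf
      have h1 := (mem_filter.1 (mem_coe.1 hf)).2
      exact mem_coe.2 (mem_filter.2 ⟨mem_univ _, h1⟩)
  have hmemN : ∀ p : Cp O, ¬ ((em p).map pj).IsDiag → em p ∈ N := fun p hp => mem_filter.2 ⟨hemM p, hp⟩
  -- the edges of `N` over the edges at `v`
  have hNv : ∀ v f, f ∈ N → v ∈ f.map pj → ∃ p : Cp O, pj p = v ∧ f = em p := by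
    intro v f hf hv
    obtain ⟨p, hp, hpv⟩ := Sym2.mem_map.1 hv
    exact ⟨p, hpv, huniq p f (mem_filter.1 hf).1 hp⟩
  have hvm : ∀ p : Cp O, pj p ∈ (em p).map pj := fun p => Sym2.mem_map.2 ⟨p, hem p, rfl⟩
  -- the other end
  have hoth : ∀ p : Cp O, ∃ q, q ≠ p ∧ em p = s(p, q) := by
    intro p
    obtain ⟨q, hq⟩ := Sym2.mem_iff_exists.1 (hem p)
    refine ⟨q, ?_, hq⟩
    rintro rfl
    have h1 := hpos _ (hemM q)
    rw [hq, ww_diag O y _ (Sym2.mk_isDiag_iff.2 rfl)] at h1
    exact lt_irrefl _ h1
  refine ⟨fun e => (N.filter fun f => f.map pj = e).card, ?_, ?_, ?_, ?_⟩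
  · intro e he
    obtain ⟨f, hf⟩ := card_ne_zero.1 he
    obtain ⟨hf1, hf2⟩ := mem_filter.1 hf
    obtain ⟨hf3, hf4⟩ := mem_filter.1 hf1
    have h1 := hpos f hf3
    by_contra hcon
    have h2 := h.supp e hcon
    induction f using Sym2.ind with
    | _ a b =>
      rw [ww_mk] at h1
      rw [Sym2.map_mk, Sym2.mk_isDiag_iff] at hf4
      unfold fw at h1
      rw [if_neg hf4] at h1
      have h3 : s(pj a, pj b) = e := hf2
      rw [h3, h2, zero_div] at h1
      exact lt_irrefl _ h1
  · intro v hv
    rw [hdeg v]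
    have h1 : (N.filter fun f => v ∈ f.map pj) = {em (Sum.inl v)} := by
      ext f
      rw [mem_filter, mem_singleton]
      constructor
      · rintro ⟨hf1, hf2⟩
        obtain ⟨p, hp, hfp⟩ := hNv v f hf1 hf2
        have h2 : p = Sum.inl v := uniq (Sum.inl v) hv p hp
        rw [hfp, h2]
      · rintro rfl
        refine ⟨hmemN _ ?_, hvm (Sum.inl v)⟩
        obtain ⟨q, hq1, hq2⟩ := hoth (Sum.inl v)
        rw [hq2, Sym2.map_mk, Sym2.mk_isDiag_iff]
        intro h3
        exact hq1 (uniq (Sum.inl v) hv q h3.symm)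
    rw [h1, card_singleton]
  · intro v hv
    rw [hdeg v]
    obtain ⟨p', hne, hpp, hall⟩ := part (Sum.inl v : Cp O) hv
    by_cases hd : em (Sum.inl v) = em p'
    · left
      rw [card_eq_zero, filter_eq_empty_iff]
      intro f hf hvf
      obtain ⟨p, hp, hfp⟩ := hNv v f hf hvf
      have h2 : f = em p' := by
        rcases hall p hp with h3 | h3
        · rw [hfp, h3, hd]
        · rw [hfp, h3]
      have h3 : em p' = s(Sum.inl v, p') := by
        have h4 := hem (Sum.inl v)
        rw [hd] at h4
        have h5 := hem p'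
        exact (Sym2.mem_and_mem_iff hne.symm).1 ⟨h4, h5⟩
      refine (mem_filter.1 hf).2 ?_
      rw [h2, h3, Sym2.map_mk, Sym2.mk_isDiag_iff]
      exact hpp.symm
    · right
      have hnd : ∀ p p'' : Cp O, pj p ∉ O → pj p'' = pj p → p'' ≠ p → em p ≠ em p'' → ¬ ((em p).map pj).IsDiag := by
        intro p p'' hp hpq hne' hee hdiag
        obtain ⟨q, hq1, hq2⟩ := hoth p
        rw [hq2, Sym2.map_mk, Sym2.mk_isDiag_iff] at hdiag
        obtain ⟨r, _, _, hr⟩ := part p hp
        have h3 : q = r := (hr q hdiag.symm).resolve_left hq1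
        have h4 : p'' = r := (hr p'' hpq).resolve_left hne'
        have h5 : q = p'' := h3.trans h4.symm
        have h6 : p'' ∈ em p := by
          rw [hq2, h5]
          exact Sym2.mem_mk_right _ _
        exact hee (huniq p'' (em p) (hemM p) h6)
      have h1 : (N.filter fun f => v ∈ f.map pj) = {em (Sum.inl v), em p'} := by
        ext f
        rw [mem_filter, mem_insert, mem_singleton]
        constructor
        · rintro ⟨hf1, hf2⟩
          obtain ⟨p, hp, hfp⟩ := hNv v f hf1 hf2
          rcases hall p hp with h3 | h3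
          · left
            rw [hfp, h3]
          · right
            rw [hfp, h3]
        · rintro (rfl | rfl)
          · exact ⟨hmemN _ (hnd _ p' hv hpp hne hd), hvm (Sum.inl v)⟩
          · refine ⟨hmemN _ (hnd p' (Sum.inl v) (by rw [hpp]; exact hv) hpp.symm hne.symm (Ne.symm hd)), ?_⟩
            have h3 := hvm p'
            rw [hpp] at h3
            exact h3
      rw [h1, card_pair hd]
  · have h1 : ∑ e, (N.filter fun f => f.map pj = e).card = N.card :=
      (card_eq_sum_card_fiberwise (f := fun f : Sym2 (Cp O) => f.map pj) (t := univ)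
        (fun f _ => mem_coe.2 (mem_univ _))).symm
    rw [h1]
    exact hcard

end H13W
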