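import Pool.Agent.Lib.H13W.D
import Pool.Agent.Lib.H13J.G1
import Pool.Agent.Lib.H13J.G2a

set_option autoImplicit false

open scoped unitInterval Polynomial

namespace H13W

open H13K H13M

variable {n : ℕ} {ι : Type}

/-- The complement of a set `E` in the line over `z₀`. -/
private abbrev s6Z (E : Set ℂ) : Type := {w : ℂ // w ∉ E}

/-- A path in a convex set which misses `E`. -/
private theorem s6_path {E C : Set ℂ} (hC : Convex ℝ C) (hCE : ∀ z ∈ C, z ∉ E) (y y' : s6Z E)
    (hy : y.1 ∈ C) (hy' : y'.1 ∈ C) : ∃ p : Path y y', ∀ t, (p t).1 ∈ C := by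
  have hpc := hC.isPathConnected ⟨_, hy⟩
  obtain ⟨γ, hγ⟩ := hpc.joinedIn _ hy _ hy'
  refine ⟨{ toFun := fun t => ⟨γ t, hCE _ (hγ t)⟩
            continuous_toFun := by
              apply Continuous.subtype_mk
              exact γ.continuous
            source' := by
              apply Subtype.ext
              simp
            target' := by
              apply Subtype.ext
              simp }, ?_⟩
  intro t
  exact hγ t

/-- A loop in a convex set which misses `E` has value one. -/
private theorem s6_kill {E C : Set ℂ} (hC : Convex ℝ C) (hCE : ∀ z ∈ C, z ∉ E) {G : Type} [Group G]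
    (Φ : PF (s6Z E) G) (y : s6Z E) (q : Path y y) (hq : ∀ t, (q t).1 ∈ C) : Φ.val q = 1 := by
  have hy : y.1 ∈ C := by
    have h := hq 0
    rwa [q.source] at h
  have hK : ContractibleSpace C := hC.contractibleSpace ⟨_, hy⟩
  let F : C(C, s6Z E) :=
    { toFun := fun z => ⟨z.1, hCE _ z.2⟩
      continuous_toFun := by
        apply Continuous.subtype_mk
        exact continuous_subtype_val }
  let q' : Path (⟨y.1, hy⟩ : C) ⟨y.1, hy⟩ :=
    { toFun := fun t => ⟨(q t).1, hq t⟩
      continuous_toFun := by
        apply Continuous.subtype_mk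
        exact continuous_subtype_val.comp q.continuous
      source' := by
        apply Subtype.ext
        simp
      target' := by
        apply Subtype.ext
        simp }
  have h1 : q = q'.map F.continuous := by
    apply Path.ext
    funext t
    rfl
  have h2 : (Φ.comap F).val q' = 1 := by
    rw [PF.val_eq_of_simplyConnected (Φ.comap F) q' (Path.refl _), PF.val_refl]
  rw [h1]
  exact h2

/-- If every element is the value of a loop in the line over z₀, the group is finitely generated.
Proof: Z = {w | ∀ i, ev (P i) (z₀, w) ≠ 0} = ℂ minus a finite set E (P i monic); `convex_cover E`;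
`fg_image` for the functional U.comap (w ↦ (z₀, w)) on Z, O j = C j (convex sets are path connected, their
intersections too, loops in a convex set are null homotopic: value 1). -/
theorem group_fg_aux [Finite ι] (P : ι → (MvPolynomial (Fin n) ℂ)[X]) (hm : ∀ i, (P i).Monic)
    (x₀ : NX P) {G : Type} [Group G] (U : PF (NX P) G)
    (hs : ∀ g : G, ∃ p : Path x₀ x₀, (∀ t, (p t).1.1 = x₀.1.1) ∧ U.val p = g) : Group.FG G := by
  set E : Set ℂ := {w | ∃ i, ev (P i) (x₀.1.1, w) = 0} with hE
  have hfin : E.Finite := by
    have h1 : E = ⋃ i, {w : ℂ | ev (P i) (x₀.1.1, w) = 0} := by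
      ext w
      simp [hE]
    rw [h1]
    apply Set.finite_iUnion
    intro i
    have hne : (P i).map (MvPolynomial.eval x₀.1.1) ≠ 0 := ((hm i).map _).ne_zero
    refine (((P i).map (MvPolynomial.eval x₀.1.1)).roots.toFinset.finite_toSet).subset ?_
    intro w hw
    rw [Finset.mem_coe, Multiset.mem_toFinset, Polynomial.mem_roots hne, Polynomial.IsRoot.def]
    exact hw
  have hmem : ∀ w : s6Z E, ((x₀.1.1, w.1) : (Fin n → ℂ) × ℂ) ∈ NX P := fun w i h => w.2 ⟨i, h⟩
  let j : C(s6Z E, NX P) :=
    { toFun := fun w => ⟨(x₀.1.1, w.1), hmem w⟩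
      continuous_toFun := by
        apply Continuous.subtype_mk
        exact continuous_const.prodMk continuous_subtype_val }
  have hx : x₀.1.2 ∉ E := by
    rintro ⟨i, hi⟩
    exact x₀.2 i hi
  obtain ⟨N, C, hC, hcov⟩ := H13J.convex_cover E hfin
  obtain ⟨S, hS⟩ := H13J.fg_image (U.comap j) (⟨x₀.1.2, hx⟩ : s6Z E) (Fin N)
    (fun k => {w | w.1 ∈ C k}) (fun k => (hC k).1.preimage continuous_subtype_val)
    (fun z => hcov z.1 z.2)
    (fun k y hy y' hy' => s6_path (hC k).2.1 (hC k).2.2 y y' hy hy')
    (fun k l y hy y' hy' => s6_path ((hC k).2.1.inter (hC l).2.1) (fun z hz => (hC k).2.2 z hz.1)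
      y y' hy hy')
    (fun k y _ p hp => s6_kill (hC k).2.1 (hC k).2.2 (U.comap j) y p hp)
  refine ⟨⟨S, ?_⟩⟩
  rw [eq_top_iff]
  intro g _
  have hg : g ∈ (Subgroup.closure (S : Set G) : Set G) := by
    rw [hS]
    obtain ⟨p, hp1, hp2⟩ := hs g
    have hpe : ∀ t, (p t).1.2 ∉ E := by
      rintro t ⟨i, hi⟩
      apply (p t).2 i
      rw [← hp1 t] at hi
      exact hi
    let p' : Path (⟨x₀.1.2, hx⟩ : s6Z E) ⟨x₀.1.2, hx⟩ :=
      { toFun := fun t => ⟨(p t).1.2, hpe t⟩
        continuous_toFun := by
          apply Continuous.subtype_mk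
          exact continuous_snd.comp (continuous_subtype_val.comp p.continuous)
        source' := by
          apply Subtype.ext
          simp
        target' := by
          apply Subtype.ext
          simp }
    refine ⟨p', ?_⟩
    have h1 : p'.map j.continuous = p := by
      apply Path.ext
      funext t
      apply Subtype.ext
      apply Prod.ext
      · exact (hp1 t).symm
      · rfl
    have h2 : (U.comap j).val p' = U.val (p'.map j.continuous) := rfl
    rw [h2]
    exact (congrArg U.val h1).trans hp2
  exact hg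

end H13W
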