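import Pool.Agent.Lib.H13W.S5
import Pool.Agent.Lib.H13W.S6

set_option autoImplicit false

open scoped unitInterval Polynomial

namespace H13W

open H13K H13M

variable {n : ℕ} {ι : Type}

/-- Every element of the group is the value of a loop in the line over z₀.
Proof: let H be the set of values of the loops at x₀ in the line {z = z₀} (a subgroup).
(1) isotopy: over a small ball B around b with r ≠ 0 on B the roots of all P i are continuous distinct
functions f_1, .., f_M (H13M.local_roots), and with the explicit isotopy of Lib/H13J/L0.lean (base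
Fin n → ℂ instead of ℂ) a path over B from (z, w) to (z', w') with z = z' is homotopic in NX P to a path in
the line over z: (τ, t) ↦ (z_τ t, ψ (z t, z_τ t, w t)), z_τ t = (1 - τ) z t + τ z'.
(2) transport as in Lib/H13J/N2a.lean: for a path γ in NX P over {r ≠ 0} from x to y and a loop p in the line
over x there is a loop q in the line over y with U q = U γ * U p * (U γ)⁻¹; arbitrary paths between
points over r ≠ 0 can be moved off {r = 0} (H13M.surj / C19, or NX_convex_pc: for a loop or path of
NX P the hypersurface r(z) = 0 is a further member of the complement; see also Lib/H13J/T1b.lean).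
(3) So H is normal.  Every meridian of P i over r ≠ 0 is in H up to conjugation: transport it to z₀, or use
(2) for p = meridian.  So the functional U modulo H kills all meridians and `H13M.kills_all` gives
U modulo H = 1. -/
theorem fibre_surj [Finite ι] (P : ι → (MvPolynomial (Fin n) ℂ)[X]) (hm : ∀ i, (P i).Monic)
    (hirr : ∀ i, Irreducible (P i)) (r : MvPolynomial (Fin n) ℂ) (hr : H13M.Disc P r) (x₀ : NX P)
    (hz : MvPolynomial.eval x₀.1.1 r ≠ 0) {G : Type} [Group G] (U : PF (NX P) G)
    (hU : ∀ g : G, ∃ p : Path x₀ x₀, U.val p = g) (g : G) :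
    ∃ p : Path x₀ x₀, (∀ t, (p t).1.1 = x₀.1.1) ∧ U.val p = g :=
  fibre_surj_aux P hm r hr x₀ hz U hU g

/-- The group is finitely generated.
Proof: `fibre_surj` and the finite good cover of ℂ minus finitely many points by convex open sets
(H13J.G2a convex_cover, H13J.G1 fg_image). -/
theorem group_fg [Finite ι] (P : ι → (MvPolynomial (Fin n) ℂ)[X]) (hm : ∀ i, (P i).Monic)
    (hirr : ∀ i, Irreducible (P i)) (r : MvPolynomial (Fin n) ℂ) (hr : H13M.Disc P r) (x₀ : NX P)
    (hz : MvPolynomial.eval x₀.1.1 r ≠ 0) {G : Type} [Group G] (U : PF (NX P) G)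
    (hU : ∀ g : G, ∃ p : Path x₀ x₀, U.val p = g) : Group.FG G :=
  group_fg_aux P hm x₀ U fun g => fibre_surj P hm hirr r hr x₀ hz U hU g

end H13W
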