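import Pool.Agent.Lib.H13W.Core
import Pool.Agent.Lib.H13W.Bert
import Pool.Agent.Lib.H13W.Surj
import Pool.Agent.Lib.H13F2.F1
import Pool.Agent.Lib.H13M.C1
import Pool.Agent.Lib.H13M.C11
import Pool.Agent.Lib.H13M.C12
import Pool.Agent.Lib.H13K.G
import Pool.Agent.Lib.H13K.T2

set_option autoImplicit false

open scoped unitInterval Polynomial

namespace H13W

open H13K H13M

variable {n : ℕ} {ι : Type}

/-- Winding homomorphisms. -/
theorem wind_n (P : ι → (MvPolynomial (Fin n) ℂ)[X]) [PathConnectedSpace (NX P)] (x₀ : NX P)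
    (Φ : PF (NX P) (FundamentalGroup (NX P) x₀))
    (hΦ : ∀ p : Path x₀ x₀, Φ.val p = FundamentalGroup.fromPath (Path.Homotopic.Quotient.mk p))
    (l : ι) :
    ∃ w : FundamentalGroup (NX P) x₀ →* Multiplicative ℂ, ∀ (x : NX P) (p : Path x x)
      (ℓ : C(I, ℂ)), (∀ t, Complex.exp (ℓ t) = ev (P l) (p t).1) →
      (w (Φ.val p)).toAdd = (2 * Real.pi * Complex.I)⁻¹ * (ℓ 1 - ℓ 0) := by
  obtain ⟨L, hL⟩ := exists_log (⟨fun x : NX P => ev (P l) x.1,
    (continuous_ev (P l)).comp continuous_subtype_val⟩ : C(NX P, ℂ)) (fun x => x.2 l)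
  let ψ : Multiplicative ℂ →* Multiplicative ℂ :=
    AddMonoidHom.toMultiplicative (AddMonoidHom.mulLeft ((2 * Real.pi * Complex.I)⁻¹))
  have hψ : ∀ c : Multiplicative ℂ,
      (ψ c).toAdd = (2 * Real.pi * Complex.I)⁻¹ * c.toAdd := fun c => rfl
  obtain ⟨w, hw⟩ := exists_hom (L.push ψ) x₀
  refine ⟨w, ?_⟩
  intro x p ℓ hℓ
  have h1 := hom_univ (L.push ψ) x₀ Φ hΦ w hw x p
  rw [h1]
  have h2 : (L.push ψ).val p = ψ (L.val p) := rfl
  rw [h2, hψ, hL p ℓ hℓ]

/-- The discriminant of the restricted family. -/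
theorem disc_res (P : ι → (MvPolynomial (Fin n) ℂ)[X]) (r : MvPolynomial (Fin n) ℂ)
    (hr : H13M.Disc P r) (z v : Fin n → ℂ) (hz : MvPolynomial.eval z r ≠ 0) :
    H13K.Disc (fun i => res (P i) z v) (line z v r) := by
  have hd : ∀ p : (MvPolynomial (Fin n) ℂ)[X],
      Polynomial.derivative (res p z v) = res (Polynomial.derivative p) z v := by
    intro p
    rw [res, res, Polynomial.derivative_map]
  refine ⟨?_, ?_, ?_⟩
  · intro h0
    apply hz
    have h1 := eval_line z v 0 r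
    rw [h0, Polynomial.eval_zero] at h1
    rw [show (fun i => z i + 0 * v i) = z from funext fun i => by ring] at h1
    exact h1.symm
  · intro i t w ht hw
    rw [eval_line] at ht
    rw [hd]
    rw [evalEval_res] at hw ⊢
    exact hr.simple i _ ht hw
  · intro i j t w hij ht hw
    rw [eval_line] at ht
    rw [evalEval_res] at hw ⊢
    exact hr.disj i j _ hij ht hw

/-- The map of the complement to the base. -/
noncomputable def toN (P : ι → (MvPolynomial (Fin n) ℂ)[X]) (s : ι) (S : Finset ℂ)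
    (h : ∀ x : NX P, ev (P s) x.1 ∉ S) : C(NX P, {b : ℂ // b ∉ S}) where
  toFun x := ⟨ev (P s) x.1, h x⟩
  continuous_toFun := by
    apply Continuous.subtype_mk
    exact (continuous_ev (P s)).comp continuous_subtype_val

/-- The path of a vertical loop in the plane. -/
noncomputable def vert (P : ι → (MvPolynomial (Fin n) ℂ)[X]) (v : Fin n → ℂ) (x : NX P)
    (p : Path x x) (hp : ∀ t, (p t).1.1 = x.1.1) (y : CX (fun i => res (P i) x.1.1 v))
    (hy : y.1 = (0, x.1.2)) : Path y y where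
  toFun t := ⟨(0, (p t).1.2), fun i => by
    rw [evalEval_res]
    have h1 : ((fun j => x.1.1 j + 0 * v j, (p t).1.2) : (Fin n → ℂ) × ℂ) = (p t).1 := by
      apply Prod.ext
      · rw [hp t]
        funext j
        simp
      · rfl
    rw [h1]
    exact (p t).2 i⟩
  continuous_toFun := by
    apply Continuous.subtype_mk
    fun_prop
  source' := by
    apply Subtype.ext
    rw [hy]
    simp
  target' := by
    apply Subtype.ext
    rw [hy]
    simp

theorem incl_base (P : ι → (MvPolynomial (Fin n) ℂ)[X]) (v : Fin n → ℂ) (x : NX P)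
    (y : CX (fun i => res (P i) x.1.1 v)) (hy : y.1 = (0, x.1.2)) : incl P x.1.1 v y = x := by
  apply Subtype.ext
  show ((fun i => x.1.1 i + y.1.1 * v i, y.1.2) : (Fin n → ℂ) × ℂ) = x.1
  rw [hy]
  apply Prod.ext
  · funext j
    simp
  · rfl

theorem vert_incl (P : ι → (MvPolynomial (Fin n) ℂ)[X]) (v : Fin n → ℂ) (x : NX P)
    (p : Path x x) (hp : ∀ t, (p t).1.1 = x.1.1) (y : CX (fun i => res (P i) x.1.1 v))
    (hy : y.1 = (0, x.1.2)) :
    (vert P v x p hp y hy).map (incl P x.1.1 v).continuous =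
      p.cast (incl_base P v x y hy) (incl_base P v x y hy) := by
  apply Path.ext
  funext t
  apply Subtype.ext
  show ((fun i => x.1.1 i + 0 * v i, (p t).1.2) : (Fin n → ℂ) × ℂ) = (p t).1
  apply Prod.ext
  · rw [hp t]
    funext j
    simp
  · rfl

/-- Casting a null homotopic loop. -/
theorem homotopic_cast {X : Type} [TopologicalSpace X] {x y : X} (p : Path x x) (h : y = x)
    (hp : p.Homotopic (Path.refl x)) : (p.cast h h).Homotopic (Path.refl y) := by
  subst h
  exact hp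

/-- All members of the family differ by constants, and the kernel of the map to the free group is
finite. -/
theorem structure_n [Fintype ι] (P : ι → (MvPolynomial (Fin n) ℂ)[X]) (hm : ∀ i, (P i).Monic)
    (hirr : ∀ i, Irreducible (P i)) (hinj : Function.Injective P) (x₀ : NX P)
    (H : Subgroup (FundamentalGroup (NX P) x₀)) (hH : H.FiniteIndex) (A B : Type) [Group A]
    [Group B] [Nontrivial A] [Nontrivial B] (e : H ≃* Monoid.Coprod A B) (s : ι) :
    IsFreeGroup H ∧ Group.FG (FundamentalGroup (NX P) x₀) ∧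
      ∃ c : ι → ℂ, ∀ m, ∀ x : (Fin n → ℂ) × ℂ, ev (P m) x = ev (P s) x + c m := by
  classical
  have hpc : PathConnectedSpace (NX P) := by
    have h1 := NX_convex_pc P hm Set.univ convex_univ isOpen_univ ⟨0, trivial⟩
    rw [Set.univ_inter] at h1
    exact isPathConnected_iff_pathConnectedSpace.1 h1
  obtain ⟨r, hr⟩ := H13M.exists_disc P hm hirr hinj
  obtain ⟨Φ, hΦ⟩ := exists_univ x₀
  choose w hw using fun l => wind_n P x₀ Φ hΦ l
  -- surjectivity at every base point
  have hsurj : ∀ (x : NX P) (g : FundamentalGroup (NX P) x₀), ∃ p : Path x x, Φ.val p = g := by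
    intro x g
    obtain ⟨δ⟩ := PathConnectedSpace.joined x₀ x
    obtain ⟨p, hp⟩ : ∃ p : Path x₀ x₀, Φ.val p = (Φ.val δ)⁻¹ * g * Φ.val δ := by
      obtain ⟨p, hp⟩ := Quotient.exists_rep
        (FundamentalGroup.toPath ((Φ.val δ)⁻¹ * g * Φ.val δ))
      refine ⟨p, ?_⟩
      rw [hΦ]
      have h1 : Path.Homotopic.Quotient.mk p =
        FundamentalGroup.toPath ((Φ.val δ)⁻¹ * g * Φ.val δ) := hp
      rw [h1]
    refine ⟨δ.symm.trans (p.trans δ), ?_⟩
    rw [Φ.trans, Φ.trans, Φ.val_symm, hp]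
    group
  -- the open set of good base points
  have hro : IsOpen {z : Fin n → ℂ | MvPolynomial.eval z r ≠ 0} :=
    isOpen_ne_fun (MvPolynomial.continuous_eval r) continuous_const
  have hrd : Dense {z : Fin n → ℂ | MvPolynomial.eval z r ≠ 0} := by
    rw [Metric.dense_iff]
    intro z ε hε
    obtain ⟨w, hw, hw2⟩ := (pc_compl n r hr.ne (Metric.ball z ε) (convex_ball z ε)
      Metric.isOpen_ball ⟨z, Metric.mem_ball_self hε⟩).nonempty
    exact ⟨w, hw, hw2⟩
  -- the plane theorem at a good pair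
  have hplane : ∀ (x : NX P) (v : Fin n → ℂ), MvPolynomial.eval x.1.1 r ≠ 0 →
      (∀ i, Irreducible (res (P i) x.1.1 v)) →
      ∃ (c : ι → ℂ) (K : Subgroup (FundamentalGroup (NX P) x₀))
        (h : ∀ y : CX (fun i => res (P i) x.1.1 v),
          H13J.hval (fun i => res (P i) x.1.1 v) s y.1 ∉ SC c),
        (∀ m, res (P m) x.1.1 v = res (P s) x.1.1 v + Polynomial.C (Polynomial.C (c m))) ∧
        K.Normal ∧ K ⊓ H = ⊥ ∧
        ∀ (y : CX (fun i => res (P i) x.1.1 v)) (q : Path y y),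
          (q.map (toS _ s (SC c) h).continuous).Homotopic (Path.refl _) →
          Φ.val (q.map (incl P x.1.1 v).continuous) ∈ K := by
    intro x v hx hv
    have hy : (0, x.1.2) ∈ CX (fun i => res (P i) x.1.1 v) := by
      intro i
      rw [evalEval_res]
      have h1 : ((fun j => x.1.1 j + 0 * v j, x.1.2) : (Fin n → ℂ) × ℂ) = x.1 := by
        apply Prod.ext
        · funext j
          simp
        · rfl
      rw [h1]
      exact x.2 i
    refine core (fun i => res (P i) x.1.1 v) (fun i => res_monic (hm i) _ _) hv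
      (line x.1.1 v r) (disc_res P r hr x.1.1 v hx) ⟨(0, x.1.2), hy⟩
      (Φ.comap (incl P x.1.1 v)) ?_ w ?_ H hH A B e s
    · intro g
      obtain ⟨p, hp, hpg⟩ := fibre_surj P hm hirr r hr x hx Φ (hsurj x) g
      refine ⟨vert P v x p hp ⟨(0, x.1.2), hy⟩ rfl, ?_⟩
      show Φ.val ((vert P v x p hp ⟨(0, x.1.2), hy⟩ rfl).map (incl P x.1.1 v).continuous) = g
      rw [vert_incl, Φ.val_cast, hpg]
    · intro l y p ℓ hℓ
      refine hw l _ (p.map (incl P x.1.1 v).continuous) ℓ ?_
      intro t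
      rw [hℓ t]
      exact evalEval_res (P l) x.1.1 v _ _
  -- good pairs are dense
  have hQ : Dense {x : (Fin n → ℂ) × (Fin n → ℂ) | MvPolynomial.eval x.1 r ≠ 0 ∧
      ∀ i, Irreducible (res (P i) x.1 x.2)} := by
    rw [dense_iff_inter_open]
    intro O hO hne
    obtain ⟨⟨z, v⟩, hzv⟩ := hne
    have hO' : IsOpen (O ∩ {x : (Fin n → ℂ) × (Fin n → ℂ) | MvPolynomial.eval x.1 r ≠ 0}) :=
      hO.inter (hro.preimage continuous_fst)
    have hne' : (O ∩ {x : (Fin n → ℂ) × (Fin n → ℂ) | MvPolynomial.eval x.1 r ≠ 0}).Nonempty := by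
      have h1 : {z' : Fin n → ℂ | (z', v) ∈ O} ∈ nhds z :=
        (hO.preimage (by fun_prop : Continuous fun z' : Fin n → ℂ => (z', v))).mem_nhds hzv
      obtain ⟨z', hz', hz''⟩ := hrd.inter_nhds_nonempty h1
      exact ⟨(z', v), hz'', hz'⟩
    obtain ⟨x, hx, hxi⟩ := bertini P hm hirr _ hO' hne'
    exact ⟨x, hx.1, hx.2, hxi⟩
  -- a good pair and a base point
  obtain ⟨⟨z₁, v₁⟩, hz₁, hv₁⟩ := hQ.nonempty
  simp only at hz₁ hv₁
  have hvert : ∀ z : Fin n → ℂ, ∃ w : ℂ, (z, w) ∈ NX P := by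
    intro z
    have hprod : ((∏ i, P i).map (MvPolynomial.eval z)) ≠ 0 := by
      rw [Polynomial.map_prod]
      exact Finset.prod_ne_zero_iff.2 fun i _ => ((hm i).map _).ne_zero
    obtain ⟨w, hw⟩ : ∃ w, ((∏ i, P i).map (MvPolynomial.eval z)).eval w ≠ 0 := by
      by_contra hcon
      push Not at hcon
      exact hprod (Polynomial.funext fun w => by rw [hcon w, Polynomial.eval_zero])
    refine ⟨w, fun i h0 => hw ?_⟩
    rw [Polynomial.map_prod, Polynomial.eval_prod]
    exact Finset.prod_eq_zero (Finset.mem_univ i) h0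
  obtain ⟨w₁, hw₁⟩ := hvert z₁
  obtain ⟨c, K, h, hc, hKN, hKH, hK⟩ := hplane ⟨(z₁, w₁), hw₁⟩ v₁ hz₁ hv₁
  -- differences are constant
  have hconst : ∀ m, ∀ x : (Fin n → ℂ) × ℂ, ev (P m) x = ev (P s) x + c m := by
    intro m
    have hg : Continuous fun x : (Fin n → ℂ) × ℂ => ev (P m) x - ev (P s) x :=
      (continuous_ev (P m)).sub (continuous_ev (P s))
    have hd : ∀ (w : ℂ) (x : (Fin n → ℂ) × (Fin n → ℂ)),
        ev (P m) (x.1 + x.2, w) - ev (P s) (x.1 + x.2, w) = ev (P m) (x.1, 0) - ev (P s) (x.1, 0) := by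
      intro w
      have hcl : IsClosed {x : (Fin n → ℂ) × (Fin n → ℂ) |
          ev (P m) (x.1 + x.2, w) - ev (P s) (x.1 + x.2, w) =
            ev (P m) (x.1, 0) - ev (P s) (x.1, 0)} := by
        apply isClosed_eq
        · exact hg.comp (by fun_prop :
            Continuous fun x : (Fin n → ℂ) × (Fin n → ℂ) => (x.1 + x.2, w))
        · exact hg.comp (by fun_prop :
            Continuous fun x : (Fin n → ℂ) × (Fin n → ℂ) => (x.1, (0 : ℂ)))
      have hsub : {x : (Fin n → ℂ) × (Fin n → ℂ) | MvPolynomial.eval x.1 r ≠ 0 ∧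
          ∀ i, Irreducible (res (P i) x.1 x.2)} ⊆ {x : (Fin n → ℂ) × (Fin n → ℂ) |
          ev (P m) (x.1 + x.2, w) - ev (P s) (x.1 + x.2, w) =
            ev (P m) (x.1, 0) - ev (P s) (x.1, 0)} := by
        rintro ⟨z, v⟩ ⟨hz, hv⟩
        simp only at hz hv
        obtain ⟨w₂, hw₂⟩ := hvert z
        obtain ⟨c', K', h', hc', -⟩ := hplane ⟨(z, w₂), hw₂⟩ v hz hv
        have h1 : ∀ t u : ℂ, ev (P m) (fun i => z i + t * v i, u) =
            ev (P s) (fun i => z i + t * v i, u) + c' m := by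
          intro t u
          rw [← evalEval_res, hc' m, Polynomial.evalEval_add, evalEval_res]
          congr 1
          exact Polynomial.evalEval_CC t u (c' m)
        have h2 := h1 1 w
        have h3 := h1 0 0
        have h4 : (fun i => z i + 1 * v i) = z + v := by
          funext i
          simp
        have h5 : (fun i => z i + 0 * v i) = z := by
          funext i
          simp
        rw [h4] at h2
        rw [h5] at h3
        show ev (P m) (z + v, w) - ev (P s) (z + v, w) = ev (P m) (z, 0) - ev (P s) (z, 0)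
        rw [h2, h3]
        ring
      have h6 := hcl.closure_subset_iff.2 hsub
      rw [hQ.closure_eq] at h6
      exact fun x => h6 (Set.mem_univ x)
    have hall : ∀ x : (Fin n → ℂ) × ℂ, ev (P m) x - ev (P s) x =
        ev (P m) (z₁, 0) - ev (P s) (z₁, 0) := by
      intro x
      have h1 := hd x.2 (z₁, x.1 - z₁)
      have h2 : z₁ + (x.1 - z₁) = x.1 := by
        funext i
        simp
      simp only [h2] at h1
      exact h1
    have hc0 : ev (P m) (z₁, 0) - ev (P s) (z₁, 0) = c m := by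
      have h1 : ev (P m) (fun i => z₁ i + 0 * v₁ i, 0) =
          ev (P s) (fun i => z₁ i + 0 * v₁ i, 0) + c m := by
        rw [← evalEval_res, hc m, Polynomial.evalEval_add, evalEval_res]
        congr 1
        exact Polynomial.evalEval_CC 0 0 (c m)
      have h5 : (fun i => z₁ i + 0 * v₁ i) = z₁ := by
        funext i
        simp
      rw [h5] at h1
      rw [h1]
      ring
    intro x
    have h1 := hall x
    rw [hc0] at h1
    linear_combination h1
  have hS : ∀ x : NX P, ev (P s) x.1 ∉ SC c := by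
    intro x hx
    obtain ⟨m, hmm⟩ := (mem_SC c _).1 hx
    apply x.2 m
    rw [hconst m, hmm]
  obtain ⟨Y, Ψ, hΨ⟩ := H13F2.free_embed (SC c)
  obtain ⟨φ, hφ⟩ := exists_hom (Ψ.comap (toN P s (SC c) hS)) x₀
  refine ⟨?_, group_fg P hm hirr r hr ⟨(z₁, w₁), hw₁⟩ hz₁ Φ (hsurj _), c, hconst⟩
  refine free_of_inj H K φ ?_ hKH
  intro g hg
  obtain ⟨δ⟩ := PathConnectedSpace.joined x₀ (⟨(z₁, w₁), hw₁⟩ : NX P)
  obtain ⟨p, hp, hpg⟩ := fibre_surj P hm hirr r hr ⟨(z₁, w₁), hw₁⟩ hz₁ Φ (hsurj _)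
    (Φ.val δ * g * (Φ.val δ)⁻¹)
  have h1 : Φ.val (δ.trans (p.trans δ.symm)) = g := by
    rw [Φ.trans, Φ.trans, Φ.val_symm, hpg]
    group
  have h2 : (Ψ.comap (toN P s (SC c) hS)).val (δ.trans (p.trans δ.symm)) = 1 := by
    rw [← hφ, ← hΦ, h1, hg]
  have h3 : (Ψ.comap (toN P s (SC c) hS)).val p = 1 := by
    rw [PF.trans, PF.trans, PF.val_symm] at h2
    have h4 : (Ψ.comap (toN P s (SC c) hS)).val p =
        (Ψ.comap (toN P s (SC c) hS)).val δ *
        (((Ψ.comap (toN P s (SC c) hS)).val δ)⁻¹ * (Ψ.comap (toN P s (SC c) hS)).val p *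
        (Ψ.comap (toN P s (SC c) hS)).val δ) *
        ((Ψ.comap (toN P s (SC c) hS)).val δ)⁻¹ := by group
    rw [h4, h2]
    group
  have h5 := hΨ _ (p.map (toN P s (SC c) hS).continuous) h3
  have hy : (0, w₁) ∈ CX (fun i => res (P i) z₁ v₁) := by
    intro i
    rw [evalEval_res]
    have h1 : ((fun j => z₁ j + 0 * v₁ j, w₁) : (Fin n → ℂ) × ℂ) = (z₁, w₁) := by
      apply Prod.ext
      · funext j
        simp
      · rfl
    rw [h1]
    exact hw₁ i
  have h6 := hK ⟨(0, w₁), hy⟩ (vert P v₁ ⟨(z₁, w₁), hw₁⟩ p hp ⟨(0, w₁), hy⟩ rfl) ?_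
  · rw [vert_incl, Φ.val_cast, hpg] at h6
    have h7 := hKN.conj_mem _ h6 (Φ.val δ)⁻¹
    have h8 : (Φ.val δ)⁻¹ * (Φ.val δ * g * (Φ.val δ)⁻¹) * ((Φ.val δ)⁻¹)⁻¹ = g := by group
    rw [h8] at h7
    exact h7
  · have h9 : H13J.hval (fun i => res (P i) z₁ v₁) s (0, w₁) = ev (P s) (z₁, w₁) := by
      show (res (P s) z₁ v₁).evalEval 0 w₁ = _
      rw [evalEval_res]
      congr 1
      apply Prod.ext
      · funext j
        simp
      · rfl
    have h10 : (⟨H13J.hval (fun i => res (P i) z₁ v₁) s (0, w₁), h ⟨(0, w₁), hy⟩⟩ :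
        {b : ℂ // b ∉ SC c}) = ⟨ev (P s) (z₁, w₁), hS ⟨(z₁, w₁), hw₁⟩⟩ := Subtype.ext h9
    have h11 : (vert P v₁ ⟨(z₁, w₁), hw₁⟩ p hp ⟨(0, w₁), hy⟩ rfl).map
        (toS _ s (SC c) h).continuous =
        (p.map (toN P s (SC c) hS).continuous).cast h10 h10 := by
      apply Path.ext
      funext t
      apply Subtype.ext
      show (res (P s) z₁ v₁).evalEval 0 (p t).1.2 = ev (P s) (p t).1
      rw [evalEval_res]
      congr 1
      apply Prod.ext
      · rw [hp t]
        funext j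
        simp
      · rfl
    rw [h11]
    exact homotopic_cast _ h10 h5

end H13W
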