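import Pool.Agent.Lib.H13W.D
import Pool.Agent.Lib.H13M.C3

set_option autoImplicit false

open scoped unitInterval Polynomial

namespace H13W

open H13K H13M

variable {n : ℕ} {ι : Type}

/-- the cut-off function -/
private noncomputable def s1chi (δ : ℝ) (w z : ℂ) : ℝ := max 0 (min 1 (2 - 4 * ‖z - w‖ / δ))

private theorem s1chi_cont (δ : ℝ) (w : ℂ) : Continuous (s1chi δ w) := by
  unfold s1chi
  fun_prop

private theorem s1chi_one {δ : ℝ} (hδ : 0 < δ) {w z : ℂ} (h : ‖z - w‖ ≤ δ / 4) :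
    s1chi δ w z = 1 := by
  unfold s1chi
  have h1 : 4 * ‖z - w‖ / δ ≤ 1 := by
    rw [div_le_one hδ]
    linarith
  rw [min_eq_left (by linarith), max_eq_right zero_le_one]

private theorem s1chi_zero {δ : ℝ} (hδ : 0 < δ) {w z : ℂ} (h : δ / 2 ≤ ‖z - w‖) :
    s1chi δ w z = 0 := by
  unfold s1chi
  have h1 : 2 ≤ 4 * ‖z - w‖ / δ := by
    rw [le_div_iff₀ hδ]
    linarith
  exact max_eq_left ((min_le_right _ _).trans (by linarith))

private theorem s1chi_nonneg (δ : ℝ) (w z : ℂ) : 0 ≤ s1chi δ w z := le_max_left _ _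

private theorem s1chi_le (δ : ℝ) (w z : ℂ) : s1chi δ w z ≤ 1 :=
  max_le zero_le_one (min_le_left _ _)

private theorem s1_sep {E : Type} {M : ℕ} (f : Fin M → E → ℂ) (b : E)
    (hinj : Function.Injective (fun a => f a b)) :
    ∃ δ : ℝ, 0 < δ ∧ ∀ a a', a ≠ a' → δ ≤ ‖f a b - f a' b‖ := by
  have h : ∀ᶠ δ : ℝ in nhdsWithin 0 (Set.Ioi 0), ∀ a a', a ≠ a' → δ ≤ ‖f a b - f a' b‖ := by
    refine Filter.eventually_all.2 fun a => Filter.eventually_all.2 fun a' => ?_
    by_cases haa : a = a'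
    · exact Filter.Eventually.of_forall fun _ h => absurd haa h
    · have hpos : 0 < ‖f a b - f a' b‖ := by
        rw [norm_pos_iff, sub_ne_zero]
        exact fun h => haa (hinj h)
      filter_upwards [Ioc_mem_nhdsGT hpos] with δ hδ _ using hδ.2
  obtain ⟨δ, h1, h2⟩ := (h.and self_mem_nhdsWithin).exists
  exact ⟨δ, h2, h1⟩

/-- An explicit isotopy following finitely many moving points (Lib/H13J/L0.lean over a general base). -/
private theorem s1_isotopy {E : Type} [PseudoMetricSpace E] (M : ℕ) (f : Fin M → E → ℂ) (b : E) (ρ : ℝ) (hρ : 0 < ρ)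
    (hc : ∀ a, ContinuousOn (f a) (Metric.ball b ρ))
    (hinj : ∀ c ∈ Metric.ball b ρ, Function.Injective (fun a => f a c)) :
    ∃ ρ' : ℝ, 0 < ρ' ∧ ρ' ≤ ρ ∧ ∃ ψ : E × E × ℂ → ℂ,
      ContinuousOn ψ (Metric.ball b ρ' ×ˢ Metric.ball b ρ' ×ˢ Set.univ) ∧
      (∀ c ∈ Metric.ball b ρ', ∀ z, ψ (c, c, z) = z) ∧
      ∀ c ∈ Metric.ball b ρ', ∀ c' ∈ Metric.ball b ρ', ∀ z, (∀ a, z ≠ f a c) →
        ∀ a, ψ (c, c', z) ≠ f a c' := by
  obtain ⟨δ, hδ, hsep⟩ := s1_sep f b (hinj b (Metric.mem_ball_self hρ))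
  have h1 : ∀ᶠ c in nhds b, ∀ a, ‖f a c - f a b‖ < δ / 16 := by
    refine Filter.eventually_all.2 fun a => ?_
    have hca : ContinuousAt (f a) b := (hc a).continuousAt (Metric.ball_mem_nhds b hρ)
    have := Metric.continuousAt_iff'.1 hca (δ / 16) (by positivity)
    simpa only [dist_eq_norm] using this
  obtain ⟨ρ1, hρ1, hball⟩ := Metric.eventually_nhds_iff_ball.1 h1
  refine ⟨min ρ1 ρ, lt_min hρ1 hρ, min_le_right _ _,
    fun p => p.2.2 + ∑ a, (s1chi δ (f a b) p.2.2 : ℂ) * (f a p.2.1 - f a p.1), ?_, ?_, ?_⟩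
  · have hsub : Metric.ball b (min ρ1 ρ) ⊆ Metric.ball b ρ :=
      Metric.ball_subset_ball (min_le_right _ _)
    have hz : Continuous fun p : E × E × ℂ => p.2.2 := by fun_prop
    refine ContinuousOn.add hz.continuousOn ?_
    refine continuousOn_finsetSum _ fun a _ => ?_
    refine ContinuousOn.mul ?_ (ContinuousOn.sub ?_ ?_)
    · exact (Complex.continuous_ofReal.comp ((s1chi_cont δ (f a b)).comp hz)).continuousOn
    · refine (hc a).comp (by fun_prop) ?_
      intro p hp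
      exact hsub hp.2.1
    · refine (hc a).comp (by fun_prop) ?_
      intro p hp
      exact hsub hp.1
  · intro c _ z
    simp
  · intro c hcb c' hcb' z hz a hψ
    have hball1 : ∀ x ∈ Metric.ball b (min ρ1 ρ), ∀ a, ‖f a x - f a b‖ < δ / 16 := fun x hx =>
      hball x (Metric.ball_subset_ball (min_le_left _ _) hx)
    have hd : ∀ a, ‖f a c' - f a c‖ < δ / 8 := by
      intro a
      have e : f a c' - f a c = (f a c' - f a b) - (f a c - f a b) := by ring
      rw [e]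
      have h2 := hball1 c hcb a
      have h3 := hball1 c' hcb' a
      have h4 := norm_sub_le (f a c' - f a b) (f a c - f a b)
      linarith
    have hfar : ∀ a a', a ≠ a' → ‖z - f a b‖ < δ / 2 → s1chi δ (f a' b) z = 0 := by
      intro a a' haa h
      refine s1chi_zero hδ ?_
      have h2 := hsep a a' haa
      have e : f a b - f a' b = (z - f a' b) - (z - f a b) := by ring
      rw [e] at h2
      have h3 := norm_sub_le (z - f a' b) (z - f a b)
      linarith
    have hu : ‖∑ a, (s1chi δ (f a b) z : ℂ) * (f a c' - f a c)‖ < δ / 8 := by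
      by_cases hex : ∃ a0, ‖z - f a0 b‖ < δ / 2
      · obtain ⟨a0, ha0⟩ := hex
        rw [Finset.sum_eq_single a0]
        · rw [norm_mul, Complex.norm_real, Real.norm_eq_abs, abs_of_nonneg (s1chi_nonneg _ _ _)]
          calc s1chi δ (f a0 b) z * ‖f a0 c' - f a0 c‖ ≤ 1 * ‖f a0 c' - f a0 c‖ :=
                mul_le_mul_of_nonneg_right (s1chi_le _ _ _) (norm_nonneg _)
            _ < δ / 8 := by
                rw [one_mul]
                exact hd a0
        · intro a' _ ha'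
          rw [hfar a0 a' (Ne.symm ha') ha0]
          simp
        · intro h
          exact absurd (Finset.mem_univ _) h
      · push Not at hex
        rw [Finset.sum_eq_zero]
        · rw [norm_zero]
          positivity
        · intro a' _
          rw [s1chi_zero hδ (hex a')]
          simp
    simp only at hψ
    have hzb : ‖z - f a b‖ < δ / 4 := by
      have e : z - f a b = (f a c' - f a b) -
          ∑ a, (s1chi δ (f a b) z : ℂ) * (f a c' - f a c) := by
        rw [← hψ]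
        ring
      rw [e]
      have h2 := norm_sub_le (f a c' - f a b) (∑ a, (s1chi δ (f a b) z : ℂ) * (f a c' - f a c))
      have h3 := hball1 c' hcb' a
      linarith
    rw [Finset.sum_eq_single a] at hψ
    · rw [s1chi_one hδ hzb.le] at hψ
      apply hz a
      have : z = z + ((1 : ℝ) : ℂ) * (f a c' - f a c) - (f a c' - f a c) := by
        push_cast
        ring
      rw [this, hψ]
      ring
    · intro a' _ ha'
      rw [hfar a a' (Ne.symm ha') (by linarith)]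
      simp
    · intro h
      exact absurd (Finset.mem_univ _) h

/-- Over a small ball paths with the same end value of `z` can be pushed into a line.
Proof: `local_roots` for the product of the `P i` (simple roots by Disc), isotopy of
Lib/H13J/L0.lean over the base Fin n → ℂ, H (τ, t) = (z_τ t, ψ (z t, z_τ t, w t)),
z_τ t = (1 - τ) z t + τ z'. -/
theorem push_line [Finite ι] (P : ι → (MvPolynomial (Fin n) ℂ)[X]) (hm : ∀ i, (P i).Monic)
    (r : MvPolynomial (Fin n) ℂ) (hr : H13M.Disc P r) (z₀ : Fin n → ℂ)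
    (hz : MvPolynomial.eval z₀ r ≠ 0) :
    ∃ ρ : ℝ, 0 < ρ ∧ (∀ z ∈ Metric.ball z₀ ρ, MvPolynomial.eval z r ≠ 0) ∧
      ∀ (x y : NX P) (p : Path x y), (∀ t, (p t).1.1 ∈ Metric.ball z₀ ρ) → x.1.1 = y.1.1 →
        ∃ q : Path x y, (∀ t, (q t).1.1 = x.1.1) ∧ p.Homotopic q := by
  classical
  cases nonempty_fintype ι
  set p : (MvPolynomial (Fin n) ℂ)[X] := ∏ i, P i with hp
  have hpm : p.Monic := Polynomial.monic_prod_of_monic _ _ fun i _ => hm i
  have hev : ∀ q : (Fin n → ℂ) × ℂ, ev p q = ∏ i, ev (P i) q := by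
    intro q
    rw [hp]
    simp only [ev, Polynomial.map_prod, Polynomial.eval_prod]
  have hs : ∀ w, ev p (z₀, w) = 0 → ev (Polynomial.derivative p) (z₀, w) ≠ 0 := by
    intro w hw
    rw [hev, Finset.prod_eq_zero_iff] at hw
    obtain ⟨i, -, hi⟩ := hw
    have h1 : p = P i * ∏ j ∈ Finset.univ.erase i, P j := by
      rw [hp, Finset.mul_prod_erase _ _ (Finset.mem_univ i)]
    rw [h1, Polynomial.derivative_mul]
    have h2 : ev (Polynomial.derivative (P i) * ∏ j ∈ Finset.univ.erase i, P j +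
        P i * Polynomial.derivative (∏ j ∈ Finset.univ.erase i, P j)) (z₀, w) =
        ev (Polynomial.derivative (P i)) (z₀, w) * ∏ j ∈ Finset.univ.erase i, ev (P j) (z₀, w) := by
      have h3 : ev (P i * Polynomial.derivative (∏ j ∈ Finset.univ.erase i, P j)) (z₀, w) = 0 := by
        rw [ev_mul, hi, zero_mul]
      have h4 : ∀ a b : (MvPolynomial (Fin n) ℂ)[X], ev (a + b) (z₀, w) = ev a (z₀, w) + ev b (z₀, w) := by
        intro a b
        simp [ev]
      rw [h4, h3, add_zero, ev_mul]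
      congr 1
      simp only [ev, Polynomial.map_prod, Polynomial.eval_prod]
    rw [h2]
    refine mul_ne_zero (hr.simple i _ hz hi) (Finset.prod_ne_zero_iff.2 fun j hj => ?_)
    exact hr.disj i j _ (Finset.ne_of_mem_erase hj).symm hz hi
  obtain ⟨ρ₂, hρ₂, h, hd, hinj, hfac⟩ := local_roots p hpm z₀ hs
  have hroot : ∀ z ∈ Metric.ball z₀ ρ₂, ∀ w, (ev p (z, w) = 0 ↔ ∃ a, w = h a z) := by
    intro z hzb w
    have h1 : ev p (z, w) = ∏ a, (w - h a z) := by
      show (p.map (MvPolynomial.eval z)).eval w = _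
      rw [hfac z hzb, Polynomial.eval_prod]
      simp
    rw [h1, Finset.prod_eq_zero_iff]
    simp only [Finset.mem_univ, true_and, sub_eq_zero]
  obtain ⟨ρ₃, hρ₃, hρ₃₂, ψ, hψc, hψ1, hψ2⟩ := s1_isotopy p.natDegree h z₀ ρ₂ hρ₂
    (fun a => (hd a).continuousOn) hinj
  have hopen : {z : Fin n → ℂ | MvPolynomial.eval z r ≠ 0} ∈ nhds z₀ :=
    (isOpen_ne_fun (MvPolynomial.continuous_eval r) continuous_const).mem_nhds hz
  obtain ⟨ρ₁, hρ₁, hball₁⟩ := Metric.mem_nhds_iff.1 hopen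
  set ρ := min ρ₁ ρ₃ with hρdef
  have hpos : 0 < ρ := lt_min hρ₁ hρ₃
  have hsub₃ : Metric.ball z₀ ρ ⊆ Metric.ball z₀ ρ₃ := Metric.ball_subset_ball (min_le_right _ _)
  have hsub₂ : Metric.ball z₀ ρ ⊆ Metric.ball z₀ ρ₂ := hsub₃.trans (Metric.ball_subset_ball hρ₃₂)
  refine ⟨ρ, hpos, fun z hzb => hball₁ (Metric.ball_subset_ball (min_le_left _ _) hzb), ?_⟩
  intro x y γ hγ hxy
  have hmemN : ∀ q : (Fin n → ℂ) × ℂ, q ∈ NX P ↔ ev p q ≠ 0 := by
    intro q
    rw [hev, Finset.prod_ne_zero_iff]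
    simp only [Finset.mem_univ, true_implies]
    rfl
  set z' := x.1.1 with hz'
  set z : I → (Fin n → ℂ) := fun t => (γ t).1.1 with hzdef
  have hzc : Continuous z := continuous_fst.comp (continuous_subtype_val.comp γ.continuous)
  set w : I → ℂ := fun t => (γ t).1.2 with hwdef
  have hwc : Continuous w := continuous_snd.comp (continuous_subtype_val.comp γ.continuous)
  have hz0 : z 0 = z' := by simp [hzdef, hz']
  have hz1 : z 1 = z' := by rw [hxy]; simp [hzdef]
  have hzb : ∀ t, z t ∈ Metric.ball z₀ ρ := hγ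
  have hz'b : z' ∈ Metric.ball z₀ ρ := by rw [← hz0]; exact hzb 0
  have hseg : ∀ u ∈ Metric.ball z₀ ρ, ∀ v ∈ Metric.ball z₀ ρ, ∀ τ : I,
      (1 - (τ : ℝ)) • u + (τ : ℝ) • v ∈ Metric.ball z₀ ρ := fun u hu v hv τ =>
    convex_ball z₀ ρ hu hv (by linarith [τ.2.2]) τ.2.1 (by ring)
  have hCmem : ∀ x : I × I, (1 - (x.1 : ℝ)) • z x.2 + (x.1 : ℝ) • z' ∈ Metric.ball z₀ ρ :=
    fun x => hseg _ (hzb _) _ hz'b _
  have hCc : Continuous fun x : I × I => (1 - (x.1 : ℝ)) • z x.2 + (x.1 : ℝ) • z' := by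
    fun_prop
  have hWc : Continuous fun x : I × I =>
      ψ (z x.2, (1 - (x.1 : ℝ)) • z x.2 + (x.1 : ℝ) • z', w x.2) := by
    refine hψc.comp_continuous (f := fun x : I × I =>
      (z x.2, (1 - (x.1 : ℝ)) • z x.2 + (x.1 : ℝ) • z', w x.2)) ?_ fun x => ?_
    · exact (hzc.comp continuous_snd).prodMk (hCc.prodMk (hwc.comp continuous_snd))
    · exact ⟨hsub₃ (hzb _), hsub₃ (hCmem x), trivial⟩
  have hmem : ∀ x : I × I, ((1 - (x.1 : ℝ)) • z x.2 + (x.1 : ℝ) • z',
      ψ (z x.2, (1 - (x.1 : ℝ)) • z x.2 + (x.1 : ℝ) • z', w x.2)) ∈ NX P := by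
    intro x
    rw [hmemN]
    intro h0
    obtain ⟨a, ha⟩ := (hroot _ (hsub₂ (hCmem x)) _).1 h0
    refine hψ2 (z x.2) (hsub₃ (hzb _)) _ (hsub₃ (hCmem x)) (w x.2) (fun a' ha' => ?_) a ha
    exact ((hmemN (z x.2, w x.2)).1 (γ x.2).2) ((hroot _ (hsub₂ (hzb _)) _).2 ⟨a', ha'⟩)
  let H : C(I × I, NX P) := ⟨fun x => ⟨_, hmem x⟩, by
    apply Continuous.subtype_mk
    exact hCc.prodMk hWc⟩
  have hconst : ∀ τ : I, (1 - (τ : ℝ)) • z' + (τ : ℝ) • z' = z' := by
    intro τ
    rw [← add_smul]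
    simp
  have hH0 : ∀ t, H (0, t) = γ t := by
    intro t
    apply Subtype.ext
    change ((1 - ((0 : I) : ℝ)) • z t + ((0 : I) : ℝ) • z',
      ψ (z t, (1 - ((0 : I) : ℝ)) • z t + ((0 : I) : ℝ) • z', w t)) = (γ t).1
    have h1 : (1 - ((0 : I) : ℝ)) • z t + ((0 : I) : ℝ) • z' = z t := by simp
    rw [h1, hψ1 _ (hsub₃ (hzb t))]
  have hside : ∀ (τ t : I), z t = z' → H (τ, t) = γ t := by
    intro τ t ht
    apply Subtype.ext
    change ((1 - (τ : ℝ)) • z t + (τ : ℝ) • z',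
      ψ (z t, (1 - (τ : ℝ)) • z t + (τ : ℝ) • z', w t)) = (γ t).1
    have h1 : (1 - (τ : ℝ)) • z t + (τ : ℝ) • z' = z t := by rw [ht, hconst]
    rw [h1, hψ1 _ (hsub₃ (hzb t))]
  have hHL : ∀ τ, H (τ, 0) = x := fun τ => by rw [hside τ 0 hz0, γ.source]
  have hHR : ∀ τ, H (τ, 1) = y := fun τ => by rw [hside τ 1 hz1, γ.target]
  let q : Path x y := ⟨⟨fun t => H (1, t), by fun_prop⟩, hHL 1, hHR 1⟩
  refine ⟨q, fun t => ?_, ⟨⟨⟨H, hH0, fun t => rfl⟩, fun τ t ht => ?_⟩⟩⟩
  · change (1 - ((1 : I) : ℝ)) • z t + ((1 : I) : ℝ) • z' = z'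
    simp
  · rcases ht with rfl | ht
    · change H (τ, 0) = γ 0
      rw [hHL, γ.source]
    · rw [Set.mem_singleton_iff] at ht
      subst ht
      change H (τ, 1) = γ 1
      rw [hHR, γ.target]

end H13W
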