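import Pool.Agent.Lib.H13W.S1

set_option autoImplicit false

open scoped unitInterval Polynomial

namespace H13W

open H13K H13M

variable {n : ℕ} {ι : Type}

/-- The straight path between two parameters. -/
private noncomputable def s3seg (s t : I) : Path s t where
  toFun r := ⟨(1 - (r : ℝ)) * (s : ℝ) + (r : ℝ) * (t : ℝ), by
    constructor
    · exact add_nonneg (mul_nonneg (sub_nonneg.2 r.2.2) s.2.1) (mul_nonneg r.2.1 t.2.1)
    · have h1 : (1 - (r : ℝ)) * (s : ℝ) ≤ (1 - (r : ℝ)) * 1 :=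
        mul_le_mul_of_nonneg_left s.2.2 (sub_nonneg.2 r.2.2)
      have h2 : (r : ℝ) * (t : ℝ) ≤ (r : ℝ) * 1 := mul_le_mul_of_nonneg_left t.2.2 r.2.1
      linarith⟩
  continuous_toFun := by
    apply Continuous.subtype_mk
    fun_prop
  source' := by
    apply Subtype.ext
    simp
  target' := by
    apply Subtype.ext
    simp

private theorem s3seg_dist (s t r : I) : dist (s3seg s t r) s ≤ dist t s := by
  rw [Subtype.dist_eq, Subtype.dist_eq, Real.dist_eq, Real.dist_eq]
  have h : ((s3seg s t r : I) : ℝ) - (s : ℝ) = (r : ℝ) * ((t : ℝ) - (s : ℝ)) := by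
    show (1 - (r : ℝ)) * (s : ℝ) + (r : ℝ) * (t : ℝ) - (s : ℝ) = _
    ring
  rw [h, abs_mul, abs_of_nonneg r.2.1]
  exact mul_le_of_le_one_left (abs_nonneg _) r.2.2

private theorem s3scI : SimplyConnectedSpace I := by
  have h : ContractibleSpace I := (convex_Icc (0 : ℝ) 1).contractibleSpace ⟨0, by simp⟩
  infer_instance

/-- The value of the functional on the part of a path between two parameters. -/
private noncomputable def s3v {X G : Type} [TopologicalSpace X] [Group G] (U : PF X G) (γ : C(I, X))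
    (s t : I) : G := (U.comap γ).val (s3seg s t)

private theorem s3v_mul {X G : Type} [TopologicalSpace X] [Group G] (U : PF X G) (γ : C(I, X))
    (s t r : I) : s3v U γ s r = s3v U γ t r * s3v U γ s t := by
  have := s3scI
  unfold s3v
  rw [← PF.trans]
  exact PF.val_eq_of_simplyConnected _ _ _

/-- One small step. -/
private theorem s3_step [Finite ι] (P : ι → (MvPolynomial (Fin n) ℂ)[X]) (B : Set (Fin n → ℂ))
    (hB : ∀ (x y : NX P) (p : Path x y), (∀ t, (p t).1.1 ∈ B) → x.1.1 = y.1.1 →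
        ∃ q : Path x y, (∀ t, (q t).1.1 = x.1.1) ∧ p.Homotopic q)
    {G : Type} [Group G] (U : PF (NX P) G) (x y : NX P) (δ : Path x y)
    (hδ : ∀ t, (δ t).1.1 ∈ B) (p : Path x x) (hpf : ∀ t, (p t).1.1 = x.1.1) :
    ∃ q : Path y y, (∀ t, (q t).1.1 = y.1.1) ∧
      U.val q = U.val δ * U.val p * (U.val δ)⁻¹ := by
  have hx : x.1.1 ∈ B := by
    have h := hδ 0
    rwa [δ.source] at h
  have hall : ∀ t, ((δ.symm.trans (p.trans δ)) t).1.1 ∈ B := by
    have hr : ∀ z ∈ Set.range (δ.symm.trans (p.trans δ)), z.1.1 ∈ B := by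
      intro z hz
      rw [Path.trans_range, Path.trans_range, Path.symm_range] at hz
      rcases hz with ⟨t, rfl⟩ | ⟨t, rfl⟩ | ⟨t, rfl⟩
      · exact hδ t
      · rw [hpf t]
        exact hx
      · exact hδ t
    intro t
    exact hr _ ⟨t, rfl⟩
  obtain ⟨q, hq1, hq2⟩ := hB y y (δ.symm.trans (p.trans δ)) hall rfl
  refine ⟨q, hq1, ?_⟩
  rw [← U.homot hq2, U.trans, U.trans, U.val_symm]

/-- Transport of loops in a line along paths over `r ≠ 0`.
Proof: copy of Lib/H13J/N2a.lean (`PreconnectedSpace.induction₂'` on I) with `push_line` in place of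
`loop_to_fibre`; in the small step the loop δ.symm.trans (p.trans δ) lies over the ball. -/
theorem transport_line [Finite ι] (P : ι → (MvPolynomial (Fin n) ℂ)[X]) (hm : ∀ i, (P i).Monic)
    (r : MvPolynomial (Fin n) ℂ) (hr : H13M.Disc P r) {G : Type} [Group G] (U : PF (NX P) G)
    (x y : NX P) (γ : Path x y) (hγ : ∀ t, MvPolynomial.eval (γ t).1.1 r ≠ 0) (p : Path x x)
    (hp : ∀ t, (p t).1.1 = x.1.1) :
    ∃ q : Path y y, (∀ t, (q t).1.1 = y.1.1) ∧ U.val q = U.val γ * U.val p * (U.val γ)⁻¹ := by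
  have hcont : Continuous fun t : I => (γ t).1.1 :=
    continuous_fst.comp (continuous_subtype_val.comp γ.continuous)
  have key := PreconnectedSpace.induction₂' (α := I)
    (fun a b : I => ∀ p : Path (γ a) (γ a), (∀ t, (p t).1.1 = (γ a).1.1) →
      ∃ q : Path (γ b) (γ b), (∀ t, (q t).1.1 = (γ b).1.1) ∧
        U.val q = s3v U (γ : C(I, NX P)) a b * U.val p * (s3v U (γ : C(I, NX P)) a b)⁻¹)
    (by
      intro t0
      obtain ⟨ρ, hρ0, -, hρ⟩ := push_line P hm r hr _ (hγ t0)
      have h1 : (fun t : I => (γ t).1.1) ⁻¹' Metric.ball (γ t0).1.1 ρ ∈ nhds t0 :=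
        (Metric.isOpen_ball.preimage hcont).mem_nhds (Metric.mem_ball_self hρ0)
      obtain ⟨ε, hε, hball⟩ := Metric.mem_nhds_iff.1 h1
      filter_upwards [Metric.ball_mem_nhds t0 hε] with t ht
      have hseg : ∀ r, (((s3seg t0 t).map γ.continuous) r).1.1 ∈
          Metric.ball (γ t0).1.1 ρ := by
        intro r
        exact hball (lt_of_le_of_lt (s3seg_dist t0 t r) ht)
      constructor
      · intro p hpf
        exact s3_step P _ hρ U (γ t0) (γ t) ((s3seg t0 t).map γ.continuous) hseg p hpf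
      · intro p hpf
        obtain ⟨q, hq1, hq2⟩ := s3_step P _ hρ U (γ t) (γ t0)
          ((s3seg t0 t).map γ.continuous).symm (fun r => hseg _) p hpf
        refine ⟨q, hq1, ?_⟩
        have e1 : U.val ((s3seg t0 t).map γ.continuous).symm = s3v U (γ : C(I, NX P)) t t0 := by
          have := s3scI
          have e2 : (U.comap (γ : C(I, NX P))).val (s3seg t0 t).symm = (U.comap (γ : C(I, NX P))).val (s3seg t t0) :=
            PF.val_eq_of_simplyConnected _ _ _
          exact e2
        rw [hq2, e1])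
    ⟨by
      intro a b c hab hbc p hpf
      obtain ⟨q, hq1, hq2⟩ := hab p hpf
      obtain ⟨r, hr1, hr2⟩ := hbc q hq1
      refine ⟨r, hr1, ?_⟩
      rw [hr2, hq2, s3v_mul U _ a b c]
      group⟩ 0 1
  obtain ⟨q, hq1, hq2⟩ := key (p.cast γ.source γ.source) (by
    intro t
    rw [Path.cast_coe, hp t, γ.source])
  refine ⟨q.cast γ.target.symm γ.target.symm, ?_, ?_⟩
  · intro t
    rw [Path.cast_coe, hq1 t, γ.target]
  · rw [PF.val_cast, hq2, PF.val_cast]
    have e1 : s3v U (γ : C(I, NX P)) 0 1 = U.val γ := by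
      have e2 : s3v U (γ : C(I, NX P)) 0 1 = U.val (γ.cast γ.source γ.target) := by
        show U.val ((s3seg 0 1).map γ.continuous) = _
        congr 1
        apply Path.ext
        funext t
        have e3 : s3seg 0 1 t = t := by
          apply Subtype.ext
          show (1 - (t : ℝ)) * ((0 : I) : ℝ) + (t : ℝ) * ((1 : I) : ℝ) = (t : ℝ)
          simp
        show γ (s3seg 0 1 t) = γ t
        rw [e3]
      rw [e2, PF.val_cast]
    rw [e1]

end H13W
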