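import Pool.Agent.Lib.H13W.D
import Pool.Agent.Lib.H13M.C11
import Pool.Agent.Lib.H13K.T4

set_option autoImplicit false

open scoped unitInterval Polynomial

namespace H13W

open H13K H13M

variable {n : ℕ} {ι : Type}

/-- A path can be moved off a thin set by a small perturbation with the same end points. -/
private theorem s4_approx {E : Type} [NormedAddCommGroup E] [NormedSpace ℝ E] (D : Set E)
    (hD : ∀ (z : E) (r : ℝ), 0 < r → IsPathConnected (Metric.ball z r \ D))
    (z : C(I, E)) (hz0 : z 0 ∉ D) (hz1 : z 1 ∉ D) (ε : ℝ) (hε : 0 < ε) :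
    ∃ z' : C(I, E), z' 0 = z 0 ∧ z' 1 = z 1 ∧ ∀ t, ‖z' t - z t‖ < ε ∧ z' t ∉ D := by
  classical
  obtain ⟨Z, hZ⟩ : ∃ Z : ℝ → E, Z = fun t => z (Set.projIcc 0 1 zero_le_one t) := ⟨_, rfl⟩
  have hZI : ∀ t : I, Z t = z t := by
    intro t
    rw [hZ]
    simp only [Set.projIcc_val]
  have hZ0 : Z 0 = z 0 := by
    have e0 : Z ((0 : I) : ℝ) = z 0 := hZI 0
    rw [Set.Icc.coe_zero] at e0
    exact e0
  have hZ1 : Z 1 = z 1 := by
    have e1 : Z ((1 : I) : ℝ) = z 1 := hZI 1
    rw [Set.Icc.coe_one] at e1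
    exact e1
  obtain ⟨δ, hδ, hδ'⟩ : ∃ δ > 0, ∀ s t : ℝ, |s - t| < δ → ‖Z s - Z t‖ < ε / 4 := by
    have huc := CompactSpace.uniformContinuous_of_continuous z.continuous
    rw [Metric.uniformContinuous_iff] at huc
    obtain ⟨δ, hδ, h⟩ := huc (ε / 4) (by positivity)
    refine ⟨δ, hδ, fun s t hst => ?_⟩
    have h1 : dist (Set.projIcc (0 : ℝ) 1 zero_le_one s) (Set.projIcc 0 1 zero_le_one t) < δ := by
      rw [Subtype.dist_eq, Real.dist_eq]
      exact lt_of_le_of_lt (Set.abs_projIcc_sub_projIcc zero_le_one) hst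
    have h2 := h h1
    rw [dist_eq_norm] at h2
    rw [hZ]
    exact h2
  obtain ⟨N, hN⟩ := exists_nat_one_div_lt hδ
  obtain ⟨h, hh⟩ : ∃ h : ℝ, h = 1 / ((N : ℝ) + 1) := ⟨_, rfl⟩
  have hpos : 0 < h := by rw [hh]; positivity
  have hlt : h < δ := by rw [hh]; exact hN
  have hend : ((N + 1 : ℕ) : ℝ) * h = 1 := by
    rw [hh]; push_cast; field_simp
  have hq : ∀ j : ℕ, ∃ q, q ∈ Metric.ball (Z (j * h)) (ε / 4) \ D :=
    fun j => (hD _ _ (by positivity)).nonempty
  choose q0 hq0 using hq
  obtain ⟨q, hqd⟩ : ∃ q : ℕ → E, q = fun j => if j = 0 then Z 0 else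
    if j = N + 1 then Z 1 else q0 j := ⟨_, rfl⟩
  have hqm : ∀ j : ℕ, q j ∈ Metric.ball (Z (j * h)) (ε / 4) \ D := by
    intro j
    by_cases hj0 : j = 0
    · subst hj0
      rw [hqd]
      simp only [if_true, Nat.cast_zero, zero_mul]
      refine ⟨Metric.mem_ball_self (by positivity), ?_⟩
      rw [hZ0]
      exact hz0
    · by_cases hj : j = N + 1
      · rw [hqd]
        simp only [hj0, hj, if_true, if_false]
        rw [hend]
        simp only [Nat.add_eq_zero_iff, one_ne_zero, and_false, if_false]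
        refine ⟨Metric.mem_ball_self (by positivity), ?_⟩
        rw [hZ1]
        exact hz1
      · rw [hqd]
        simp only [hj0, hj, if_false]
        exact hq0 j
  have hq00 : q 0 = z 0 := by
    rw [hqd]
    simp only [if_true]
    exact hZ0
  have hq0N : q (N + 1) = z 1 := by
    rw [hqd]
    simp only [Nat.add_eq_zero_iff, one_ne_zero, and_false, if_false, if_true]
    exact hZ1
  have key : ∀ j : ℕ, ∃ f : ℝ → E, Continuous f ∧ f 0 = q 0 ∧ f (j * h) = q j ∧
      ∀ t ∈ Set.Icc (0 : ℝ) (j * h), ‖f t - Z t‖ < ε ∧ f t ∉ D := by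
    intro j
    induction j with
    | zero =>
      refine ⟨fun _ => q 0, continuous_const, rfl, rfl, ?_⟩
      intro t ht
      have ht0 : t = 0 := by
        have h1 := ht.1
        have h2 := ht.2
        simp only [Nat.cast_zero, zero_mul] at h2
        linarith
      have h0 := hqm 0
      simp only [Nat.cast_zero, zero_mul] at h0
      subst ht0
      refine ⟨?_, h0.2⟩
      have h3 := h0.1
      rw [Metric.mem_ball, dist_eq_norm] at h3
      linarith
    | succ j ih =>
      obtain ⟨f, hf, hf0, hfj, hft⟩ := ih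
      have hstep : ((j + 1 : ℕ) : ℝ) * h - j * h = h := by push_cast; ring
      have m1 : q j ∈ Metric.ball (Z (j * h)) (ε / 2) \ D := by
        refine ⟨?_, (hqm j).2⟩
        have h3 := (hqm j).1
        rw [Metric.mem_ball] at h3 ⊢
        linarith
      have m2 : q (j + 1) ∈ Metric.ball (Z (j * h)) (ε / 2) \ D := by
        refine ⟨?_, (hqm (j + 1)).2⟩
        have h3 := (hqm (j + 1)).1
        rw [Metric.mem_ball] at h3 ⊢
        have h4 : ‖Z (((j + 1 : ℕ) : ℝ) * h) - Z (j * h)‖ < ε / 4 := by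
          apply hδ'
          rw [hstep, abs_of_pos hpos]
          exact hlt
        have h5 := dist_triangle (q (j + 1)) (Z (((j + 1 : ℕ) : ℝ) * h)) (Z (j * h))
        rw [dist_eq_norm (Z (((j + 1 : ℕ) : ℝ) * h))] at h5
        linarith
      have hJ := (hD (Z (j * h)) (ε / 2) (by positivity)).joinedIn _ m1 _ m2
      obtain ⟨γ, hγ⟩ := hJ
      have hcont : Continuous fun t : ℝ => γ.extend ((t - j * h) / h) := by
        have := γ.continuous_extend
        fun_prop
      refine ⟨fun t => if t ≤ j * h then f t else γ.extend ((t - j * h) / h), ?_, ?_, ?_, ?_⟩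
      · apply Continuous.if_le hf hcont continuous_id continuous_const
        intro t ht
        have ht' : t = j * h := ht
        rw [ht', hfj, sub_self, zero_div, γ.extend_zero]
      · have h0 : (0 : ℝ) ≤ j * h := by positivity
        simp only [h0, if_true]
        exact hf0
      · have h1 : ¬ (((j + 1 : ℕ) : ℝ) * h ≤ j * h) := by
          intro h2
          linarith
        simp only [h1, if_false]
        rw [hstep, div_self hpos.ne', γ.extend_one]
      · intro t ht
        by_cases htj : t ≤ j * h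
        · simp only [htj, if_true]
          exact hft t ⟨ht.1, htj⟩
        · simp only [htj, if_false]
          have htj' : (j : ℝ) * h < t := not_le.mp htj
          have hu : (t - j * h) / h ∈ Set.Icc (0 : ℝ) 1 := by
            constructor
            · apply div_nonneg _ hpos.le
              linarith
            · rw [div_le_one hpos]
              have := ht.2
              linarith
          rw [γ.extend_apply hu]
          have hm := hγ ⟨(t - j * h) / h, hu⟩
          refine ⟨?_, hm.2⟩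
          have h3 := hm.1
          rw [Metric.mem_ball, dist_eq_norm] at h3
          have h4 : ‖Z (j * h) - Z t‖ < ε / 4 := by
            apply hδ'
            rw [abs_lt]
            have := ht.2
            constructor <;> linarith
          have h5 := norm_sub_le_norm_sub_add_norm_sub (γ ⟨(t - j * h) / h, hu⟩) (Z (j * h)) (Z t)
          linarith
  obtain ⟨f, hf, hf0, hf1, hft⟩ := key (N + 1)
  rw [hend] at hf1 hft
  refine ⟨⟨fun t => f t, by fun_prop⟩, ?_, ?_, ?_⟩
  · show f ((0 : I) : ℝ) = z 0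
    rw [Set.Icc.coe_zero, hf0, hq00]
  · show f ((1 : I) : ℝ) = z 1
    rw [Set.Icc.coe_one, hf1, hq0N]
  · intro t
    show ‖f t - z t‖ < ε ∧ f t ∉ D
    have := hft t ⟨t.2.1, t.2.2⟩
    rw [hZI] at this
    exact this

private theorem s4_open [Finite ι] (P : ι → (MvPolynomial (Fin n) ℂ)[X]) : IsOpen (NX P) := by
  have h : NX P = ⋂ i, {p : (Fin n → ℂ) × ℂ | ev (P i) p ≠ 0} := by
    ext q
    simp [NX]
  rw [h]
  apply isOpen_iInter_of_finite
  intro i
  exact isOpen_ne_fun (continuous_ev (P i)) continuous_const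

private theorem s4_ball (r : MvPolynomial (Fin n) ℂ) (hr : r ≠ 0) (z : (Fin n → ℂ) × ℂ) (ρ : ℝ)
    (hρ : 0 < ρ) :
    IsPathConnected (Metric.ball z ρ \ {q : (Fin n → ℂ) × ℂ | MvPolynomial.eval q.1 r = 0}) := by
  classical
  set U : Set ((Fin n → ℂ) × ℂ) := Metric.ball z ρ with hUdef
  have hU : Convex ℝ U := convex_ball z ρ
  have hUo : IsOpen U := Metric.isOpen_ball
  set f : MvPolynomial (Fin (n + 1)) ℂ := (MvPolynomial.finSuccEquiv ℂ n).symm (Polynomial.C r) with hf
  have hf0 : f ≠ 0 := by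
    rw [hf]
    intro h
    have h2 : Polynomial.C r = 0 := by
      rw [← (MvPolynomial.finSuccEquiv ℂ n).apply_symm_apply (Polynomial.C r), h, map_zero]
    exact hr (Polynomial.C_eq_zero.1 h2)
  set g : (Fin (n + 1) → ℂ) →ₗ[ℝ] (Fin n → ℂ) × ℂ :=
    (LinearMap.funLeft ℝ ℂ Fin.succ).prod (LinearMap.proj 0) with hg
  have hgapp : ∀ q : Fin (n + 1) → ℂ, g q = (fun i => q i.succ, q 0) := fun q => rfl
  have hgc : Continuous g := by
    have h : (g : (Fin (n + 1) → ℂ) → (Fin n → ℂ) × ℂ) = fun q => (fun i => q i.succ, q 0) := rfl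
    rw [h]
    fun_prop
  have hgs : Function.Surjective g := by
    rintro ⟨z, w⟩
    exact ⟨Fin.cons w z, by rw [hgapp]; simp⟩
  have hev : ∀ q : Fin (n + 1) → ℂ, MvPolynomial.eval q f = MvPolynomial.eval (g q).1 r := by
    intro q
    have hq : q = Fin.cons (q 0) (fun i => q i.succ) := by
      funext i
      refine Fin.cases ?_ (fun j => ?_) i <;> simp
    have h1 : MvPolynomial.eval q f =
        MvPolynomial.eval (Fin.cons (q 0) (fun i => q i.succ) : Fin (n + 1) → ℂ) f := by
      rw [← hq]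
    rw [h1, MvPolynomial.eval_eq_eval_mv_eval', hf, AlgEquiv.apply_symm_apply,
      Polynomial.map_C, Polynomial.eval_C]
    rfl
  have hpc := H13K.pc_compl (n + 1) f hf0 (g ⁻¹' U) (hU.linear_preimage g) (hUo.preimage hgc)
    (by
      obtain ⟨q, hq⟩ := hgs z
      refine ⟨q, ?_⟩
      show g q ∈ U
      rw [hq]
      exact Metric.mem_ball_self hρ)
  have himg := hpc.image hgc
  have heq : g '' (g ⁻¹' U \ {z | MvPolynomial.eval z f = 0}) =
      U \ {q : (Fin n → ℂ) × ℂ | MvPolynomial.eval q.1 r = 0} := by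
    ext u
    constructor
    · rintro ⟨q, ⟨hq1, hq2⟩, rfl⟩
      refine ⟨hq1, fun h0 => hq2 ?_⟩
      show MvPolynomial.eval q f = 0
      rw [hev]
      exact h0
    · rintro ⟨hu, hx⟩
      obtain ⟨q, rfl⟩ := hgs u
      refine ⟨q, ⟨hu, fun h0 => ?_⟩, rfl⟩
      have h1 : MvPolynomial.eval q f = 0 := h0
      rw [hev] at h1
      exact hx h1
  rw [← heq]
  exact himg

/-- Paths can be moved off `r = 0`.
Proof: as H13M.surj (C19.lean) / H13J T1b.lean `perturb`: convex open sets minus
{ev (P i) = 0} ∪ {r (z) = 0} are path connected (proof of NX_convex_pc, C11.lean, with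
f = (finSuccEquiv).symm (C r * ∏ P i) ≠ 0); `approx` (H13K.T4) for a closed path, or its proof. -/
theorem move_off [Finite ι] (P : ι → (MvPolynomial (Fin n) ℂ)[X]) (hm : ∀ i, (P i).Monic)
    (r : MvPolynomial (Fin n) ℂ) (hr : r ≠ 0) (x y : NX P) (hx : MvPolynomial.eval x.1.1 r ≠ 0)
    (hy : MvPolynomial.eval y.1.1 r ≠ 0) (γ : Path x y) :
    ∃ γ' : Path x y, γ'.Homotopic γ ∧ ∀ t, MvPolynomial.eval (γ' t).1.1 r ≠ 0 := by
  have hcont : Continuous fun t : I => (γ t).1 := continuous_subtype_val.comp γ.continuous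
  have hK : IsCompact (Set.range fun t : I => (γ t).1) := isCompact_range hcont
  obtain ⟨δ, hδ, hδU⟩ := hK.exists_thickening_subset_open (s4_open P) (by
    rintro _ ⟨t, rfl⟩
    exact (γ t).2)
  have hball : ∀ (t : I) (w : (Fin n → ℂ) × ℂ), ‖w - (γ t).1‖ < δ → w ∈ NX P := by
    intro t w hw
    apply hδU
    rw [Metric.mem_thickening_iff]
    exact ⟨(γ t).1, ⟨t, rfl⟩, by rw [dist_eq_norm]; exact hw⟩
  obtain ⟨z, hz0, hz1, hz⟩ := s4_approx {q : (Fin n → ℂ) × ℂ | MvPolynomial.eval q.1 r = 0}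
    (fun z ρ hρ => s4_ball r hr z ρ hρ) ⟨fun t : I => (γ t).1, hcont⟩
    (by
      show ¬ (MvPolynomial.eval (γ 0).1.1 r = 0)
      rw [γ.source]
      exact hx)
    (by
      show ¬ (MvPolynomial.eval (γ 1).1.1 r = 0)
      rw [γ.target]
      exact hy) δ hδ
  have hz0' : z 0 = x.1 := by
    rw [hz0]
    show (γ 0).1 = x.1
    rw [γ.source]
  have hz1' : z 1 = y.1 := by
    rw [hz1]
    show (γ 1).1 = y.1
    rw [γ.target]
  have hzn : ∀ t, ‖z t - (γ t).1‖ < δ := fun t => (hz t).1
  have hzT : ∀ t, MvPolynomial.eval (z t).1 r ≠ 0 := fun t => (hz t).2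
  obtain ⟨q, hq⟩ : ∃ q : Path x y, ∀ t, (q t).1 = z t := by
    refine ⟨⟨⟨fun t => ⟨z t, hball t (z t) (hzn t)⟩, ?_⟩, ?_, ?_⟩, fun t => rfl⟩
    · exact Continuous.subtype_mk z.continuous _
    · apply Subtype.ext
      exact hz0'
    · apply Subtype.ext
      exact hz1'
  refine ⟨q, ?_, ?_⟩
  · apply Path.Homotopic.symm
    have hmem : ∀ s t : I, (1 - (s : ℝ)) • (γ t).1 + (s : ℝ) • (q t).1 ∈ NX P := by
      intro s t
      apply hball t _
      have e : (1 - (s : ℝ)) • (γ t).1 + (s : ℝ) • (q t).1 - (γ t).1 =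
          (s : ℝ) • (z t - (γ t).1) := by
        rw [hq, sub_smul, one_smul, smul_sub]
        abel
      rw [e, norm_smul, Real.norm_eq_abs, abs_of_nonneg s.2.1]
      exact lt_of_le_of_lt (mul_le_of_le_one_left (norm_nonneg _) s.2.2) (hzn t)
    have hcq : Continuous fun t : I => (q t).1 := continuous_subtype_val.comp q.continuous
    have hFc : Continuous fun st : I × I =>
        (1 - (st.1 : ℝ)) • (γ st.2).1 + (st.1 : ℝ) • (q st.2).1 := by
      have h1 : Continuous fun st : I × I => (γ st.2).1 := hcont.comp continuous_snd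
      have h2 : Continuous fun st : I × I => (q st.2).1 := hcq.comp continuous_snd
      have h3 : Continuous fun st : I × I => (st.1 : ℝ) :=
        continuous_subtype_val.comp continuous_fst
      exact ((continuous_const.sub h3).smul h1).add (h3.smul h2)
    refine ⟨⟨⟨⟨fun st => ⟨(1 - (st.1 : ℝ)) • (γ st.2).1 + (st.1 : ℝ) • (q st.2).1,
      hmem st.1 st.2⟩, Continuous.subtype_mk hFc _⟩, ?_, ?_⟩, ?_⟩⟩
    · intro t
      apply Subtype.ext
      show (1 - ((0 : I) : ℝ)) • (γ t).1 + ((0 : I) : ℝ) • (q t).1 = (γ t).1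
      rw [Set.Icc.coe_zero, sub_zero, one_smul, zero_smul, add_zero]
    · intro t
      apply Subtype.ext
      show (1 - ((1 : I) : ℝ)) • (γ t).1 + ((1 : I) : ℝ) • (q t).1 = (q t).1
      rw [Set.Icc.coe_one, sub_self, one_smul, zero_smul, zero_add]
    · intro s t ht
      apply Subtype.ext
      show (1 - (s : ℝ)) • (γ t).1 + (s : ℝ) • (q t).1 = (γ t).1
      have hpq : (q t).1 = (γ t).1 := by
        rcases ht with h | h
        · rw [h, γ.source, q.source]
        · rw [Set.mem_singleton_iff.1 h, γ.target, q.target]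
      rw [hpq, ← add_smul, sub_add_cancel, one_smul]
  · intro t
    rw [hq]
    exact hzT t

end H13W
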