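import Pool.Agent.Lib.H13W.S3
import Pool.Agent.Lib.H13W.S4
import Pool.Agent.Lib.H13M.C12

set_option autoImplicit false

open scoped unitInterval Polynomial

namespace H13W

open H13K H13M

variable {n : ℕ} {ι : Type}

private theorem s5_path [Finite ι] (P : ι → (MvPolynomial (Fin n) ℂ)[X]) (hm : ∀ i, (P i).Monic)
    (x y : NX P) : Nonempty (Path x y) := by
  have h := NX_convex_pc P hm Set.univ convex_univ isOpen_univ ⟨x.1, trivial⟩
  rw [Set.univ_inter] at h
  have h1 : PathConnectedSpace (NX P) := isPathConnected_iff_pathConnectedSpace.1 h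
  exact ⟨PathConnectedSpace.somePath x y⟩

/-- Every element of the group is the value of a loop in the line over z₀. Proof: the values of the loops at x₀
in the line form a normal subgroup H (`move_off`, `transport_line`), the functional U modulo H kills all
meridians over r ≠ 0 (`transport_line` for the meridian), `kills_all`. -/
theorem fibre_surj_aux [Finite ι] (P : ι → (MvPolynomial (Fin n) ℂ)[X]) (hm : ∀ i, (P i).Monic)
    (r : MvPolynomial (Fin n) ℂ) (hr : H13M.Disc P r) (x₀ : NX P)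
    (hz : MvPolynomial.eval x₀.1.1 r ≠ 0) {G : Type} [Group G] (U : PF (NX P) G)
    (hU : ∀ g : G, ∃ p : Path x₀ x₀, U.val p = g) (g : G) :
    ∃ p : Path x₀ x₀, (∀ t, (p t).1.1 = x₀.1.1) ∧ U.val p = g := by
  let H : Subgroup G :=
    { carrier := {g | ∃ p : Path x₀ x₀, (∀ t, (p t).1.1 = x₀.1.1) ∧ U.val p = g}
      one_mem' := ⟨Path.refl x₀, fun _ => rfl, U.val_refl x₀⟩
      mul_mem' := by
        rintro a b ⟨p, hp, rfl⟩ ⟨q, hq, rfl⟩
        refine ⟨q.trans p, fun t => ?_, U.trans q p⟩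
        have hmem : (q.trans p) t ∈ Set.range (q.trans p) := ⟨t, rfl⟩
        rw [Path.trans_range] at hmem
        rcases hmem with ⟨s, hs⟩ | ⟨s, hs⟩
        · rw [← hs]
          exact hq s
        · rw [← hs]
          exact hp s
      inv_mem' := by
        rintro a ⟨p, hp, rfl⟩
        exact ⟨p.symm, fun t => hp _, U.val_symm p⟩ }
  have hH : ∀ g : G, g ∈ H ↔ ∃ p : Path x₀ x₀, (∀ t, (p t).1.1 = x₀.1.1) ∧ U.val p = g :=
    fun g => Iff.rfl
  have hN : H.Normal := by
    refine ⟨fun a ha b => ?_⟩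
    obtain ⟨p, hp, hpa⟩ := (hH a).1 ha
    obtain ⟨γ, hγ⟩ := hU b
    obtain ⟨γ', h1, h2⟩ := move_off P hm r hr.ne x₀ x₀ hz hz γ
    obtain ⟨q, hq1, hq2⟩ := transport_line P hm r hr U x₀ x₀ γ' h2 p hp
    refine (hH _).2 ⟨q, hq1, ?_⟩
    rw [hq2, U.homot h1, hγ, hpa]
  have hk : Kills Set.univ r (U.push (QuotientGroup.mk' H)) := by
    intro i _ z u a h hzr hev
    show (QuotientGroup.mk' H) (U.val (mer P z u a h)) = 1
    rw [← MonoidHom.mem_ker, QuotientGroup.ker_mk']
    obtain ⟨γ⟩ := s5_path P hm (mbase P z u a h) x₀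
    obtain ⟨γ', -, h2⟩ := move_off P hm r hr.ne (mbase P z u a h) x₀ hzr hz γ
    obtain ⟨q, hq1, hq2⟩ := transport_line P hm r hr U (mbase P z u a h) x₀ γ' h2
      (mer P z u a h) (fun _ => rfl)
    have h3 : U.val γ' * U.val (mer P z u a h) * (U.val γ')⁻¹ ∈ H := (hH _).2 ⟨q, hq1, hq2⟩
    have h4 := hN.conj_mem _ h3 (U.val γ')⁻¹
    have e : (U.val γ')⁻¹ * (U.val γ' * U.val (mer P z u a h) * (U.val γ')⁻¹) *
        (U.val γ')⁻¹⁻¹ = U.val (mer P z u a h) := by group
    rwa [e] at h4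
  obtain ⟨p, hp⟩ := hU g
  have h5 := kills_all P hm r hr (U.push (QuotientGroup.mk' H)) hk x₀ p
  have h6 : (QuotientGroup.mk' H) (U.val p) = 1 := h5
  rw [← MonoidHom.mem_ker, QuotientGroup.ker_mk', hp] at h6
  exact (hH g).1 h6

end H13W
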